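import Mathlib

section
set_option autoImplicit false

/-! Basic facts: distance to the nearest integer, sines, exponentials, geometric sums. -/

namespace Pool.Agent.Lib.MP_1cdd17_nt

open Real

/-- distance to the nearest integer -/
noncomputable def nn (x : ℝ) : ℝ := |x - round x|

lemma nn_eq_norm (x : ℝ) : nn x = ‖(x : UnitAddCircle)‖ := (UnitAddCircle.norm_eq).symm

lemma nn_nonneg (x : ℝ) : 0 ≤ nn x := abs_nonneg _

lemma nn_le_half (x : ℝ) : nn x ≤ 1 / 2 := abs_sub_round x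

lemma nn_le_abs_sub (x : ℝ) (n : ℤ) : nn x ≤ |x - n| := round_le x n

lemma nn_le_abs (x : ℝ) : nn x ≤ |x| := by simpa using nn_le_abs_sub x 0

lemma nn_neg (x : ℝ) : nn (-x) = nn x := by
  rw [nn_eq_norm, nn_eq_norm]; simp

lemma nn_add_le (x y : ℝ) : nn (x + y) ≤ nn x + nn y := by
  simp only [nn_eq_norm, AddCircle.coe_add]; exact norm_add_le _ _

lemma nn_sub_le (x y : ℝ) : nn (x - y) ≤ nn x + nn y := by
  simp only [nn_eq_norm, AddCircle.coe_sub]; exact norm_sub_le _ _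

lemma nn_le_add (x y : ℝ) : nn x ≤ nn y + nn (x - y) := by
  have := nn_add_le y (x - y)
  simpa using this

lemma abs_nn_sub_le (x y : ℝ) : |nn x - nn y| ≤ nn (x - y) := by
  simp only [nn_eq_norm, AddCircle.coe_sub]; exact abs_norm_sub_norm_le _ _

lemma nn_add_int (x : ℝ) (n : ℤ) : nn (x + n) = nn x := by
  simp [nn]

lemma nn_add_nat (x : ℝ) (n : ℕ) : nn (x + n) = nn x := by
  simpa using nn_add_int x n

lemma nn_int_add (x : ℝ) (n : ℤ) : nn (n + x) = nn x := by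
  rw [add_comm, nn_add_int]

lemma nn_sub_int (x : ℝ) (n : ℤ) : nn (x - n) = nn x := by
  have := nn_add_int x (-n)
  push_cast at this
  simpa [sub_eq_add_neg] using this

lemma nn_int (n : ℤ) : nn (n : ℝ) = 0 := by simp [nn]

lemma nn_zero : nn 0 = 0 := by simp [nn]

lemma nn_of_abs_le {x : ℝ} (h : |x| ≤ 1 / 2) : nn x = |x| := by
  apply le_antisymm (nn_le_abs x)
  unfold nn
  rcases eq_or_ne (round x) 0 with h0 | h0
  · simp [h0]
  · have h1 : (1 : ℝ) ≤ |(round x : ℝ)| := by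
      rw [← Int.cast_abs]
      exact_mod_cast Int.one_le_abs h0
    have h2 : |(round x : ℝ)| ≤ |x - round x| + |x| := by
      have := abs_sub_abs_le_abs_sub (round x : ℝ) x
      rw [abs_sub_comm] at this
      linarith
    linarith

lemma abs_sin_pi_sub_int (x : ℝ) (n : ℤ) : |sin (π * (x - n))| = |sin (π * x)| := by
  rw [mul_sub, mul_comm π (n : ℝ), Real.sin_sub_int_mul_pi, abs_mul, abs_zpow]
  simp

lemma two_nn_le_abs_sin (x : ℝ) : 2 * nn x ≤ |sin (π * x)| := by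
  rw [← abs_sin_pi_sub_int x (round x)]
  set y := x - round x with hy
  have h1 : nn x = |y| := rfl
  have h2 : |y| ≤ 1 / 2 := abs_sub_round x
  rw [h1]
  have h3 : |sin (π * y)| = sin (π * |y|) := by
    rcases le_total 0 y with h | h
    · rw [abs_of_nonneg h, abs_of_nonneg]
      apply sin_nonneg_of_nonneg_of_le_pi (by positivity)
      rw [abs_of_nonneg h] at h2
      nlinarith [pi_pos]
    · rw [abs_of_nonpos h, ← abs_neg (sin _), ← sin_neg, abs_of_nonneg]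
      · congr 1; ring
      · apply sin_nonneg_of_nonneg_of_le_pi
        · nlinarith [pi_pos]
        · rw [abs_of_nonpos h] at h2
          nlinarith [pi_pos]
  rw [h3]
  have h4 := Real.mul_le_sin (x := π * |y|) (by positivity) (by nlinarith [pi_pos])
  calc 2 * |y| = 2 / π * (π * |y|) := by field_simp
    _ ≤ _ := h4

lemma abs_sin_le_pi_nn (x : ℝ) : |sin (π * x)| ≤ π * nn x := by
  rw [← abs_sin_pi_sub_int x (round x)]
  refine (abs_sin_le_abs).trans ?_
  rw [abs_mul, abs_of_pos pi_pos]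
  rfl

/-- cotangent of `π x` -/
noncomputable def ct (x : ℝ) : ℝ := cos (π * x) / sin (π * x)

lemma abs_ct_le {x : ℝ} (h : 0 < nn x) : |ct x| ≤ 1 / (2 * nn x) := by
  unfold ct
  rw [abs_div]
  exact div_le_div₀ zero_le_one (abs_cos_le_one _) (by positivity) (two_nn_le_abs_sin x)

lemma sin_ne_zero_of_nn {x : ℝ} (h : 0 < nn x) : sin (π * x) ≠ 0 := by
  have := two_nn_le_abs_sin x
  intro h0
  rw [h0, abs_zero] at this
  linarith

lemma ct_sub {x y : ℝ} (hx : 0 < nn x) (hy : 0 < nn y) :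
    ct x - ct y = - sin (π * (x - y)) / (sin (π * x) * sin (π * y)) := by
  have h1 := sin_ne_zero_of_nn hx
  have h2 := sin_ne_zero_of_nn hy
  unfold ct
  rw [div_sub_div _ _ h1 h2, mul_sub, sin_sub]
  congr 1
  ring

lemma abs_ct_sub_le {x y : ℝ} (hx : 0 < nn x) (hy : 0 < nn y) :
    |ct x - ct y| ≤ nn (x - y) / (nn x * nn y) := by
  rw [ct_sub hx hy, abs_div, abs_neg, abs_mul]
  have h1 := two_nn_le_abs_sin x
  have h2 := two_nn_le_abs_sin y
  have h3 := abs_sin_le_pi_nn (x - y)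
  have h4 : π ≤ 4 := by linarith [pi_lt_four]
  calc |sin (π * (x - y))| / (|sin (π * x)| * |sin (π * y)|)
      ≤ (4 * nn (x - y)) / ((2 * nn x) * (2 * nn y)) := by
        apply div_le_div₀ (by have := nn_nonneg (x - y); positivity)
          (h3.trans (mul_le_mul_of_nonneg_right h4 (nn_nonneg _))) (by positivity)
        exact mul_le_mul h1 h2 (by positivity) (abs_nonneg _)
    _ = nn (x - y) / (nn x * nn y) := by field_simp; ring

lemma ct_add_int (x : ℝ) (n : ℤ) : ct (x + n) = ct x := by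
  unfold ct
  rw [mul_add, mul_comm π (n : ℝ), Real.cos_add_int_mul_pi, Real.sin_add_int_mul_pi]
  have : ((-1 : ℝ) ^ n) ≠ 0 := zpow_ne_zero _ (by norm_num)
  rw [mul_div_mul_left _ _ this]

lemma ct_neg (x : ℝ) : ct (-x) = - ct x := by
  unfold ct
  rw [mul_neg, cos_neg, sin_neg, div_neg]

/-- the exponential `e(x) = exp (2 π i x)` -/
noncomputable def ee (x : ℝ) : ℂ := Complex.exp (2 * π * x * Complex.I)

lemma ee_add (x y : ℝ) : ee (x + y) = ee x * ee y := by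
  unfold ee
  rw [← Complex.exp_add]; push_cast; ring_nf

lemma ee_zero : ee 0 = 1 := by simp [ee]

lemma norm_ee (x : ℝ) : ‖ee x‖ = 1 := by
  unfold ee
  rw [show (2 * π * x * Complex.I : ℂ) = ((2 * π * x : ℝ) : ℂ) * Complex.I by push_cast; ring]
  exact Complex.norm_exp_ofReal_mul_I _

lemma ee_ne_zero (x : ℝ) : ee x ≠ 0 := Complex.exp_ne_zero _

lemma ee_neg (x : ℝ) : ee (-x) = (ee x)⁻¹ := by
  apply eq_inv_of_mul_eq_one_left
  rw [← ee_add, neg_add_cancel, ee_zero]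

lemma conj_ee (x : ℝ) : (starRingEnd ℂ) (ee x) = ee (-x) := by
  have h : ∀ y : ℝ, ee y = Complex.exp (((2 * π * y : ℝ) : ℂ) * Complex.I) := by
    intro y; unfold ee; push_cast; rfl
  rw [h, h, ← Complex.exp_conj, map_mul, Complex.conj_ofReal, Complex.conj_I]
  congr 1
  push_cast
  ring

lemma ee_int (n : ℤ) : ee n = 1 := by
  unfold ee
  rw [Complex.exp_eq_one_iff]
  exact ⟨n, by push_cast; ring⟩

lemma ee_add_int (x : ℝ) (n : ℤ) : ee (x + n) = ee x := by
  rw [ee_add, ee_int, mul_one]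

lemma ee_nat_mul (x : ℝ) (n : ℕ) : ee (n * x) = ee x ^ n := by
  induction n with
  | zero => simp [ee_zero]
  | succ n ih => rw [pow_succ, ← ih, ← ee_add]; push_cast; ring_nf

lemma norm_ee_sub_one (x : ℝ) : ‖ee x - 1‖ = 2 * |sin (π * x)| := by
  unfold ee
  rw [show (2 * π * x * Complex.I : ℂ) = Complex.I * ((2 * (π * x) : ℝ) : ℂ) by push_cast; ring]
  rw [Complex.norm_exp_I_mul_ofReal_sub_one]
  rw [norm_mul, Real.norm_eq_abs, Real.norm_eq_abs]
  simp

lemma norm_geom_sum_le_card (γ : ℝ) (K : ℕ) : ‖∑ u ∈ Finset.range K, ee (u * γ)‖ ≤ K := by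
  refine (norm_sum_le _ _).trans ?_
  simp [norm_ee]

lemma norm_geom_sum_le {γ : ℝ} (h : 0 < nn γ) (K : ℕ) :
    ‖∑ u ∈ Finset.range K, ee (u * γ)‖ ≤ 1 / (2 * nn γ) := by
  have h1 : ee γ ≠ 1 := by
    intro h0
    have := norm_ee_sub_one γ
    rw [h0, sub_self, norm_zero] at this
    have h2 := two_nn_le_abs_sin γ
    linarith
  simp only [ee_nat_mul]
  rw [geom_sum_eq h1, norm_div, norm_ee_sub_one]
  have h2 : ‖ee γ ^ K - 1‖ ≤ 2 := by
    refine (norm_sub_le _ _).trans ?_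
    rw [norm_pow, norm_ee, one_pow, norm_one]
    norm_num
  have h3 := two_nn_le_abs_sin γ
  have h4 : 0 < |sin (π * γ)| := lt_of_lt_of_le (by positivity) h3
  calc ‖ee γ ^ K - 1‖ / (2 * |sin (π * γ)|) ≤ 2 / (2 * (2 * nn γ)) := by
        apply div_le_div₀ (by norm_num) h2 (by positivity)
        linarith
    _ = 1 / (2 * nn γ) := by field_simp

end Pool.Agent.Lib.MP_1cdd17_nt
end

section
set_option autoImplicit false

/-! Counting and summing over separated points of the circle. -/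

namespace Pool.Agent.Lib.MP_1cdd17_nt

open Real Finset

/-- signed residue modulo one -/
noncomputable def sr (x : ℝ) : ℝ := x - round x

lemma abs_sr (x : ℝ) : |sr x| = nn x := rfl

lemma nn_sub_le_sr (x y : ℝ) : nn (x - y) ≤ |sr x - sr y| := by
  have := nn_le_abs_sub (x - y) (round x - round y)
  push_cast at this
  unfold sr
  convert this using 2
  ring

/-- sum of an antitone nonnegative function over a finite set of naturals -/
lemma sum_le_sum_range_card (f : ℕ → ℝ) (hf : Antitone f) :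
    ∀ (n : ℕ) (T : Finset ℕ), T.card = n → ∑ k ∈ T, f k ≤ ∑ k ∈ range n, f k := by
  intro n
  induction n with
  | zero =>
    intro T hT
    rw [Finset.card_eq_zero] at hT
    simp [hT]
  | succ n ih =>
    intro T hT
    have hne : T.Nonempty := by rw [← Finset.card_pos]; omega
    set M := T.max' hne with hM
    have hMT : M ∈ T := T.max'_mem hne
    have hsub : T ⊆ range (M + 1) := by
      intro k hk
      rw [mem_range]
      exact Nat.lt_succ_of_le (T.le_max' k hk)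
    have hcard : n ≤ M := by
      have := Finset.card_le_card hsub
      rw [hT, card_range] at this
      omega
    rw [← Finset.add_sum_erase T f hMT, Finset.sum_range_succ, add_comm]
    exact add_le_add (ih _ (by rw [Finset.card_erase_of_mem hMT, hT]; rfl)) (hf hcard)

variable {ι : Type*}

/-- An injective index function for separated reals. -/
lemma floor_injOn (S : Finset ι) (r : ι → ℝ) {σ A : ℝ} (hσ : 0 < σ)
    (hsep : ∀ a ∈ S, ∀ b ∈ S, a ≠ b → σ ≤ |r a - r b|) (hA : ∀ a ∈ S, A ≤ r a) :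
    Set.InjOn (fun a => ⌊(r a - A) / σ⌋₊) S := by
  intro a ha b hb hab
  by_contra hne
  have h1 := hsep a ha b hb hne
  have ha0 : 0 ≤ (r a - A) / σ := div_nonneg (sub_nonneg.2 (hA a ha)) hσ.le
  have hb0 : 0 ≤ (r b - A) / σ := div_nonneg (sub_nonneg.2 (hA b hb)) hσ.le
  have h2 := Nat.floor_le ha0
  have h3 := Nat.lt_floor_add_one ((r a - A) / σ)
  have h4 := Nat.floor_le hb0
  have h5 := Nat.lt_floor_add_one ((r b - A) / σ)
  simp only at hab
  rw [hab] at h2 h3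
  have h6 : |(r a - A) / σ - (r b - A) / σ| < 1 := by
    rw [abs_lt]; constructor <;> linarith
  rw [← sub_div, abs_div, abs_of_pos hσ, div_lt_one hσ] at h6
  have h7 : r a - A - (r b - A) = r a - r b := by ring
  rw [h7] at h6
  linarith

lemma card_le_of_sep (S : Finset ι) (r : ι → ℝ) {σ A B : ℝ} (hσ : 0 < σ)
    (hsep : ∀ a ∈ S, ∀ b ∈ S, a ≠ b → σ ≤ |r a - r b|) (hA : ∀ a ∈ S, A ≤ r a)
    (hB : ∀ a ∈ S, r a ≤ B) (hAB : A ≤ B) : (S.card : ℝ) ≤ (B - A) / σ + 1 := by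
  have hinj := floor_injOn S r hσ hsep hA
  have hmaps : ∀ a ∈ S, ⌊(r a - A) / σ⌋₊ ∈ range (⌊(B - A) / σ⌋₊ + 1) := by
    intro a ha
    rw [mem_range, Nat.lt_succ_iff]
    exact Nat.floor_le_floor (div_le_div_of_nonneg_right (by linarith [hB a ha]) hσ.le)
  have h1 := Finset.card_le_card_of_injOn _ hmaps hinj
  rw [card_range] at h1
  have h2 : ((⌊(B - A) / σ⌋₊ : ℕ) : ℝ) ≤ (B - A) / σ :=
    Nat.floor_le (div_nonneg (by linarith) hσ.le)
  calc (S.card : ℝ) ≤ ((⌊(B - A) / σ⌋₊ + 1 : ℕ) : ℝ) := by exact_mod_cast h1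
    _ ≤ _ := by push_cast; linarith

/-- separation on the circle -/
def SepOn (S : Finset ι) (x : ι → ℝ) (σ : ℝ) : Prop :=
  ∀ a ∈ S, ∀ b ∈ S, a ≠ b → σ ≤ nn (x a - x b)

lemma SepOn.sr {S : Finset ι} {x : ι → ℝ} {σ : ℝ} (h : SepOn S x σ) :
    ∀ a ∈ S, ∀ b ∈ S, a ≠ b → σ ≤ |sr (x a) - sr (x b)| :=
  fun a ha b hb hab => (h a ha b hb hab).trans (nn_sub_le_sr _ _)

lemma SepOn.mono {S T : Finset ι} {x : ι → ℝ} {σ : ℝ} (h : SepOn S x σ) (hT : T ⊆ S) :
    SepOn T x σ := fun a ha b hb hab => h a (hT ha) b (hT hb) hab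

lemma SepOn.card_nn_le {S : Finset ι} {x : ι → ℝ} {σ δ : ℝ} (h : SepOn S x σ) (hσ : 0 < σ)
    (hδ0 : 0 ≤ δ) (hδ : ∀ a ∈ S, nn (x a) ≤ δ) : (S.card : ℝ) ≤ 2 * δ / σ + 1 := by
  have := card_le_of_sep S (fun a => Pool.Agent.Lib.MP_1cdd17_nt.sr (x a)) (A := -δ) (B := δ)
    hσ h.sr (fun a ha => (abs_le.1 (abs_sr (x a) ▸ hδ a ha)).1)
    (fun a ha => (abs_le.1 (abs_sr (x a) ▸ hδ a ha)).2) (by linarith)
  calc (S.card : ℝ) ≤ (δ - -δ) / σ + 1 := this
    _ = _ := by ring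

lemma SepOn.card_band {S : Finset ι} {x : ι → ℝ} {σ A B : ℝ} (h : SepOn S x σ) (hσ : 0 < σ)
    (hAB : A ≤ B) (hA : ∀ a ∈ S, A ≤ nn (x a)) (hB : ∀ a ∈ S, nn (x a) ≤ B) :
    (S.card : ℝ) ≤ 2 * ((B - A) / σ + 1) := by
  classical
  set P := S.filter (fun a => 0 ≤ Pool.Agent.Lib.MP_1cdd17_nt.sr (x a)) with hP
  set N := S.filter (fun a => ¬ 0 ≤ Pool.Agent.Lib.MP_1cdd17_nt.sr (x a)) with hN
  have hPS : P ⊆ S := filter_subset _ _
  have hNS : N ⊆ S := filter_subset _ _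
  have h1 : (P.card : ℝ) ≤ (B - A) / σ + 1 := by
    apply card_le_of_sep P (fun a => Pool.Agent.Lib.MP_1cdd17_nt.sr (x a)) hσ
      (h.mono hPS).sr _ _ hAB
    · intro a ha
      have h2 := (mem_filter.1 ha).2
      have h3 := hA a (hPS ha)
      rw [← abs_sr, abs_of_nonneg h2] at h3
      exact h3
    · intro a ha
      have h2 := (mem_filter.1 ha).2
      have h3 := hB a (hPS ha)
      rw [← abs_sr, abs_of_nonneg h2] at h3
      exact h3
  have h2 : (N.card : ℝ) ≤ (-A - -B) / σ + 1 := by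
    apply card_le_of_sep N (fun a => Pool.Agent.Lib.MP_1cdd17_nt.sr (x a)) hσ
      (h.mono hNS).sr _ _ (by linarith)
    · intro a ha
      have h2 := (mem_filter.1 ha).2
      have h3 := hB a (hNS ha)
      rw [← abs_sr, abs_of_neg (not_le.1 h2)] at h3
      linarith
    · intro a ha
      have h2 := (mem_filter.1 ha).2
      have h3 := hA a (hNS ha)
      rw [← abs_sr, abs_of_neg (not_le.1 h2)] at h3
      linarith
  have h3 : S.card = P.card + N.card := by
    rw [hP, hN, Finset.card_filter_add_card_filter_not]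
  rw [h3]
  push_cast
  have h4 : (-A - -B) / σ = (B - A) / σ := by ring
  rw [h4] at h2
  linarith

/-- one-sided sum -/
lemma sum_sep_one_sided (f : ℝ → ℝ) (hf0 : ∀ t, 0 < t → 0 ≤ f t)
    (hf : ∀ s t, 0 < s → s ≤ t → f t ≤ f s)
    (S : Finset ι) (r : ι → ℝ) {σ δ : ℝ} (hσ : 0 < σ) (hδ : 0 < δ)
    (hsep : ∀ a ∈ S, ∀ b ∈ S, a ≠ b → σ ≤ |r a - r b|) (hr : ∀ a ∈ S, δ ≤ r a)
    (n : ℕ) (hn : S.card ≤ n) :
    ∑ a ∈ S, f (r a) ≤ ∑ k ∈ range n, f (δ + k * σ) := by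
  classical
  have hinj := floor_injOn S r hσ hsep hr
  set g : ι → ℕ := fun a => ⌊(r a - δ) / σ⌋₊ with hg
  have h1 : ∀ a ∈ S, f (r a) ≤ f (δ + (g a : ℝ) * σ) := by
    intro a ha
    apply hf
    · positivity
    · have h2 : ((g a : ℕ) : ℝ) ≤ (r a - δ) / σ :=
        Nat.floor_le (div_nonneg (sub_nonneg.2 (hr a ha)) hσ.le)
      rw [le_div_iff₀ hσ] at h2
      linarith
  calc ∑ a ∈ S, f (r a) ≤ ∑ a ∈ S, f (δ + (g a : ℝ) * σ) := Finset.sum_le_sum h1
    _ = ∑ k ∈ S.image g, f (δ + (k : ℝ) * σ) := by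
        rw [Finset.sum_image (fun a ha b hb hab => hinj ha hb hab)]
    _ ≤ ∑ k ∈ range (S.image g).card, f (δ + (k : ℝ) * σ) := by
        apply sum_le_sum_range_card (fun k : ℕ => f (δ + (k : ℝ) * σ)) _ _ _ rfl
        intro k l hkl
        apply hf
        · positivity
        · have : (k : ℝ) ≤ l := by exact_mod_cast hkl
          nlinarith
    _ ≤ ∑ k ∈ range n, f (δ + (k : ℝ) * σ) := by
        apply Finset.sum_le_sum_of_subset_of_nonneg
        · apply Finset.range_subset_range.2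
          exact (Finset.card_image_le).trans hn
        · intro k _ _
          apply hf0
          positivity

lemma SepOn.sum_two_sided (f : ℝ → ℝ) (hf0 : ∀ t, 0 < t → 0 ≤ f t)
    (hf : ∀ s t, 0 < s → s ≤ t → f t ≤ f s)
    {S : Finset ι} {x : ι → ℝ} {σ δ : ℝ} (h : SepOn S x σ) (hσ : 0 < σ) (hδ : 0 < δ)
    (hr : ∀ a ∈ S, δ ≤ nn (x a)) (n : ℕ) (hn : S.card ≤ n) :
    ∑ a ∈ S, f (nn (x a)) ≤ 2 * ∑ k ∈ range n, f (δ + k * σ) := by
  classical
  set P := S.filter (fun a => 0 ≤ Pool.Agent.Lib.MP_1cdd17_nt.sr (x a)) with hP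
  set N := S.filter (fun a => ¬ 0 ≤ Pool.Agent.Lib.MP_1cdd17_nt.sr (x a)) with hN
  have hPS : P ⊆ S := filter_subset _ _
  have hNS : N ⊆ S := filter_subset _ _
  have h1 : ∑ a ∈ P, f (nn (x a)) ≤ ∑ k ∈ range n, f (δ + k * σ) := by
    have h2 : ∀ a ∈ P, nn (x a) = Pool.Agent.Lib.MP_1cdd17_nt.sr (x a) := by
      intro a ha
      rw [← abs_sr, abs_of_nonneg (mem_filter.1 ha).2]
    rw [Finset.sum_congr rfl (fun a ha => by rw [h2 a ha])]
    apply sum_sep_one_sided f hf0 hf P (fun a => Pool.Agent.Lib.MP_1cdd17_nt.sr (x a)) hσ hδ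
      (h.mono hPS).sr _ n ((Finset.card_le_card hPS).trans hn)
    intro a ha
    have := hr a (hPS ha)
    rwa [h2 a ha] at this
  have h2 : ∑ a ∈ N, f (nn (x a)) ≤ ∑ k ∈ range n, f (δ + k * σ) := by
    have h2 : ∀ a ∈ N, nn (x a) = - Pool.Agent.Lib.MP_1cdd17_nt.sr (x a) := by
      intro a ha
      rw [← abs_sr, abs_of_neg (not_le.1 (mem_filter.1 ha).2)]
    rw [Finset.sum_congr rfl (fun a ha => by rw [h2 a ha])]
    apply sum_sep_one_sided f hf0 hf N (fun a => - Pool.Agent.Lib.MP_1cdd17_nt.sr (x a)) hσ hδ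
      _ _ n ((Finset.card_le_card hNS).trans hn)
    · intro a ha b hb hab
      have h3 := (h.mono hNS).sr a ha b hb hab
      rw [neg_sub_neg, abs_sub_comm]
      exact h3
    · intro a ha
      have := hr a (hNS ha)
      rwa [h2 a ha] at this
  have h3 : ∑ a ∈ S, f (nn (x a)) = ∑ a ∈ P, f (nn (x a)) + ∑ a ∈ N, f (nn (x a)) := by
    rw [hP, hN, Finset.sum_filter_add_sum_filter_not]
  rw [h3]
  linarith

lemma sum_inv_sq_range (n : ℕ) : ∑ k ∈ range n, 1 / ((k : ℝ) + 1) ^ 2 ≤ 2 := by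
  have key : ∀ n : ℕ, ∑ k ∈ range (n + 1), 1 / ((k : ℝ) + 1) ^ 2 ≤ 2 - 1 / ((n : ℝ) + 1) := by
    intro n
    induction n with
    | zero => norm_num
    | succ n ih =>
      rw [Finset.sum_range_succ]
      push_cast
      have h : 1 / ((n : ℝ) + 1 + 1) ^ 2 ≤ 1 / ((n : ℝ) + 1) - 1 / ((n : ℝ) + 1 + 1) := by
        have h0 : (0 : ℝ) < (n : ℝ) + 1 := by positivity
        rw [div_sub_div _ _ h0.ne' (by positivity), div_le_div_iff₀ (by positivity)
          (by positivity)]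
        nlinarith
      linarith
  rcases n with _ | n
  · simp
  · have h1 := key n
    have h2 : 0 ≤ 1 / ((n : ℝ) + 1) := by positivity
    linarith

lemma sum_inv_range (n : ℕ) : ∑ k ∈ range n, 1 / ((k : ℝ) + 1) ≤ 1 + log n := by
  have := harmonic_le_one_add_log n
  rw [harmonic] at this
  push_cast at this
  simpa [one_div] using this

/-- sum of inverse squares over separated points bounded away from zero -/
lemma SepOn.sum_inv_sq {S : Finset ι} {x : ι → ℝ} {σ δ : ℝ} (h : SepOn S x σ) (hσ : 0 < σ)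
    (hδ : 0 < δ) (hr : ∀ a ∈ S, δ ≤ nn (x a)) :
    ∑ a ∈ S, 1 / (nn (x a)) ^ 2 ≤ 2 / δ ^ 2 + 4 / σ ^ 2 := by
  have h1 := h.sum_two_sided (fun t => 1 / t ^ 2) (fun t _ => by positivity)
    (fun s t hs hst => by
      apply one_div_le_one_div_of_le (by positivity)
      exact pow_le_pow_left₀ hs.le hst 2) hσ hδ hr (S.card + 1) (Nat.le_succ _)
  have h2 : ∑ k ∈ range (S.card + 1), 1 / (δ + (k : ℝ) * σ) ^ 2 ≤ 1 / δ ^ 2 + 2 / σ ^ 2 := by
    rw [Finset.sum_range_succ', add_comm]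
    apply add_le_add
    · simp
    · calc ∑ k ∈ range S.card, 1 / (δ + ((k + 1 : ℕ) : ℝ) * σ) ^ 2
          ≤ ∑ k ∈ range S.card, (1 / σ ^ 2) * (1 / ((k : ℝ) + 1) ^ 2) := by
            apply Finset.sum_le_sum
            intro k _
            rw [one_div_mul_one_div, ← mul_pow]
            apply one_div_le_one_div_of_le (by positivity)
            push_cast
            apply pow_le_pow_left₀ (by positivity)
            linarith
        _ = (1 / σ ^ 2) * ∑ k ∈ range S.card, 1 / ((k : ℝ) + 1) ^ 2 := by rw [Finset.mul_sum]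
        _ ≤ (1 / σ ^ 2) * 2 := mul_le_mul_of_nonneg_left (sum_inv_sq_range _) (by positivity)
        _ = 2 / σ ^ 2 := by ring
  calc _ ≤ _ := h1
    _ ≤ 2 * (1 / δ ^ 2 + 2 / σ ^ 2) := by linarith
    _ = _ := by ring

/-- sum of inverses over separated points bounded away from zero -/
lemma SepOn.sum_inv {S : Finset ι} {x : ι → ℝ} {σ δ : ℝ} (h : SepOn S x σ) (hσ : 0 < σ)
    (hδ : 0 < δ) (hr : ∀ a ∈ S, δ ≤ nn (x a)) (n : ℕ) (hn : S.card ≤ n) :
    ∑ a ∈ S, 1 / (nn (x a)) ≤ 2 / δ + 2 * (1 + log n) / σ := by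
  have hlog : 0 ≤ log (n : ℝ) := Real.log_natCast_nonneg n
  have h1 := h.sum_two_sided (fun t => 1 / t) (fun t ht => by positivity)
    (fun s t hs hst => one_div_le_one_div_of_le hs hst) hσ hδ hr (n + 1)
    (hn.trans (Nat.le_succ _))
  have h2 : ∑ k ∈ range (n + 1), 1 / (δ + (k : ℝ) * σ) ≤ 1 / δ + (1 + log n) / σ := by
    rw [Finset.sum_range_succ', add_comm]
    apply add_le_add
    · simp
    · calc ∑ k ∈ range n, 1 / (δ + ((k + 1 : ℕ) : ℝ) * σ)
          ≤ ∑ k ∈ range n, (1 / σ) * (1 / ((k : ℝ) + 1)) := by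
            apply Finset.sum_le_sum
            intro k _
            rw [one_div_mul_one_div]
            apply one_div_le_one_div_of_le (by positivity)
            push_cast
            linarith
        _ = (1 / σ) * ∑ k ∈ range n, 1 / ((k : ℝ) + 1) := by rw [Finset.mul_sum]
        _ ≤ (1 / σ) * (1 + log n) :=
            mul_le_mul_of_nonneg_left (sum_inv_range _) (by positivity)
        _ = _ := by ring
  calc _ ≤ _ := h1
    _ ≤ 2 * (1 / δ + (1 + log n) / σ) := by linarith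
    _ = _ := by ring

end Pool.Agent.Lib.MP_1cdd17_nt
end

section
set_option autoImplicit false

/-! Sums of cotangents over complete blocks. -/

namespace Pool.Agent.Lib.MP_1cdd17_nt

open Real Finset

lemma sum_ct_half (R : ℕ) : ∑ k ∈ range R, ct (((k : ℝ) + 1 / 2) / R) = 0 := by
  rcases Nat.eq_zero_or_pos R with h0 | hR
  · subst h0; simp
  have hR' : (R : ℝ) ≠ 0 := by positivity
  have h : ∑ k ∈ range R, ct (((k : ℝ) + 1 / 2) / R)
      = ∑ k ∈ range R, - ct (((k : ℝ) + 1 / 2) / R) := by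
    rw [← Finset.sum_range_reflect]
    apply Finset.sum_congr rfl
    intro k hk
    rw [mem_range] at hk
    have h1 : ((R - 1 - k : ℕ) : ℝ) = (R : ℝ) - 1 - k := by
      rw [Nat.cast_sub (by omega), Nat.cast_sub (by omega)]
      simp
    rw [h1, ← ct_neg, ← ct_add_int (-(((k : ℝ) + 1 / 2) / R)) 1]
    congr 1
    field_simp
    push_cast
    ring
  rw [Finset.sum_neg_distrib] at h
  linarith

/-- nonintegral multiples of `1 / R` are at distance at least `1 / R` from the integers -/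
lemma one_div_le_nn {R : ℕ} (hR : 0 < R) {a : ℤ} (h : ¬ (R : ℤ) ∣ a) :
    1 / (R : ℝ) ≤ nn ((a : ℝ) / R) := by
  have hR' : (0 : ℝ) < R := by exact_mod_cast hR
  unfold nn
  set n := round ((a : ℝ) / R) with hn
  have h1 : a - n * R ≠ 0 := by
    intro h0
    apply h
    exact ⟨n, by linarith⟩
  have h2 : (1 : ℝ) ≤ |(a : ℝ) - n * R| := by
    have : (1 : ℤ) ≤ |a - n * R| := Int.one_le_abs h1
    exact_mod_cast this
  have h3 : (a : ℝ) / R - n = ((a : ℝ) - n * R) / R := by field_simp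
  rw [h3, abs_div, abs_of_pos hR']
  exact div_le_div_of_nonneg_right h2 hR'.le

/-- half-integral multiples of `1 / R` -/
lemma half_le_nn {R : ℕ} (hR : 0 < R) (a : ℤ) :
    1 / (2 * (R : ℝ)) ≤ nn (((a : ℝ) + 1 / 2) / R) := by
  have hR' : (0 : ℝ) < R := by exact_mod_cast hR
  unfold nn
  set n := round (((a : ℝ) + 1 / 2) / R) with hn
  have h2 : (1 : ℝ) ≤ |2 * (a : ℝ) + 1 - 2 * (n * R)| := by
    have h1 : 2 * a + 1 - 2 * (n * R) ≠ 0 := by omega
    have : (1 : ℤ) ≤ |2 * a + 1 - 2 * (n * R)| := Int.one_le_abs h1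
    exact_mod_cast this
  have h3 : ((a : ℝ) + 1 / 2) / R - n = (2 * (a : ℝ) + 1 - 2 * (n * R)) / (2 * R) := by
    field_simp
  rw [h3, abs_div, abs_of_pos (by positivity : (0 : ℝ) < 2 * R)]
  exact div_le_div_of_nonneg_right h2 (by positivity)

lemma injOn_mul_add_emod {R : ℕ} {P : ℤ} (hP : IsCoprime P (R : ℤ)) (n : ℤ) :
    Set.InjOn (fun i : ℕ => ((i * P + n) % (R : ℤ)).toNat) (range R) := by
  intro i hi j hj hij
  rw [coe_range, Set.mem_Iio] at hi hj
  have hR : (0 : ℤ) < R := by omega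
  simp only at hij
  have h1 := Int.emod_nonneg (i * P + n) hR.ne'
  have h2 := Int.emod_nonneg (j * P + n) hR.ne'
  have h3 : (i * P + n) % (R : ℤ) = (j * P + n) % (R : ℤ) := by omega
  have h4 : (R : ℤ) ∣ (i * P + n) - (j * P + n) :=
    Int.ModEq.dvd (show (j * P + n) ≡ (i * P + n) [ZMOD (R : ℤ)] from h3.symm)
  have h5 : (R : ℤ) ∣ ((i : ℤ) - j) * P := by
    have : (i * P + n) - (j * P + n) = ((i : ℤ) - j) * P := by ring
    rwa [this] at h4
  have h6 : (R : ℤ) ∣ (i : ℤ) - j := (hP.symm).dvd_of_dvd_mul_right h5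
  have h7 : |(i : ℤ) - j| < R := by rw [abs_lt]; omega
  have h8 := Int.eq_zero_of_abs_lt_dvd h6 h7
  omega

lemma sum_periodic {R : ℕ} {P : ℤ} (hP : IsCoprime P (R : ℤ)) (n : ℤ) (G : ℤ → ℝ)
    (hG : ∀ a b : ℤ, G (a + b * R) = G a) :
    ∑ i ∈ range R, G (i * P + n) = ∑ k ∈ range R, G k := by
  rcases Nat.eq_zero_or_pos R with h0 | hR
  · subst h0; simp
  have hRz : (0 : ℤ) < R := by exact_mod_cast hR
  set g : ℕ → ℕ := fun i : ℕ => ((i * P + n) % (R : ℤ)).toNat with hg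
  have hinj := injOn_mul_add_emod hP n
  have hmaps : ∀ i ∈ range R, g i ∈ range R := by
    intro i _
    rw [mem_range]
    have h1 := Int.emod_nonneg (i * P + n) hRz.ne'
    have h2 := Int.emod_lt_of_pos (i * P + n) hRz
    simp only [hg]
    omega
  have himg : (range R).image g = range R := by
    apply Finset.eq_of_subset_of_card_le
    · intro x hx
      obtain ⟨i, hi, rfl⟩ := mem_image.1 hx
      exact hmaps i hi
    · rw [Finset.card_image_of_injOn hinj]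
  calc ∑ i ∈ range R, G (i * P + n) = ∑ i ∈ range R, G (g i) := by
        apply Finset.sum_congr rfl
        intro i _
        have h1 := Int.emod_nonneg (i * P + n) hRz.ne'
        have h2 : ((g i : ℕ) : ℤ) = (i * P + n) % (R : ℤ) := by
          simp only [hg]; omega
        rw [h2]
        have h3 := Int.emod_add_mul_ediv (i * P + n) (R : ℤ)
        conv_lhs => rw [← h3, mul_comm (R : ℤ)]
        exact hG _ _
    _ = ∑ k ∈ (range R).image g, G k := by
        rw [Finset.sum_image (fun a ha b hb hab => hinj ha hb hab)]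
    _ = _ := by rw [himg]

/-- Cotangent sums over complete blocks. -/
theorem block_bound {R : ℕ} (hR : 0 < R) {P : ℤ} (hP : IsCoprime P (R : ℤ)) {α θ δ : ℝ}
    (hη : |(R : ℝ) * α - P| ≤ 1 / R) (hδ : 0 < δ)
    (hfar : ∀ i ∈ range R, δ ≤ nn (θ + (i : ℝ) * α)) :
    |∑ i ∈ range R, ct (θ + (i : ℝ) * α)| ≤ 36 * R + 21 / δ := by
  have hR' : (0 : ℝ) < R := by exact_mod_cast hR
  set n := round ((R : ℝ) * θ - 1 / 2) with hn
  set y : ℕ → ℝ := fun i => (((i * P + n : ℤ) : ℝ) + 1 / 2) / R with hy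
  set x : ℕ → ℝ := fun i => θ + (i : ℝ) * α with hx
  have hysum : ∑ i ∈ range R, ct (y i) = 0 := by
    have h1 := sum_periodic hP n (fun a : ℤ => ct (((a : ℝ) + 1 / 2) / R)) (by
      intro a b
      rw [← ct_add_int (((a : ℝ) + 1 / 2) / R) b]
      congr 1
      push_cast
      field_simp
      ring)
    have h2 : ∑ k ∈ range R, ct ((((k : ℤ) : ℝ) + 1 / 2) / R) = 0 := by
      simpa using sum_ct_half R
    exact h1.trans h2
  have hxy : ∀ i ∈ range R, nn (x i - y i) ≤ 3 / 2 / R := by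
    intro i hi
    have hiR : (i : ℝ) ≤ R := by exact_mod_cast (mem_range.1 hi).le
    have h1 : x i - y i = ((R : ℝ) * θ - 1 / 2 - n) / R + (i : ℝ) * ((R : ℝ) * α - P) / R := by
      simp only [hx, hy]; push_cast; field_simp; ring
    have h2 : |(R : ℝ) * θ - 1 / 2 - n| ≤ 1 / 2 := abs_sub_round _
    calc nn (x i - y i) ≤ |x i - y i| := nn_le_abs _
      _ ≤ |((R : ℝ) * θ - 1 / 2 - n) / R| + |(i : ℝ) * ((R : ℝ) * α - P) / R| := by
          rw [h1]; exact abs_add_le _ _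
      _ ≤ (1 / 2) / R + 1 / R := by
          apply add_le_add
          · rw [abs_div, abs_of_pos hR']
            exact div_le_div_of_nonneg_right h2 hR'.le
          · rw [abs_div, abs_mul, abs_of_pos hR', abs_of_nonneg (Nat.cast_nonneg i)]
            apply div_le_div_of_nonneg_right _ hR'.le
            calc (i : ℝ) * |(R : ℝ) * α - P| ≤ R * (1 / R) :=
                  mul_le_mul hiR hη (abs_nonneg _) hR'.le
              _ = 1 := by field_simp
      _ = 3 / 2 / R := by ring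
  have hyn : ∀ i ∈ range R, 1 / (2 * (R : ℝ)) ≤ nn (y i) := fun i _ => half_le_nn hR _
  have hsep : SepOn (range R) y (1 / R) := by
    intro a ha b hb hab
    have h1 : y a - y b = (((((a : ℤ) - b) * P : ℤ)) : ℝ) / R := by
      simp only [hy]; push_cast; field_simp; ring
    rw [h1]
    apply one_div_le_nn hR
    intro h5
    have h6 : (R : ℤ) ∣ (a : ℤ) - b := (hP.symm).dvd_of_dvd_mul_right h5
    rw [mem_range] at ha hb
    have h7 : |(a : ℤ) - b| < R := by rw [abs_lt]; omega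
    have h8 := Int.eq_zero_of_abs_lt_dvd h6 h7
    omega
  -- termwise bounds
  classical
  set N := (range R).filter (fun i => nn (y i) < 3 / R) with hN
  set F := (range R).filter (fun i => ¬ nn (y i) < 3 / R) with hF
  have hNR : N ⊆ range R := filter_subset _ _
  have hFR : F ⊆ range R := filter_subset _ _
  have hypos : ∀ i ∈ range R, 0 < nn (y i) := fun i hi =>
    lt_of_lt_of_le (by positivity) (hyn i hi)
  have hxpos : ∀ i ∈ range R, 0 < nn (x i) := fun i hi => lt_of_lt_of_le hδ (hfar i hi)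
  have hterm : ∀ i ∈ range R, |ct (x i) - ct (y i)| ≤ (3 / 2 / R) / (nn (x i) * nn (y i)) := by
    intro i hi
    refine (abs_ct_sub_le (hxpos i hi) (hypos i hi)).trans ?_
    apply div_le_div_of_nonneg_right (hxy i hi)
    exact mul_nonneg (nn_nonneg _) (nn_nonneg _)
  have hnear : ∑ i ∈ N, |ct (x i) - ct (y i)| ≤ 21 / δ := by
    have hc : (N.card : ℝ) ≤ 7 := by
      have := (hsep.mono hNR).card_nn_le (by positivity) (δ := 3 / R) (by positivity)
        (fun i hi => (mem_filter.1 hi).2.le)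
      calc (N.card : ℝ) ≤ 2 * (3 / R) / (1 / R) + 1 := this
        _ = 7 := by field_simp; norm_num
    have h1 : ∀ i ∈ N, |ct (x i) - ct (y i)| ≤ 3 / δ := by
      intro i hi
      refine (hterm i (hNR hi)).trans ?_
      have h2 := hfar i (hNR hi)
      have h3 := hyn i (hNR hi)
      calc (3 / 2 / R) / (nn (x i) * nn (y i)) ≤ (3 / 2 / R) / (δ * (1 / (2 * R))) := by
            apply div_le_div_of_nonneg_left (by positivity) (by positivity)
            exact mul_le_mul h2 h3 (by positivity) (nn_nonneg _)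
        _ = 3 / δ := by field_simp
    calc ∑ i ∈ N, |ct (x i) - ct (y i)| ≤ ∑ i ∈ N, 3 / δ := Finset.sum_le_sum h1
      _ = N.card * (3 / δ) := by rw [Finset.sum_const, nsmul_eq_mul]
      _ ≤ 7 * (3 / δ) := mul_le_mul_of_nonneg_right hc (by positivity)
      _ = 21 / δ := by ring
  have hfar' : ∑ i ∈ F, |ct (x i) - ct (y i)| ≤ 36 * R := by
    have h1 : ∀ i ∈ F, |ct (x i) - ct (y i)| ≤ (3 / R) * (1 / (nn (y i)) ^ 2) := by
      intro i hi
      refine (hterm i (hFR hi)).trans ?_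
      have h2 : 3 / R ≤ nn (y i) := not_lt.1 (mem_filter.1 hi).2
      have h3 : nn (y i) / 2 ≤ nn (x i) := by
        have h4 := nn_le_add (y i) (x i)
        have h5 : nn (y i - x i) = nn (x i - y i) := by rw [← nn_neg]; congr 1; ring
        rw [h5] at h4
        have h6 := hxy i (hFR hi)
        have h7 : 3 / 2 / (R : ℝ) = (3 / R) / 2 := by ring
        rw [h7] at h6
        linarith
      have h4 := hypos i (hFR hi)
      calc (3 / 2 / R) / (nn (x i) * nn (y i)) ≤ (3 / 2 / R) / (nn (y i) / 2 * nn (y i)) := by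
            apply div_le_div_of_nonneg_left (by positivity) (by positivity)
            exact mul_le_mul_of_nonneg_right h3 h4.le
        _ = (3 / R) * (1 / (nn (y i)) ^ 2) := by field_simp
    have h2 := (hsep.mono hFR).sum_inv_sq (by positivity) (δ := 1 / (2 * (R : ℝ))) (by positivity)
      (fun i hi => hyn i (hFR hi))
    calc ∑ i ∈ F, |ct (x i) - ct (y i)| ≤ ∑ i ∈ F, (3 / R) * (1 / (nn (y i)) ^ 2) :=
          Finset.sum_le_sum h1
      _ = (3 / R) * ∑ i ∈ F, 1 / (nn (y i)) ^ 2 := by rw [Finset.mul_sum]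
      _ ≤ (3 / R) * (2 / (1 / (2 * (R : ℝ))) ^ 2 + 4 / (1 / (R : ℝ)) ^ 2) :=
          mul_le_mul_of_nonneg_left h2 (by positivity)
      _ = 36 * R := by field_simp; ring
  have htot : ∑ i ∈ range R, ct (x i) = ∑ i ∈ range R, (ct (x i) - ct (y i)) := by
    rw [Finset.sum_sub_distrib, hysum, sub_zero]
  rw [htot]
  calc |∑ i ∈ range R, (ct (x i) - ct (y i))| ≤ ∑ i ∈ range R, |ct (x i) - ct (y i)| :=
        Finset.abs_sum_le_sum_abs _ _
    _ = ∑ i ∈ N, |ct (x i) - ct (y i)| + ∑ i ∈ F, |ct (x i) - ct (y i)| := by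
        rw [hN, hF, Finset.sum_filter_add_sum_filter_not]
    _ ≤ 21 / δ + 36 * R := add_le_add hnear hfar'
    _ = _ := by ring

end Pool.Agent.Lib.MP_1cdd17_nt
end

section
set_option autoImplicit false

/-! Good denominators and the uniform bound for cotangent sums. -/

namespace Pool.Agent.Lib.MP_1cdd17_nt

open Real Finset

/-- The standing hypotheses on the denominator `q`. -/
structure Good (α : ℝ) (p : ℤ) (q : ℕ) (κ : ℝ) : Prop where
  irr : Irrational α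
  qpos : 0 < q
  κpos : 0 < κ
  w_le : (q : ℝ) * |(q : ℝ) * α - p| ≤ 1
  best : ∀ m : ℕ, 1 ≤ m → m < q → |(q : ℝ) * α - p| < nn ((m : ℝ) * α)
  lower : ∀ m : ℕ, 1 ≤ m → m < q → κ ≤ (m : ℝ) * nn ((m : ℝ) * α)

lemma nn_pos_of_irr {α : ℝ} (h : Irrational α) {m : ℕ} (hm : 0 < m) : 0 < nn ((m : ℝ) * α) := by
  unfold nn
  rw [abs_pos, sub_ne_zero]
  intro h0
  have h1 : Irrational ((m : ℝ) * α) := h.natCast_mul hm.ne'
  exact h1 ⟨(round ((m : ℝ) * α) : ℚ), by rw [h0]; simp⟩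

/-- the distance of `i α` from the integers, when `R α` is near the integer `P` -/
lemma gap {R : ℕ} (hR : 0 < R) {P : ℤ} (hP : IsCoprime P (R : ℤ)) (α : ℝ) {i : ℕ}
    (hi : 0 < i) (hiR : i < R) :
    1 / (R : ℝ) - |(R : ℝ) * α - P| ≤ nn ((i : ℝ) * α) := by
  have hR' : (0 : ℝ) < R := by exact_mod_cast hR
  have h1 : 1 / (R : ℝ) ≤ nn (((i * P : ℤ) : ℝ) / R) := by
    apply one_div_le_nn hR
    intro h5
    have h6 : (R : ℤ) ∣ (i : ℤ) := (hP.symm).dvd_of_dvd_mul_right h5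
    have h7 := Int.le_of_dvd (by exact_mod_cast hi) h6
    omega
  have h2 := nn_le_add (((i * P : ℤ) : ℝ) / R) ((i : ℝ) * α)
  have h3 : nn (((i * P : ℤ) : ℝ) / R - (i : ℝ) * α) ≤ |(R : ℝ) * α - P| := by
    refine (nn_le_abs _).trans ?_
    have h4 : ((i * P : ℤ) : ℝ) / R - (i : ℝ) * α = - ((i : ℝ) * ((R : ℝ) * α - P) / R) := by
      push_cast; field_simp; ring
    rw [h4, abs_neg, abs_div, abs_mul, abs_of_pos hR', abs_of_nonneg (Nat.cast_nonneg i),
      div_le_iff₀ hR', mul_comm]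
    apply mul_le_mul_of_nonneg_left _ (abs_nonneg _)
    exact_mod_cast hiR.le
  linarith

/-- if `|R α - P|` is minimal then `P, R` are coprime -/
lemma coprime_of_min {α : ℝ} (hirr : Irrational α) {R : ℕ} (hR : 0 < R) {P : ℤ}
    (hmin : ∀ i : ℕ, 0 < i → i < R → |(R : ℝ) * α - P| ≤ nn ((i : ℝ) * α)) :
    IsCoprime P (R : ℤ) := by
  rw [Int.isCoprime_iff_gcd_eq_one]
  by_contra hg
  set d := Int.gcd P (R : ℤ) with hd
  have hd0 : d ≠ 0 := by
    rw [hd, Ne, Int.gcd_eq_zero_iff]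
    omega
  have hd2 : 2 ≤ d := by omega
  obtain ⟨P', hP'⟩ := Int.gcd_dvd_left (a := P) (b := (R : ℤ))
  obtain ⟨R', hR'⟩ := Int.gcd_dvd_right (a := P) (b := (R : ℤ))
  rw [← hd] at hP' hR'
  have hdz : (0 : ℤ) < d := by omega
  have hR'pos : 0 < R' := by
    have : (0 : ℤ) < d * R' := by rw [← hR']; exact_mod_cast hR
    exact (pos_iff_pos_of_mul_pos this).1 hdz
  obtain ⟨r, rfl⟩ := Int.eq_ofNat_of_zero_le hR'pos.le
  have hr : 0 < r := by exact_mod_cast hR'pos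
  have hRr : R = d * r := by exact_mod_cast hR'
  have hrR : r < R := by rw [hRr]; nlinarith
  have h1 := hmin r hr hrR
  have h2 : (R : ℝ) * α - P = (d : ℝ) * ((r : ℝ) * α - P') := by
    rw [hRr, hP']; push_cast; ring
  have h3 : nn ((r : ℝ) * α) ≤ |(r : ℝ) * α - P'| := nn_le_abs_sub _ _
  have h4 := nn_pos_of_irr hirr hr
  rw [h2, abs_mul, abs_of_nonneg (Nat.cast_nonneg d)] at h1
  have h5 : (2 : ℝ) ≤ d := by exact_mod_cast hd2
  nlinarith

namespace Good

variable {α : ℝ} {p : ℤ} {q : ℕ} {κ : ℝ}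

lemma coprime (h : Good α p q κ) : IsCoprime p (q : ℤ) :=
  coprime_of_min h.irr h.qpos (fun i hi hiq => (h.best i hi hiq).le)

lemma half_le (h : Good α p q κ) {m : ℕ} (h1 : 1 ≤ m) (h2 : m < q) :
    1 / (2 * (q : ℝ)) ≤ nn ((m : ℝ) * α) := by
  have h3 := gap h.qpos h.coprime α h1 h2
  have h4 := h.best m h1 h2
  have h5 : 1 / (2 * (q : ℝ)) = (1 / (q : ℝ)) / 2 := by ring
  rw [h5]
  linarith

lemma κ_le_half (h : Good α p q κ) (hq : 2 ≤ q) : κ ≤ 1 / 2 := by
  have h1 := h.lower 1 le_rfl (by omega)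
  have h2 := nn_le_half (((1 : ℕ) : ℝ) * α)
  push_cast at h1 h2
  linarith

end Good

/-- The sum over the first block, by reflection. -/
lemma first_block {α : ℝ} {r : ℕ} (hr : 0 < r) {P : ℤ} {τ : ℝ} (hτ : |(r : ℝ) * α - P| ≤ τ)
    (hτr : τ ≤ 1 / r)
    (hgap : ∀ i : ℕ, 1 ≤ i → i < r → 1 / (2 * (r : ℝ)) ≤ nn ((i : ℝ) * α)) :
    |∑ l ∈ Ico 1 r, ct ((l : ℝ) * α)| ≤ 12 * r := by
  have hr' : (0 : ℝ) < r := by exact_mod_cast hr
  have hτ0 : 0 ≤ τ := (abs_nonneg _).trans hτ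
  have hrefl : ∑ l ∈ Ico 1 r, ct (((r - l : ℕ) : ℝ) * α) = ∑ l ∈ Ico 1 r, ct ((l : ℝ) * α) := by
    have := Finset.sum_Ico_reflect (fun l : ℕ => ct ((l : ℝ) * α)) 1 (m := r) (n := r) (by omega)
    simpa using this
  have hpt : ∀ l ∈ Ico 1 r, |ct ((l : ℝ) * α) + ct (((r - l : ℕ) : ℝ) * α)|
      ≤ τ * (1 / 2 * (1 / (nn ((l : ℝ) * α)) ^ 2 + 1 / (nn (((r - l : ℕ) : ℝ) * α)) ^ 2)) := by
    intro l hl
    rw [mem_Ico] at hl
    have h1 := hgap l hl.1 hl.2
    have h2 := hgap (r - l) (by omega) (by omega)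
    have hp1 : 0 < nn ((l : ℝ) * α) := lt_of_lt_of_le (by positivity) h1
    have hp2 : 0 < nn (((r - l : ℕ) : ℝ) * α) := lt_of_lt_of_le (by positivity) h2
    have hcast : ((r - l : ℕ) : ℝ) = (r : ℝ) - l := by rw [Nat.cast_sub hl.2.le]
    have h3 : ct (((r - l : ℕ) : ℝ) * α) = - ct ((l : ℝ) * α - ((r : ℝ) * α - P)) := by
      rw [← ct_neg, hcast, ← ct_add_int (-((l : ℝ) * α - ((r : ℝ) * α - P))) P]
      congr 1
      ring
    have h4 : nn ((l : ℝ) * α - ((r : ℝ) * α - P)) = nn (((r - l : ℕ) : ℝ) * α) := by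
      rw [← nn_neg, hcast, ← nn_add_int (-((l : ℝ) * α - ((r : ℝ) * α - P))) P]
      congr 1
      ring
    have h5 : 0 < nn ((l : ℝ) * α - ((r : ℝ) * α - P)) := by rw [h4]; exact hp2
    rw [h3, ← sub_eq_add_neg]
    refine (abs_ct_sub_le hp1 h5).trans ?_
    rw [h4]
    have h6 : nn ((l : ℝ) * α - ((l : ℝ) * α - ((r : ℝ) * α - P))) ≤ τ := by
      refine (nn_le_abs _).trans ?_
      have : (l : ℝ) * α - ((l : ℝ) * α - ((r : ℝ) * α - P)) = (r : ℝ) * α - P := by ring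
      rw [this]; exact hτ
    set a := nn ((l : ℝ) * α)
    set b := nn (((r - l : ℕ) : ℝ) * α)
    calc nn ((l : ℝ) * α - ((l : ℝ) * α - ((r : ℝ) * α - P))) / (a * b) ≤ τ / (a * b) :=
          div_le_div_of_nonneg_right h6 (by positivity)
      _ = τ * (1 / a * (1 / b)) := by rw [one_div_mul_one_div]; ring
      _ ≤ τ * (1 / 2 * (1 / a ^ 2 + 1 / b ^ 2)) := by
          apply mul_le_mul_of_nonneg_left _ hτ0
          have := sq_nonneg (1 / a - 1 / b)
          have e1 : 1 / a ^ 2 = (1 / a) ^ 2 := by rw [one_div_pow]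
          have e2 : 1 / b ^ 2 = (1 / b) ^ 2 := by rw [one_div_pow]
          rw [e1, e2]
          nlinarith
  have hsep : SepOn (Ico 1 r) (fun l : ℕ => (l : ℝ) * α) (1 / (2 * (r : ℝ))) := by
    have key : ∀ a b : ℕ, 1 ≤ b → b < a → a < r → 1 / (2 * (r : ℝ)) ≤ nn ((a : ℝ) * α - b * α) := by
      intro a b hb hab har
      have := hgap (a - b) (by omega) (by omega)
      rw [Nat.cast_sub hab.le, sub_mul] at this
      exact this
    intro a ha b hb hab
    rw [mem_Ico] at ha hb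
    rcases lt_or_gt_of_ne hab with h | h
    · rw [← nn_neg, neg_sub]
      exact key b a ha.1 h hb.2
    · exact key a b hb.1 h ha.2
  have hsq := hsep.sum_inv_sq (by positivity) (δ := 1 / (2 * (r : ℝ))) (by positivity)
    (fun a ha => hgap a (mem_Ico.1 ha).1 (mem_Ico.1 ha).2)
  have hsq' : ∑ l ∈ Ico 1 r, 1 / (nn (((r - l : ℕ) : ℝ) * α)) ^ 2
      = ∑ l ∈ Ico 1 r, 1 / (nn ((l : ℝ) * α)) ^ 2 := by
    have := Finset.sum_Ico_reflect (fun l : ℕ => 1 / (nn ((l : ℝ) * α)) ^ 2) 1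
      (m := r) (n := r) (by omega)
    simpa using this
  have h2F : 2 * ∑ l ∈ Ico 1 r, ct ((l : ℝ) * α)
      = ∑ l ∈ Ico 1 r, (ct ((l : ℝ) * α) + ct (((r - l : ℕ) : ℝ) * α)) := by
    rw [Finset.sum_add_distrib, hrefl]; ring
  have h2 : |2 * ∑ l ∈ Ico 1 r, ct ((l : ℝ) * α)| ≤ 24 * r := by
    rw [h2F]
    calc |∑ l ∈ Ico 1 r, (ct ((l : ℝ) * α) + ct (((r - l : ℕ) : ℝ) * α))|
        ≤ ∑ l ∈ Ico 1 r, |ct ((l : ℝ) * α) + ct (((r - l : ℕ) : ℝ) * α)| :=
          Finset.abs_sum_le_sum_abs _ _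
      _ ≤ ∑ l ∈ Ico 1 r, τ * (1 / 2 * (1 / (nn ((l : ℝ) * α)) ^ 2
            + 1 / (nn (((r - l : ℕ) : ℝ) * α)) ^ 2)) := Finset.sum_le_sum hpt
      _ = τ * ∑ l ∈ Ico 1 r, 1 / (nn ((l : ℝ) * α)) ^ 2 := by
          rw [← Finset.mul_sum, ← Finset.mul_sum, Finset.sum_add_distrib, hsq']; ring
      _ ≤ (1 / r) * (2 / (1 / (2 * (r : ℝ))) ^ 2 + 4 / (1 / (2 * (r : ℝ))) ^ 2) := by
          apply mul_le_mul hτr hsq _ (by positivity)
          apply Finset.sum_nonneg
          intro i _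
          positivity
      _ = 24 * r := by field_simp; ring
  rw [abs_mul, abs_of_pos (by norm_num : (0 : ℝ) < 2)] at h2
  linarith

end Pool.Agent.Lib.MP_1cdd17_nt
end

section
set_option autoImplicit false

/-! Uniform bound for the sums of cotangents over initial segments. -/

namespace Pool.Agent.Lib.MP_1cdd17_nt

open Real Finset

lemma sum_blocks (f : ℕ → ℝ) (r : ℕ) {b : ℕ} (hb : 1 ≤ b) :
    ∑ l ∈ Ico r (b * r), f l = ∑ k ∈ Ico 1 b, ∑ i ∈ range r, f (k * r + i) := by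
  induction b, hb using Nat.le_induction with
  | base => simp
  | succ b hb ih =>
    have h1 : r ≤ b * r := Nat.le_mul_of_pos_left r (by omega)
    have h2 : b * r ≤ (b + 1) * r := Nat.mul_le_mul_right r (Nat.le_succ b)
    have h3 : (b + 1) * r - b * r = r := by rw [Nat.add_mul, one_mul]; omega
    rw [← Finset.sum_Ico_consecutive f h1 h2, ih, Finset.sum_Ico_succ_top hb,
      Finset.sum_Ico_eq_sum_range f (b * r) ((b + 1) * r), h3]

/-- the last, incomplete block -/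
lemma last_block {α : ℝ} {r m₁ b : ℕ} (hr : 0 < r) (hm₁ : m₁ < r) {P : ℤ} {τ : ℝ}
    (hτ0 : 0 < τ) (hτ : |(r : ℝ) * α - P| ≤ τ) (hbτ : (b : ℝ) * τ ≤ 1 / r) (hrτ : r * τ ≤ 1)
    (hgap : ∀ i : ℕ, 1 ≤ i → i < r → 1 / (2 * (r : ℝ)) ≤ nn ((i : ℝ) * α))
    (hmin : ∀ i : ℕ, i < m₁ → τ ≤ nn (((b * r + i : ℕ) : ℝ) * α)) :
    |∑ i ∈ range m₁, ct (((b * r + i : ℕ) : ℝ) * α)|
      ≤ 22 / τ + |∑ l ∈ Ico 1 m₁, ct ((l : ℝ) * α)| := by
  have hr' : (0 : ℝ) < r := by exact_mod_cast hr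
  rcases Nat.eq_zero_or_pos m₁ with h0 | hpos
  · subst h0
    simp
    positivity
  have hsplit : ∑ i ∈ range m₁, ct (((b * r + i : ℕ) : ℝ) * α)
      = ct (((b * r + 0 : ℕ) : ℝ) * α) + ∑ i ∈ Ico 1 m₁, ct (((b * r + i : ℕ) : ℝ) * α) := by
    rw [Finset.range_eq_Ico, Finset.sum_eq_sum_Ico_succ_bot hpos]
  have hfirst : |ct (((b * r + 0 : ℕ) : ℝ) * α)| ≤ 1 / (2 * τ) := by
    have h1 := hmin 0 hpos
    refine (abs_ct_le (lt_of_lt_of_le hτ0 h1)).trans ?_
    apply one_div_le_one_div_of_le (by positivity)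
    linarith
  have hdiffsep : ∀ a b' : ℕ, a < m₁ → b' < a →
      1 / (2 * (r : ℝ)) ≤ nn (((a : ℝ) - b') * α) := by
    intro a b' ha hab
    have := hgap (a - b') (by omega) (by omega)
    rw [Nat.cast_sub hab.le] at this
    exact this
  have hsep1 : SepOn (Ico 1 m₁) (fun l : ℕ => (l : ℝ) * α) (1 / (2 * (r : ℝ))) := by
    intro a ha b' hb hab
    rw [mem_Ico] at ha hb
    simp only
    rw [← sub_mul]
    rcases lt_or_gt_of_ne hab with h | h
    · rw [← nn_neg, ← neg_mul, neg_sub]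
      exact hdiffsep _ _ hb.2 h
    · exact hdiffsep _ _ ha.2 h
  have hsep2 : SepOn (Ico 1 m₁) (fun i : ℕ => ((b * r + i : ℕ) : ℝ) * α) (1 / (2 * (r : ℝ))) := by
    intro a ha b' hb hab
    have h1 := hsep1 a ha b' hb hab
    have h2 : ((b * r + a : ℕ) : ℝ) * α - ((b * r + b' : ℕ) : ℝ) * α
        = (a : ℝ) * α - (b' : ℝ) * α := by push_cast; ring
    simp only
    rw [h2]
    exact h1
  have hsq1 := hsep1.sum_inv_sq (by positivity) (δ := 1 / (2 * (r : ℝ))) (by positivity)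
    (fun a ha => hgap a (mem_Ico.1 ha).1 ((mem_Ico.1 ha).2.trans hm₁))
  have hsq2 := hsep2.sum_inv_sq (by positivity) (δ := τ) hτ0
    (fun a ha => hmin a (mem_Ico.1 ha).2)
  have hpt : ∀ i ∈ Ico 1 m₁, |ct (((b * r + i : ℕ) : ℝ) * α) - ct ((i : ℝ) * α)|
      ≤ (1 / r) * (1 / 2 * ((1 / (r * τ)) * (1 / (nn ((i : ℝ) * α)) ^ 2)
        + (r * τ) * (1 / (nn (((b * r + i : ℕ) : ℝ) * α)) ^ 2))) := by
    intro i hi
    rw [mem_Ico] at hi
    have h1 := hgap i hi.1 (hi.2.trans hm₁)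
    have h2 := hmin i hi.2
    have hp1 : 0 < nn ((i : ℝ) * α) := lt_of_lt_of_le (by positivity) h1
    have hp2 : 0 < nn (((b * r + i : ℕ) : ℝ) * α) := lt_of_lt_of_le hτ0 h2
    refine (abs_ct_sub_le hp2 hp1).trans ?_
    have h6 : nn (((b * r + i : ℕ) : ℝ) * α - (i : ℝ) * α) ≤ 1 / r := by
      have h7 : ((b * r + i : ℕ) : ℝ) * α - (i : ℝ) * α - ((b * P : ℤ) : ℝ)
          = (b : ℝ) * ((r : ℝ) * α - P) := by push_cast; ring
      refine (nn_le_abs_sub _ (b * P)).trans ?_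
      rw [h7, abs_mul, abs_of_nonneg (Nat.cast_nonneg b)]
      exact (mul_le_mul_of_nonneg_left hτ (Nat.cast_nonneg b)).trans hbτ
    set a := nn ((i : ℝ) * α)
    set c := nn (((b * r + i : ℕ) : ℝ) * α)
    calc nn (((b * r + i : ℕ) : ℝ) * α - (i : ℝ) * α) / (c * a) ≤ (1 / r) / (c * a) :=
          div_le_div_of_nonneg_right h6 (by positivity)
      _ = (1 / r) * (1 / (c * a)) := by rw [div_eq_mul_one_div]
      _ ≤ _ := by
          apply mul_le_mul_of_nonneg_left _ (by positivity)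
          set t := (r : ℝ) * τ with ht
          have ht0 : 0 < t := by positivity
          have h8 : 1 / (c * a) ≤ 1 / 2 * ((1 / t) * (1 / a ^ 2) + t * (1 / c ^ 2)) := by
            rw [show 1 / 2 * ((1 / t) * (1 / a ^ 2) + t * (1 / c ^ 2))
              = (c ^ 2 + t ^ 2 * a ^ 2) / (2 * t * a ^ 2 * c ^ 2) by field_simp]
            rw [div_le_div_iff₀ (by positivity) (by positivity)]
            have h9 : 0 ≤ (c - t * a) ^ 2 * (c * a) := by positivity
            nlinarith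
          exact h8
  have hsum : |∑ i ∈ Ico 1 m₁, (ct (((b * r + i : ℕ) : ℝ) * α) - ct ((i : ℝ) * α))| ≤ 21 / τ := by
    calc _ ≤ ∑ i ∈ Ico 1 m₁, |ct (((b * r + i : ℕ) : ℝ) * α) - ct ((i : ℝ) * α)| :=
          Finset.abs_sum_le_sum_abs _ _
      _ ≤ _ := Finset.sum_le_sum hpt
      _ = (1 / r) * (1 / 2 * ((1 / (r * τ)) * ∑ i ∈ Ico 1 m₁, (1 / (nn ((i : ℝ) * α)) ^ 2)
        + (r * τ) * ∑ i ∈ Ico 1 m₁, (1 / (nn (((b * r + i : ℕ) : ℝ) * α)) ^ 2))) := by
          rw [← Finset.mul_sum, ← Finset.mul_sum, Finset.sum_add_distrib, ← Finset.mul_sum,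
            ← Finset.mul_sum]
      _ ≤ (1 / r) * (1 / 2 * ((1 / (r * τ)) * (2 / (1 / (2 * (r : ℝ))) ^ 2
            + 4 / (1 / (2 * (r : ℝ))) ^ 2)
            + (r * τ) * (2 / τ ^ 2 + 4 / (1 / (2 * (r : ℝ))) ^ 2))) := by
          gcongr
      _ = 13 / τ + 8 * (r * τ) ^ 2 / τ := by field_simp; ring
      _ ≤ 13 / τ + 8 * 1 / τ := by
          have : ((r : ℝ) * τ) ^ 2 ≤ 1 := pow_le_one₀ (by positivity) hrτ
          gcongr
      _ = 21 / τ := by ring
  rw [hsplit]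
  have h10 : ∑ i ∈ Ico 1 m₁, ct (((b * r + i : ℕ) : ℝ) * α)
      = ∑ i ∈ Ico 1 m₁, (ct (((b * r + i : ℕ) : ℝ) * α) - ct ((i : ℝ) * α))
        + ∑ i ∈ Ico 1 m₁, ct ((i : ℝ) * α) := by
    rw [Finset.sum_sub_distrib]; ring
  rw [h10]
  have h11 : 1 / (2 * τ) + 21 / τ ≤ 22 / τ := by
    have : 1 / (2 * τ) = (1 / 2) / τ := by field_simp
    rw [this, ← add_div]
    exact div_le_div_of_nonneg_right (by norm_num) hτ0.le
  calc _ ≤ |ct (((b * r + 0 : ℕ) : ℝ) * α)|
        + |∑ i ∈ Ico 1 m₁, (ct (((b * r + i : ℕ) : ℝ) * α) - ct ((i : ℝ) * α))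
        + ∑ i ∈ Ico 1 m₁, ct ((i : ℝ) * α)| := abs_add_le _ _
    _ ≤ 1 / (2 * τ) + (21 / τ + |∑ i ∈ Ico 1 m₁, ct ((i : ℝ) * α)|) := by
        apply add_le_add hfirst
        refine (abs_add_le _ _).trans ?_
        linarith
    _ ≤ _ := by linarith

/-- Uniform bound for the initial sums of cotangents. -/
theorem cot_sum_bound {α : ℝ} (hirr : Irrational α) {κ : ℝ} (hκ0 : 0 < κ) (hκ1 : κ ≤ 1) {q : ℕ}
    (hlow : ∀ m : ℕ, 1 ≤ m → m < q → κ ≤ (m : ℝ) * nn ((m : ℝ) * α)) :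
    ∀ m : ℕ, m ≤ q → ∀ σ : ℝ, 0 < σ → (∀ l : ℕ, 1 ≤ l → l < m → σ ≤ nn ((l : ℝ) * α)) →
      |∑ l ∈ Ico 1 m, ct ((l : ℝ) * α)| ≤ 106 * (1 + log (1 / κ)) * (1 / σ + 4 * m) := by
  have hΛ : 1 ≤ 1 + log (1 / κ) := by
    have : 0 ≤ log (1 / κ) := Real.log_nonneg (by rw [le_div_iff₀ hκ0]; linarith)
    linarith
  set Λ := 1 + log (1 / κ) with hΛdef
  intro m
  induction m using Nat.strong_induction_on with
  | _ m ih =>
  intro hmq σ hσ hσm
  rcases Nat.lt_or_ge m 2 with hm | hm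
  · have : Ico 1 m = ∅ := Finset.Ico_eq_empty (by omega)
    rw [this, Finset.sum_empty, abs_zero]
    positivity
  -- the minimiser
  obtain ⟨r, hrmem, hrmin⟩ := Finset.exists_min_image (Ico 1 m) (fun l : ℕ => nn ((l : ℝ) * α))
    ⟨1, by rw [mem_Ico]; omega⟩
  rw [mem_Ico] at hrmem
  obtain ⟨hr1, hrm⟩ := hrmem
  set P := round ((r : ℝ) * α) with hP
  set τ := nn ((r : ℝ) * α) with hτdef
  have hτ : |(r : ℝ) * α - P| = τ := rfl
  have hτpos : 0 < τ := nn_pos_of_irr hirr hr1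
  have hr' : (0 : ℝ) < r := by exact_mod_cast hr1
  have hm' : (0 : ℝ) < m := by exact_mod_cast (by omega : 0 < m)
  have hrm' : (r : ℝ) ≤ m := by exact_mod_cast hrm.le
  have hmin : ∀ l : ℕ, 1 ≤ l → l < m → τ ≤ nn ((l : ℝ) * α) := fun l h1 h2 =>
    hrmin l (mem_Ico.2 ⟨h1, h2⟩)
  have hτm : τ ≤ 1 / m := by
    obtain ⟨k, hk0, hkm, hk⟩ := Real.exists_nat_abs_mul_sub_round_le α (n := m - 1) (by omega)
    have h1 := hmin k hk0 (by omega)
    have h2 : ((m - 1 : ℕ) : ℝ) + 1 = m := by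
      rw [Nat.cast_sub (by omega)]; push_cast; ring
    rw [h2] at hk
    exact h1.trans hk
  have hcop : IsCoprime P (r : ℤ) := coprime_of_min hirr hr1 (fun i hi hir => by
    rw [hτ]; exact hmin i hi (hir.trans hrm))
  have hgap : ∀ i : ℕ, 1 ≤ i → i < r → 1 / (2 * (r : ℝ)) ≤ nn ((i : ℝ) * α) := by
    intro i h1 h2
    have h3 := gap hr1 hcop α h1 h2
    have h4 := hmin i h1 (h2.trans hrm)
    rw [hτ] at h3
    have h5 : 1 / (2 * (r : ℝ)) = (1 / (r : ℝ)) / 2 := by ring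
    rw [h5]
    linarith
  set b := m / r with hb
  set m₁ := m % r with hm₁
  have hdiv : b * r + m₁ = m := Nat.div_add_mod' m r
  have hm₁r : m₁ < r := Nat.mod_lt _ hr1
  have hb1 : 1 ≤ b := (Nat.one_le_div_iff hr1).2 hrm.le
  have hbr : (b : ℝ) * r ≤ m := by
    have : b * r ≤ m := by omega
    exact_mod_cast this
  have hτr : τ ≤ 1 / r := hτm.trans (one_div_le_one_div_of_le hr' hrm')
  have hrτ : (r : ℝ) * τ ≤ 1 := by
    rw [le_div_iff₀ hr'] at hτr
    linarith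
  have hbτ : (b : ℝ) * τ ≤ 1 / r := by
    calc (b : ℝ) * τ ≤ b * (1 / m) := mul_le_mul_of_nonneg_left hτm (Nat.cast_nonneg b)
      _ = b / m := by ring
      _ ≤ 1 / r := by
          rw [div_le_div_iff₀ hm' hr']
          linarith
  have hbκ : (b : ℝ) ≤ 1 / κ := by
    have h1 := hlow r hr1 (by omega)
    have h2 : κ ≤ r / m := by
      calc κ ≤ r * τ := h1
        _ ≤ r * (1 / m) := mul_le_mul_of_nonneg_left hτm hr'.le
        _ = r / m := by ring
    rw [le_div_iff₀ hκ0]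
    calc (b : ℝ) * κ ≤ b * (r / m) := mul_le_mul_of_nonneg_left h2 (Nat.cast_nonneg b)
      _ = (b * r) / m := by ring
      _ ≤ 1 := by rw [div_le_one hm']; exact hbr
  have hlogb : log (b : ℝ) ≤ log (1 / κ) := by
    apply Real.log_le_log _ hbκ
    exact_mod_cast hb1
  -- decomposition
  have hdecomp : ∑ l ∈ Ico 1 m, ct ((l : ℝ) * α)
      = ∑ l ∈ Ico 1 r, ct ((l : ℝ) * α)
        + (∑ k ∈ Ico 1 b, ∑ i ∈ range r, ct (((k * r + i : ℕ) : ℝ) * α)
        + ∑ i ∈ range m₁, ct (((b * r + i : ℕ) : ℝ) * α)) := by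
    rw [← Finset.sum_Ico_consecutive _ hr1 hrm.le]
    congr 1
    have h1 : r ≤ b * r := Nat.le_mul_of_pos_left r hb1
    have h2 : b * r ≤ m := by omega
    rw [← Finset.sum_Ico_consecutive _ h1 h2, sum_blocks (fun l : ℕ => ct ((l : ℝ) * α)) r hb1,
      Finset.sum_Ico_eq_sum_range (fun l : ℕ => ct ((l : ℝ) * α)) (b * r) m]
    have h3 : m - b * r = m₁ := by omega
    rw [h3]
  have hA := first_block hr1 (τ := τ) hτ.le hτr hgap
  have hC := last_block (b := b) hr1 hm₁r hτpos hτ.le hbτ hrτ hgap (by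
    intro i hi
    apply hmin
    · have : r ≤ b * r := Nat.le_mul_of_pos_left r hb1
      omega
    · omega)
  have hB : |∑ k ∈ Ico 1 b, ∑ i ∈ range r, ct (((k * r + i : ℕ) : ℝ) * α)|
      ≤ 36 * m + (84 * Λ) / τ := by
    have hex : ∀ k : ℕ, ∃ i ∈ range r, ∀ j ∈ range r,
        nn (((k * r + i : ℕ) : ℝ) * α) ≤ nn (((k * r + j : ℕ) : ℝ) * α) := by
      intro k
      exact Finset.exists_min_image (range r) (fun i : ℕ => nn (((k * r + i : ℕ) : ℝ) * α))
        ⟨0, mem_range.2 hr1⟩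
    choose g hg1 hg2 using hex
    have hlk : ∀ k ∈ Ico 1 b, 1 ≤ k * r + g k ∧ k * r + g k < m := by
      intro k hk
      rw [mem_Ico] at hk
      have h1 := mem_range.1 (hg1 k)
      have h2 : r ≤ k * r := Nat.le_mul_of_pos_left r hk.1
      have h3 : (k + 1) * r ≤ b * r := Nat.mul_le_mul_right r hk.2
      have h4 : (k + 1) * r = k * r + r := by ring
      omega
    have hblock : ∀ k ∈ Ico 1 b, |∑ i ∈ range r, ct (((k * r + i : ℕ) : ℝ) * α)|
        ≤ 36 * r + 21 * (1 / nn (((k * r + g k : ℕ) : ℝ) * α)) := by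
      intro k hk
      have h1 := hlk k hk
      have h2 : 0 < nn (((k * r + g k : ℕ) : ℝ) * α) :=
        lt_of_lt_of_le hτpos (hmin _ h1.1 h1.2)
      have hcast : ∀ i : ℕ, ((k * r + i : ℕ) : ℝ) * α = (k * r : ℕ) * α + (i : ℝ) * α := by
        intro i; push_cast; ring
      have h3 := block_bound hr1 hcop (α := α) (θ := ((k * r : ℕ) : ℝ) * α)
        (δ := nn (((k * r + g k : ℕ) : ℝ) * α)) (by rw [hτ]; exact hτr) h2 (by
          intro i hi
          rw [← hcast i]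
          exact hg2 k i hi)
      simp only [hcast] at h3 ⊢
      calc _ ≤ _ := h3
        _ = _ := by ring
    have hsep : SepOn (Ico 1 b) (fun k : ℕ => ((k * r + g k : ℕ) : ℝ) * α) τ := by
      have key : ∀ k ∈ Ico 1 b, ∀ k' ∈ Ico 1 b, k' < k →
          τ ≤ nn (((k * r + g k : ℕ) : ℝ) * α - ((k' * r + g k' : ℕ) : ℝ) * α) := by
        intro k hk k' hk' hlt
        have h1 := hlk k hk
        have h2 := hlk k' hk'
        have h3 := mem_range.1 (hg1 k')
        have h4 : (k' + 1) * r ≤ k * r := Nat.mul_le_mul_right r hlt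
        have h5 : (k' + 1) * r = k' * r + r := by ring
        have h6 := hmin ((k * r + g k) - (k' * r + g k')) (by omega) (by omega)
        rw [Nat.cast_sub (by omega), sub_mul] at h6
        exact h6
      intro k hk k' hk' hne
      rcases lt_or_gt_of_ne hne with h | h
      · rw [← nn_neg, neg_sub]
        exact key k' hk' k hk h
      · exact key k hk k' hk' h
    have hinv := hsep.sum_inv hτpos hτpos (fun k hk => hmin _ (hlk k hk).1 (hlk k hk).2) b
      (by rw [Nat.card_Ico]; omega)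
    calc |∑ k ∈ Ico 1 b, ∑ i ∈ range r, ct (((k * r + i : ℕ) : ℝ) * α)|
        ≤ ∑ k ∈ Ico 1 b, |∑ i ∈ range r, ct (((k * r + i : ℕ) : ℝ) * α)| :=
          Finset.abs_sum_le_sum_abs _ _
      _ ≤ ∑ k ∈ Ico 1 b, (36 * (r : ℝ) + 21 * (1 / nn (((k * r + g k : ℕ) : ℝ) * α))) :=
          Finset.sum_le_sum hblock
      _ = (b - 1 : ℕ) * (36 * (r : ℝ))
          + 21 * ∑ k ∈ Ico 1 b, (1 / nn (((k * r + g k : ℕ) : ℝ) * α)) := by
          rw [Finset.sum_add_distrib, Finset.sum_const, Nat.card_Ico, nsmul_eq_mul,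
            Finset.mul_sum]
      _ ≤ 36 * m + 21 * (2 / τ + 2 * (1 + log b) / τ) := by
          apply add_le_add
          · rw [Nat.cast_sub hb1]
            push_cast
            nlinarith
          · linarith
      _ ≤ 36 * m + 21 * (2 * Λ / τ + 2 * Λ / τ) := by
          have h1 : 2 / τ ≤ 2 * Λ / τ := div_le_div_of_nonneg_right (by linarith) hτpos.le
          have h2 : 2 * (1 + log b) / τ ≤ 2 * Λ / τ := by
            apply div_le_div_of_nonneg_right _ hτpos.le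
            rw [hΛdef]; linarith
          linarith
      _ = 36 * m + (84 * Λ) / τ := by ring
  have hIH : |∑ l ∈ Ico 1 m₁, ct ((l : ℝ) * α)| ≤ 106 * Λ * (3 * m) := by
    have h1 := ih m₁ (by omega) (by omega) (1 / (2 * (r : ℝ))) (by positivity)
      (fun l h1 h2 => hgap l h1 (by omega))
    have h2 : 1 / (1 / (2 * (r : ℝ))) + 4 * (m₁ : ℝ) ≤ 3 * m := by
      rw [one_div_one_div]
      have h3 : (r : ℝ) + m₁ ≤ m := by
        have : r + m₁ ≤ m := by
          have : r ≤ b * r := Nat.le_mul_of_pos_left r hb1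
          omega
        exact_mod_cast this
      have h4 : (m₁ : ℝ) ≤ r := by exact_mod_cast hm₁r.le
      linarith
    calc _ ≤ _ := h1
      _ ≤ _ := mul_le_mul_of_nonneg_left h2 (by positivity)
  have hτσ : 1 / τ ≤ 1 / σ := one_div_le_one_div_of_le hσ (hσm r hr1 hrm)
  rw [hdecomp]
  calc _ ≤ |∑ l ∈ Ico 1 r, ct ((l : ℝ) * α)|
        + (|∑ k ∈ Ico 1 b, ∑ i ∈ range r, ct (((k * r + i : ℕ) : ℝ) * α)|
        + |∑ i ∈ range m₁, ct (((b * r + i : ℕ) : ℝ) * α)|) :=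
        (abs_add_le _ _).trans (add_le_add le_rfl (abs_add_le _ _))
    _ ≤ 12 * r + ((36 * m + (84 * Λ) / τ) + (22 / τ + 106 * Λ * (3 * m))) := by
        linarith
    _ ≤ 48 * Λ * m + 106 * Λ * (1 / τ) + 106 * Λ * (3 * m) := by
        have h1 : 12 * (r : ℝ) + 36 * m ≤ 48 * Λ * m := by nlinarith
        have h2 : (84 * Λ) / τ + 22 / τ ≤ 106 * Λ * (1 / τ) := by
          rw [← add_div, mul_one_div]
          apply div_le_div_of_nonneg_right _ hτpos.le
          linarith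
        linarith
    _ ≤ 106 * Λ * (1 / σ + 4 * m) := by
        have h1 : 106 * Λ * (1 / τ) ≤ 106 * Λ * (1 / σ) :=
          mul_le_mul_of_nonneg_left hτσ (by positivity)
        nlinarith

end Pool.Agent.Lib.MP_1cdd17_nt
end

section
set_option autoImplicit false

/-! Averaging with Fejer weights. -/

namespace Pool.Agent.Lib.MP_1cdd17_nt

open Real Finset

/-- The geometric sum. -/
noncomputable def Dir (γ : ℝ) (K : ℕ) : ℂ := ∑ u ∈ range K, ee (u * γ)

lemma norm_Dir_le (γ : ℝ) (K : ℕ) : ‖Dir γ K‖ ≤ K := norm_geom_sum_le_card γ K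

lemma norm_Dir_sq_le (γ : ℝ) (K : ℕ) : ‖Dir γ K‖ ^ 2 ≤ (K : ℝ) ^ 2 :=
  pow_le_pow_left₀ (norm_nonneg _) (norm_Dir_le γ K) 2

lemma norm_Dir_sq_le' {γ : ℝ} (h : 0 < nn γ) (K : ℕ) :
    ‖Dir γ K‖ ^ 2 ≤ 1 / (4 * (nn γ) ^ 2) := by
  calc ‖Dir γ K‖ ^ 2 ≤ (1 / (2 * nn γ)) ^ 2 :=
        pow_le_pow_left₀ (norm_nonneg _) (norm_geom_sum_le h K) 2
    _ = _ := by rw [div_pow, one_pow]; congr 1; ring

/-- lower bound for the Dirichlet kernel near zero -/
lemma half_le_norm_Dir {x : ℝ} {L : ℕ} (h : (L : ℝ) * nn x ≤ 1 / 2) :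
    (L : ℝ) / 2 ≤ ‖Dir x L‖ := by
  set y := x - round x with hy
  have hxy : Dir x L = Dir y L := by
    unfold Dir
    apply Finset.sum_congr rfl
    intro u _
    have : (u : ℝ) * x = (u : ℝ) * y + ((u * round x : ℤ) : ℝ) := by
      rw [hy]; push_cast; ring
    rw [this, ee_add_int]
  have hny : nn x = |y| := rfl
  rw [hxy]
  rw [hny] at h
  rcases eq_or_ne y 0 with hy0 | hy0
  · rw [hy0]
    simp only [Dir, mul_zero, ee_zero, Finset.sum_const, card_range, nsmul_eq_mul, mul_one]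
    rw [Complex.norm_natCast]
    have : (0 : ℝ) ≤ L := Nat.cast_nonneg L
    linarith
  · rcases Nat.eq_zero_or_pos L with hL | hL
    · subst hL; simp [Dir]
    have hL' : (1 : ℝ) ≤ L := by exact_mod_cast hL
    have hypos : 0 < |y| := abs_pos.2 hy0
    have hy2 : |y| ≤ 1 / 2 := by nlinarith
    have hnny : nn y = |y| := nn_of_abs_le hy2
    have h1 : ee y ≠ 1 := by
      intro h0
      have := norm_ee_sub_one y
      rw [h0, sub_self, norm_zero] at this
      have h2 := two_nn_le_abs_sin y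
      rw [hnny] at h2
      linarith
    have hLy : nn ((L : ℝ) * y) = L * |y| := by
      rw [nn_of_abs_le, abs_mul, abs_of_pos (by linarith : (0 : ℝ) < L)]
      rw [abs_mul, abs_of_pos (by linarith : (0 : ℝ) < L)]
      exact h
    unfold Dir
    simp only [ee_nat_mul]
    rw [geom_sum_eq h1, norm_div, ← ee_nat_mul, norm_ee_sub_one, norm_ee_sub_one]
    have h2 := two_nn_le_abs_sin ((L : ℝ) * y)
    rw [hLy] at h2
    have h3 := abs_sin_le_pi_nn y
    rw [hnny] at h3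
    have h4 : 0 < |sin (π * y)| := by
      have := two_nn_le_abs_sin y
      rw [hnny] at this
      linarith
    rw [div_le_div_iff₀ (by norm_num) (by linarith)]
    have h5 : π ≤ 4 := by linarith [pi_lt_four]
    have h6 : |sin (π * y)| ≤ 4 * |y| := h3.trans (mul_le_mul_of_nonneg_right h5 hypos.le)
    calc (L : ℝ) * (2 * |sin (π * y)|) ≤ L * (2 * (4 * |y|)) := by gcongr
      _ = 2 * (2 * (L * |y|)) * 2 := by ring
      _ ≤ 2 * |sin (π * (L * y))| * 2 := by gcongr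

/-- the averaging inequality -/
lemma sum_le_avg (Φ : ℤ → ℝ) (hΦ : ∀ i, 0 ≤ Φ i) {q : ℕ} (hq : 0 < q) {i₀ i₁ : ℤ}
    (hi : i₁ < i₀ + q) :
    ∑ i ∈ Icc i₀ i₁, Φ i
      ≤ (1 / (q : ℝ)) * ∑ x ∈ range (2 * q), ∑ y ∈ range (2 * q), Φ (i₀ + x - y) := by
  have hq' : (0 : ℝ) < q := by exact_mod_cast hq
  have h1 : ∑ i ∈ Icc i₀ i₁, Φ i ≤ ∑ d ∈ range q, Φ (i₀ + d) := by
    have h2 : ∑ d ∈ range q, Φ (i₀ + d) = ∑ i ∈ (range q).image (fun d : ℕ => i₀ + (d : ℤ)), Φ i := by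
      rw [Finset.sum_image]
      intro a _ b _ hab
      simpa using hab
    rw [h2]
    apply Finset.sum_le_sum_of_subset_of_nonneg
    · intro i hi'
      rw [mem_Icc] at hi'
      rw [mem_image]
      refine ⟨(i - i₀).toNat, ?_, ?_⟩
      · rw [mem_range]; omega
      · rw [Int.toNat_of_nonneg (by omega)]; ring
    · intro i _ _; exact hΦ i
  have h2 : ∀ y ∈ range q, ∑ d ∈ range q, Φ (i₀ + d) ≤ ∑ x ∈ range (2 * q), Φ (i₀ + x - y) := by
    intro y hy
    rw [mem_range] at hy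
    have h3 : ∑ d ∈ range q, Φ (i₀ + d) = ∑ x ∈ (range q).image (fun d => d + y), Φ (i₀ + x - y) := by
      rw [Finset.sum_image (by intro a _ b _ hab; simpa using hab)]
      apply Finset.sum_congr rfl
      intro d _
      congr 1
      push_cast
      ring
    rw [h3]
    apply Finset.sum_le_sum_of_subset_of_nonneg
    · intro x hx
      rw [mem_image] at hx
      obtain ⟨d, hd, rfl⟩ := hx
      rw [mem_range] at *
      omega
    · intro i _ _; exact hΦ _
  have h3 : (q : ℝ) * ∑ d ∈ range q, Φ (i₀ + d)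
      ≤ ∑ x ∈ range (2 * q), ∑ y ∈ range (2 * q), Φ (i₀ + x - y) := by
    rw [Finset.sum_comm]
    calc (q : ℝ) * ∑ d ∈ range q, Φ (i₀ + d) = ∑ y ∈ range q, ∑ d ∈ range q, Φ (i₀ + d) := by
          rw [Finset.sum_const, card_range, nsmul_eq_mul]
      _ ≤ ∑ y ∈ range q, ∑ x ∈ range (2 * q), Φ (i₀ + x - y) := Finset.sum_le_sum h2
      _ ≤ _ := by
          apply Finset.sum_le_sum_of_subset_of_nonneg
          · apply Finset.range_subset_range.2; omega
          · intro i _ _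
            exact Finset.sum_nonneg (fun _ _ => hΦ _)
  rw [one_div, inv_mul_eq_div, le_div_iff₀ hq']
  calc (∑ i ∈ Icc i₀ i₁, Φ i) * q ≤ (∑ d ∈ range q, Φ (i₀ + d)) * q :=
        mul_le_mul_of_nonneg_right h1 hq'.le
    _ = q * ∑ d ∈ range q, Φ (i₀ + d) := mul_comm _ _
    _ ≤ _ := h3

/-- expansion of the mean square of a sum of phases -/
lemma avg_expand {A : Type*} (S : Finset A) (φ : A → ℤ → ℝ) (γ : A → A → ℝ)
    (hφ : ∀ a ∈ S, ∀ b ∈ S, ∃ k : ℝ, ∀ i : ℤ, ee (φ a i - φ b i) = ee (k + i * γ a b))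
    (i₀ : ℤ) (K : ℕ) :
    ∑ x ∈ range K, ∑ y ∈ range K, ‖∑ a ∈ S, ee (φ a (i₀ + x - y))‖ ^ 2
      ≤ ∑ a ∈ S, ∑ b ∈ S, ‖Dir (γ a b) K‖ ^ 2 := by
  have h1 : ∀ i : ℤ, ((‖∑ a ∈ S, ee (φ a i)‖ ^ 2 : ℝ) : ℂ) = ∑ a ∈ S, ∑ b ∈ S, ee (φ a i - φ b i) := by
    intro i
    rw [Complex.ofReal_pow, ← Complex.mul_conj', map_sum, Finset.sum_mul_sum]
    apply Finset.sum_congr rfl
    intro a _
    apply Finset.sum_congr rfl
    intro b _
    rw [conj_ee, ← ee_add]
    rfl
  have h2 : ((∑ x ∈ range K, ∑ y ∈ range K, ‖∑ a ∈ S, ee (φ a (i₀ + x - y))‖ ^ 2 : ℝ) : ℂ)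
      = ∑ a ∈ S, ∑ b ∈ S, ∑ x ∈ range K, ∑ y ∈ range K,
          ee (φ a (i₀ + x - y) - φ b (i₀ + x - y)) := by
    push_cast
    have h3 : ∀ x y : ℕ, ((‖∑ a ∈ S, ee (φ a (i₀ + x - y))‖ : ℂ)) ^ 2
        = ∑ a ∈ S, ∑ b ∈ S, ee (φ a (i₀ + x - y) - φ b (i₀ + x - y)) := by
      intro x y
      rw [← h1]; push_cast; rfl
    simp only [h3]
    rw [Finset.sum_congr rfl (fun x _ => Finset.sum_comm), Finset.sum_comm]
    apply Finset.sum_congr rfl
    intro a _
    rw [Finset.sum_congr rfl (fun x _ => Finset.sum_comm), Finset.sum_comm]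
  have h4 : ∀ a ∈ S, ∀ b ∈ S, ‖∑ x ∈ range K, ∑ y ∈ range K,
      ee (φ a (i₀ + x - y) - φ b (i₀ + x - y))‖ = ‖Dir (γ a b) K‖ ^ 2 := by
    intro a ha b hb
    obtain ⟨k, hk⟩ := hφ a ha b hb
    simp only [hk]
    have h5 : ∀ x y : ℕ, ee (k + ((i₀ + x - y : ℤ) : ℝ) * γ a b)
        = ee (k + i₀ * γ a b) * (ee (x * γ a b) * (starRingEnd ℂ) (ee (y * γ a b))) := by
      intro x y
      rw [conj_ee, ← ee_add, ← ee_add]
      congr 1
      push_cast
      ring
    simp only [h5]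
    simp only [← Finset.mul_sum]
    rw [← Finset.sum_mul, ← map_sum, norm_mul, norm_ee, one_mul, norm_mul, RCLike.norm_conj]
    unfold Dir
    ring
  have h5 : (0 : ℝ) ≤ ∑ x ∈ range K, ∑ y ∈ range K, ‖∑ a ∈ S, ee (φ a (i₀ + x - y))‖ ^ 2 :=
    Finset.sum_nonneg (fun _ _ => Finset.sum_nonneg (fun _ _ => by positivity))
  calc ∑ x ∈ range K, ∑ y ∈ range K, ‖∑ a ∈ S, ee (φ a (i₀ + x - y))‖ ^ 2
      = ‖((∑ x ∈ range K, ∑ y ∈ range K, ‖∑ a ∈ S, ee (φ a (i₀ + x - y))‖ ^ 2 : ℝ) : ℂ)‖ := by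
        rw [Complex.norm_real, Real.norm_of_nonneg h5]
    _ ≤ ∑ a ∈ S, ∑ b ∈ S, ‖∑ x ∈ range K, ∑ y ∈ range K,
          ee (φ a (i₀ + x - y) - φ b (i₀ + x - y))‖ := by
        rw [h2]
        refine (norm_sum_le _ _).trans (Finset.sum_le_sum fun a _ => norm_sum_le _ _)
    _ = _ := by
        apply Finset.sum_congr rfl
        intro a ha
        apply Finset.sum_congr rfl
        intro b hb
        exact h4 a ha b hb

end Pool.Agent.Lib.MP_1cdd17_nt
end

section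
set_option autoImplicit false

/-! The product `hh` of shifted sine quotients: uniform bound and slow variation. -/

namespace Pool.Agent.Lib.MP_1cdd17_nt

open Real Finset

/-- `rho ε x = sin (π (x - ε)) / sin (π x)` -/
noncomputable def rho (ε x : ℝ) : ℝ := cos (π * ε) - sin (π * ε) * ct x

lemma rho_eq {x : ℝ} (ε : ℝ) (h : 0 < nn x) :
    rho ε x = sin (π * (x - ε)) / sin (π * x) := by
  have h1 := sin_ne_zero_of_nn h
  unfold rho ct
  rw [mul_sub, sin_sub]
  field_simp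

lemma rho_mul_inv {x ε : ℝ} (h : 0 < nn x) (h' : 0 < nn (x - ε)) :
    rho ε x * (cos (π * ε) + sin (π * ε) * ct (x - ε)) = 1 := by
  have h1 := sin_ne_zero_of_nn h
  have h2 := sin_ne_zero_of_nn h'
  have h3 : cos (π * ε) + sin (π * ε) * ct (x - ε) = sin (π * x) / sin (π * (x - ε)) := by
    rw [eq_div_iff h2]
    unfold ct
    have h4 : sin (π * x) = sin (π * ε + π * (x - ε)) := by congr 1; ring
    rw [h4, sin_add]
    field_simp
    ring
  rw [rho_eq ε h, h3]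
  field_simp

lemma rho_pos {x ε : ℝ} (h : |ε| < nn x) : 0 < rho ε x := by
  have h0 : 0 < nn x := (abs_nonneg _).trans_lt h
  rw [rho_eq ε h0]
  set n := round x with hn
  set y := x - n with hy
  have hyabs : nn x = |y| := rfl
  have hyhalf : |y| ≤ 1 / 2 := abs_sub_round x
  have e1 : sin (π * x) = (-1) ^ n * sin (π * y) := by
    have : π * x = π * y + n * π := by rw [hy]; ring
    rw [this, Real.sin_add_int_mul_pi]
  have e2 : sin (π * (x - ε)) = (-1) ^ n * sin (π * (y - ε)) := by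
    have : π * (x - ε) = π * (y - ε) + n * π := by rw [hy]; ring
    rw [this, Real.sin_add_int_mul_pi]
  have hne : ((-1 : ℝ) ^ n) ≠ 0 := zpow_ne_zero _ (by norm_num)
  rw [e1, e2, mul_div_mul_left _ _ hne]
  rw [hyabs] at h
  obtain ⟨hε1, hε2⟩ := abs_lt.1 h
  rcases le_total 0 y with hy0 | hy0
  · rw [abs_of_nonneg hy0] at *
    have hypos : 0 < y := (abs_nonneg _).trans_lt h
    apply div_pos
    · apply sin_pos_of_pos_of_lt_pi
      · apply mul_pos pi_pos; linarith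
      · nlinarith [pi_pos]
    · apply sin_pos_of_pos_of_lt_pi
      · positivity
      · nlinarith [pi_pos]
  · rw [abs_of_nonpos hy0] at *
    have hyneg : y < 0 := by
      have := (abs_nonneg ε).trans_lt h
      linarith
    apply div_pos_of_neg_of_neg
    · apply sin_neg_of_neg_of_neg_pi_lt
      · nlinarith [pi_pos]
      · nlinarith [pi_pos]
    · apply sin_neg_of_neg_of_neg_pi_lt
      · nlinarith [pi_pos]
      · nlinarith [pi_pos]

lemma rho_le_exp (ε x : ℝ) : rho ε x ≤ exp (-(sin (π * ε) * ct x)) := by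
  have h1 := Real.add_one_le_exp (-(sin (π * ε) * ct x))
  have h2 := Real.cos_le_one (π * ε)
  unfold rho
  linarith

lemma exp_le_rho {x ε : ℝ} (h : |ε| < nn x) (h' : 0 < nn (x - ε)) :
    exp (-(sin (π * ε) * ct (x - ε))) ≤ rho ε x := by
  have h0 : 0 < nn x := (abs_nonneg _).trans_lt h
  have h1 := rho_mul_inv h0 h'
  have h2 := rho_pos h
  have h3 := Real.add_one_le_exp (sin (π * ε) * ct (x - ε))
  have h4 := Real.cos_le_one (π * ε)
  have h5 : cos (π * ε) + sin (π * ε) * ct (x - ε) ≤ exp (sin (π * ε) * ct (x - ε)) := by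
    linarith
  rw [exp_neg]
  rw [inv_le_iff_one_le_mul₀ (exp_pos _)]
  calc (1 : ℝ) = rho ε x * (cos (π * ε) + sin (π * ε) * ct (x - ε)) := h1.symm
    _ ≤ rho ε x * exp (sin (π * ε) * ct (x - ε)) := mul_le_mul_of_nonneg_left h5 h2.le

/-- the product -/
noncomputable def hh (α ε : ℝ) (m : ℕ) : ℝ := ∏ l ∈ Ico 1 m, rho ε ((l : ℝ) * α)

lemma abs_sin_pi_le (ε : ℝ) : |sin (π * ε)| ≤ π * |ε| := by
  refine (abs_sin_le_abs).trans ?_
  rw [abs_mul, abs_of_pos pi_pos]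

lemma hh_pos {α ε : ℝ} {m : ℕ} (h : ∀ l : ℕ, 1 ≤ l → l < m → |ε| < nn ((l : ℝ) * α)) :
    0 < hh α ε m := by
  apply Finset.prod_pos
  intro l hl
  rw [mem_Ico] at hl
  exact rho_pos (h l hl.1 hl.2)

lemma hh_le {α ε : ℝ} {m : ℕ} (h : ∀ l : ℕ, 1 ≤ l → l < m → |ε| < nn ((l : ℝ) * α)) :
    hh α ε m ≤ exp (π * |ε| * |∑ l ∈ Ico 1 m, ct ((l : ℝ) * α)|) := by
  calc hh α ε m ≤ ∏ l ∈ Ico 1 m, exp (-(sin (π * ε) * ct ((l : ℝ) * α))) := by
        apply Finset.prod_le_prod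
        · intro l hl
          rw [mem_Ico] at hl
          exact (rho_pos (h l hl.1 hl.2)).le
        · intro l _
          exact rho_le_exp _ _
    _ = exp (-(sin (π * ε) * ∑ l ∈ Ico 1 m, ct ((l : ℝ) * α))) := by
        rw [← Real.exp_sum]
        congr 1
        rw [Finset.sum_neg_distrib, Finset.mul_sum]
    _ ≤ _ := by
        apply exp_le_exp.2
        refine (neg_le_abs _).trans ?_
        rw [abs_mul]
        exact mul_le_mul_of_nonneg_right (abs_sin_pi_le ε) (abs_nonneg _)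

lemma sum_blocks' (f : ℕ → ℝ) (r m b : ℕ) :
    ∑ l ∈ Ico m (m + b * r), f l = ∑ k ∈ range b, ∑ i ∈ range r, f (m + k * r + i) := by
  induction b with
  | zero => simp
  | succ b ih =>
    have h1 : m ≤ m + b * r := Nat.le_add_right _ _
    have h2 : m + b * r ≤ m + (b + 1) * r := by
      have : b * r ≤ (b + 1) * r := Nat.mul_le_mul_right r (Nat.le_succ b)
      omega
    have h3 : m + (b + 1) * r - (m + b * r) = r := by
      have : (b + 1) * r = b * r + r := by ring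
      omega
    rw [← Finset.sum_Ico_consecutive f h1 h2, ih, Finset.sum_range_succ,
      Finset.sum_Ico_eq_sum_range f (m + b * r) (m + (b + 1) * r), h3]

/-- cotangent sums over several consecutive complete blocks -/
lemma blocks_bound {r : ℕ} (hr : 0 < r) {P : ℤ} (hP : IsCoprime P (r : ℤ)) {α θ δ : ℝ}
    (hη : |(r : ℝ) * α - P| ≤ 1 / r) (hδ : 0 < δ) (m b : ℕ)
    (hfar : ∀ l : ℕ, m ≤ l → l < m + b * r → δ ≤ nn ((l : ℝ) * α - θ)) :
    |∑ l ∈ Ico m (m + b * r), ct ((l : ℝ) * α - θ)| ≤ b * (36 * r + 21 / δ) := by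
  rw [sum_blocks' (fun l : ℕ => ct ((l : ℝ) * α - θ))]
  calc _ ≤ ∑ k ∈ range b, |∑ i ∈ range r, ct (((m + k * r + i : ℕ) : ℝ) * α - θ)| :=
        Finset.abs_sum_le_sum_abs _ _
    _ ≤ ∑ k ∈ range b, (36 * r + 21 / δ) := by
        apply Finset.sum_le_sum
        intro k hk
        rw [mem_range] at hk
        have h1 : (k + 1) * r ≤ b * r := Nat.mul_le_mul_right r hk
        have h2 : (k + 1) * r = k * r + r := by ring
        have hcast : ∀ i : ℕ, ((m + k * r + i : ℕ) : ℝ) * α - θ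
            = (((m + k * r : ℕ) : ℝ) * α - θ) + (i : ℝ) * α := by
          intro i; push_cast; ring
        have h3 := block_bound hr hP (α := α) (θ := ((m + k * r : ℕ) : ℝ) * α - θ) hη hδ (by
          intro i hi
          rw [mem_range] at hi
          rw [← hcast i]
          exact hfar _ (by omega) (by omega))
        simp only [hcast]
        exact h3
    _ = _ := by rw [Finset.sum_const, card_range, nsmul_eq_mul]

/-- slow variation of `hh` away from resonances -/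
lemma hh_variation {r : ℕ} (hr : 0 < r) {P : ℤ} (hP : IsCoprime P (r : ℤ)) {α ε δ : ℝ}
    (hη : |(r : ℝ) * α - P| ≤ 1 / r) (hδ : 0 < δ) (hεδ : |ε| ≤ δ / 2) {m b : ℕ} (hm : 1 ≤ m)
    (hpos : ∀ l : ℕ, 1 ≤ l → l < m + b * r → |ε| < nn ((l : ℝ) * α))
    (hfar : ∀ l : ℕ, m ≤ l → l < m + b * r → δ ≤ nn ((l : ℝ) * α))
    {Ch : ℝ} (hCh : hh α ε m ≤ Ch) (hCh' : hh α ε (m + b * r) ≤ Ch) :
    |hh α ε (m + b * r) - hh α ε m| ≤ Ch * (2 * (π * |ε| * (b * (36 * r + 42 / δ)))) := by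
  set t := π * |ε| * (b * (36 * r + 42 / δ)) with ht
  have ht0 : 0 ≤ t := by positivity
  have hm0 : 0 < hh α ε m := hh_pos (fun l h1 h2 => hpos l h1 (by omega))
  have hm1 : 0 < hh α ε (m + b * r) := hh_pos (fun l h1 h2 => hpos l h1 h2)
  rcases le_or_gt 1 t with ht1 | ht1
  · have h1 : |hh α ε (m + b * r) - hh α ε m| ≤ Ch := by
      rw [abs_le]; constructor <;> linarith
    have hCh0 : 0 < Ch := hm0.trans_le hCh
    nlinarith
  have hsplit : hh α ε (m + b * r) = hh α ε m * ∏ l ∈ Ico m (m + b * r), rho ε ((l : ℝ) * α) := by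
    unfold hh
    rw [Finset.prod_Ico_consecutive _ hm (Nat.le_add_right _ _)]
  set Q := ∏ l ∈ Ico m (m + b * r), rho ε ((l : ℝ) * α) with hQ
  have hup : Q ≤ exp t := by
    calc Q ≤ ∏ l ∈ Ico m (m + b * r), exp (-(sin (π * ε) * ct ((l : ℝ) * α))) := by
          apply Finset.prod_le_prod
          · intro l hl
            rw [mem_Ico] at hl
            exact (rho_pos (hpos l (by omega) hl.2)).le
          · intro l _
            exact rho_le_exp _ _
      _ = exp (-(sin (π * ε) * ∑ l ∈ Ico m (m + b * r), ct ((l : ℝ) * α))) := by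
          rw [← Real.exp_sum]
          congr 1
          rw [Finset.sum_neg_distrib, Finset.mul_sum]
      _ ≤ exp t := by
          apply exp_le_exp.2
          refine (neg_le_abs _).trans ?_
          rw [abs_mul]
          have h1 := blocks_bound hr hP (α := α) (θ := 0) hη hδ m b (by simpa using hfar)
          simp only [sub_zero] at h1
          have h2 : (b : ℝ) * (36 * r + 21 / δ) ≤ b * (36 * r + 42 / δ) := by
            apply mul_le_mul_of_nonneg_left _ (Nat.cast_nonneg b)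
            have : 21 / δ ≤ 42 / δ := div_le_div_of_nonneg_right (by norm_num) hδ.le
            linarith
          exact mul_le_mul (abs_sin_pi_le ε) (h1.trans h2) (abs_nonneg _) (by positivity)
  have hfar' : ∀ l : ℕ, m ≤ l → l < m + b * r → δ / 2 ≤ nn ((l : ℝ) * α - ε) := by
    intro l h1 h2
    have h3 := hfar l h1 h2
    have h4 := nn_le_add ((l : ℝ) * α) ((l : ℝ) * α - ε)
    have h5 : nn ((l : ℝ) * α - ((l : ℝ) * α - ε)) ≤ |ε| := by
      rw [sub_sub_cancel]; exact nn_le_abs ε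
    linarith
  have hlo : exp (-t) ≤ Q := by
    calc exp (-t) ≤ exp (-(sin (π * ε) * ∑ l ∈ Ico m (m + b * r), ct ((l : ℝ) * α - ε))) := by
          apply exp_le_exp.2
          apply neg_le_neg
          refine (le_abs_self _).trans ?_
          rw [abs_mul]
          have h1 := blocks_bound hr hP (α := α) (θ := ε) hη (half_pos hδ) m b hfar'
          have h2 : (b : ℝ) * (36 * r + 21 / (δ / 2)) = b * (36 * r + 42 / δ) := by
            congr 2; field_simp; norm_num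
          rw [h2] at h1
          exact mul_le_mul (abs_sin_pi_le ε) h1 (abs_nonneg _) (by positivity)
      _ = ∏ l ∈ Ico m (m + b * r), exp (-(sin (π * ε) * ct ((l : ℝ) * α - ε))) := by
          rw [← Real.exp_sum]
          congr 1
          rw [Finset.sum_neg_distrib, Finset.mul_sum]
      _ ≤ Q := by
          apply Finset.prod_le_prod
          · intro l _
            exact (exp_pos _).le
          · intro l hl
            rw [mem_Ico] at hl
            apply exp_le_rho (hpos l (by omega) hl.2)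
            exact lt_of_lt_of_le (half_pos hδ) (hfar' l hl.1 hl.2)
  have hQ1 : |Q - 1| ≤ 2 * t := by
    have h1 : exp t ≤ 1 + 2 * t := by
      have := Real.exp_bound_div_one_sub_of_interval ht0 ht1
      have h2 := Real.abs_exp_sub_one_sub_id_le (x := t) (by rw [abs_of_nonneg ht0]; exact ht1.le)
      have h3 := (abs_le.1 h2).2
      nlinarith
    have h2 : 1 - t ≤ exp (-t) := by
      have := Real.add_one_le_exp (-t)
      linarith
    rw [abs_le]
    constructor <;> linarith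
  rw [hsplit]
  have h3 : hh α ε m * Q - hh α ε m = hh α ε m * (Q - 1) := by ring
  rw [h3, abs_mul, abs_of_pos hm0]
  exact mul_le_mul hCh hQ1 (abs_nonneg _) (hm0.le.trans hCh)

end Pool.Agent.Lib.MP_1cdd17_nt
end

section
set_option autoImplicit false

/-! The mean square bound. -/

namespace Pool.Agent.Lib.MP_1cdd17_nt

open Real Finset

namespace Good

variable {α : ℝ} {p : ℤ} {q : ℕ} {κ : ℝ}

lemma natAbs_mul (α : ℝ) (d : ℤ) : nn ((d : ℝ) * α) = nn ((d.natAbs : ℝ) * α) := by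
  rcases le_total 0 d with h | h
  · have : (d : ℝ) = (d.natAbs : ℝ) := by
      rw [Nat.cast_natAbs, abs_of_nonneg h]
    rw [this]
  · have : (d : ℝ) = -(d.natAbs : ℝ) := by
      rw [Nat.cast_natAbs, abs_of_nonpos h]
      push_cast; ring
    rw [this, neg_mul, nn_neg]

lemma half_le_int (h : Good α p q κ) {d : ℤ} (h1 : d ≠ 0) (h2 : d.natAbs < q) :
    1 / (2 * (q : ℝ)) ≤ nn ((d : ℝ) * α) := by
  rw [natAbs_mul]
  exact h.half_le (by omega) h2

lemma lower_int (h : Good α p q κ) {d : ℤ} (h1 : d ≠ 0) (h2 : d.natAbs < q) {n : ℝ}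
    (hn : (d.natAbs : ℝ) ≤ n) : κ / n ≤ nn ((d : ℝ) * α) := by
  have h3 := h.lower d.natAbs (by omega) h2
  rw [← natAbs_mul] at h3
  have h5 : (0 : ℝ) < (d.natAbs : ℝ) := by
    have : 0 < d.natAbs := by omega
    exact_mod_cast this
  have h6 : 0 < n := h5.trans_le hn
  rw [div_le_iff₀ h6]
  calc κ ≤ (d.natAbs : ℝ) * nn ((d : ℝ) * α) := h3
    _ ≤ n * nn ((d : ℝ) * α) := mul_le_mul_of_nonneg_right hn (nn_nonneg _)
    _ = _ := mul_comm _ _

end Good

/-- the quadratic phase -/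
noncomputable def cph (α θ : ℝ) (i : ℤ) : ℝ := -(5 / 2) * α * (i : ℝ) ^ 2 + θ * i

variable {α : ℝ} {p : ℤ} {q : ℕ} {κ : ℝ}

lemma l2_inner (h : Good α p q κ) {L : ℕ} (hL : 0 < L) (hLq : 5 * L ≤ q) {r : ℕ} (hr : 0 < r)
    {η : ℝ} (hη : κ / r ≤ |η|) {H : ℕ}
    (hHη : 5 * H * |η| ≤ κ / (10 * L)) (K : ℕ) {v : ℕ} (hv : v < L) {j j' : ℕ} (hj : j < H)
    (hj' : j' < H) :
    ∑ u ∈ range L, ‖Dir (5 * ((u : ℝ) - v) * α - 5 * ((j : ℝ) - j') * η) K‖ ^ 2
      ≤ (if j = j' then (K : ℝ) ^ 2 else (r : ℝ) ^ 2 / (100 * κ ^ 2)) + 75 * L ^ 2 / κ ^ 2 := by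
  have hκ := h.κpos
  have hL' : (1 : ℝ) ≤ L := by exact_mod_cast hL
  have hr' : (0 : ℝ) < r := by exact_mod_cast hr
  have hq5 : 5 ≤ q := by omega
  have hκ2 : κ ≤ 1 / 2 := h.κ_le_half (by omega)
  have hjj : |(j : ℝ) - j'| ≤ H := by
    rw [abs_le]
    have h1 : (j : ℝ) < H := by exact_mod_cast hj
    have h2 : (j' : ℝ) < H := by exact_mod_cast hj'
    have h3 : (0 : ℝ) ≤ j := Nat.cast_nonneg j
    have h4 : (0 : ℝ) ≤ j' := Nat.cast_nonneg j'
    constructor <;> linarith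
  have hsmall : |5 * ((j : ℝ) - j') * η| ≤ κ / (10 * L) := by
    rw [abs_mul, abs_mul, abs_of_pos (by norm_num : (0 : ℝ) < 5)]
    refine le_trans ?_ hHη
    gcongr
  have hκL : κ / (10 * L) ≤ 1 / 20 := by
    rw [div_le_div_iff₀ (by positivity) (by norm_num)]
    nlinarith
  rw [← Finset.add_sum_erase (range L) _ (mem_range.2 hv)]
  apply add_le_add
  · -- the diagonal term
    have e : 5 * ((v : ℝ) - v) * α - 5 * ((j : ℝ) - j') * η = -(5 * ((j : ℝ) - j') * η) := by ring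
    rw [e]
    split_ifs with hjj'
    · exact norm_Dir_sq_le _ _
    · have hne : (1 : ℝ) ≤ |(j : ℝ) - j'| := by
        have h1 : (j : ℤ) - j' ≠ 0 := by omega
        have h2 := Int.one_le_abs h1
        have h3 : ((1 : ℤ) : ℝ) ≤ ((|(j : ℤ) - j'| : ℤ) : ℝ) := by exact_mod_cast h2
        push_cast at h3
        exact h3
      have hnn : 5 * (κ / r) ≤ nn (-(5 * ((j : ℝ) - j') * η)) := by
        rw [nn_neg, nn_of_abs_le (by linarith), abs_mul, abs_mul,
          abs_of_pos (by norm_num : (0 : ℝ) < 5), mul_assoc]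
        apply mul_le_mul_of_nonneg_left _ (by norm_num)
        calc κ / r ≤ |η| := hη
          _ = 1 * |η| := (one_mul _).symm
          _ ≤ _ := mul_le_mul_of_nonneg_right hne (abs_nonneg _)
      have hpos : 0 < 5 * (κ / r) := by positivity
      calc _ ≤ 1 / (4 * (nn (-(5 * ((j : ℝ) - j') * η))) ^ 2) :=
            norm_Dir_sq_le' (hpos.trans_le hnn) _
        _ ≤ 1 / (4 * (5 * (κ / r)) ^ 2) := by
            apply one_div_le_one_div_of_le (by positivity)
            gcongr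
        _ = _ := by field_simp; norm_num
  · have hκL5 : κ / (5 * L) - κ / (10 * L) = κ / (10 * L) := by field_simp; norm_num
    have hlow : ∀ u ∈ (range L).erase v,
        κ / (10 * L) ≤ nn (5 * ((u : ℝ) - v) * α - 5 * ((j : ℝ) - j') * η) := by
      intro u hu
      rw [mem_erase, mem_range] at hu
      have h1 : κ / (5 * L) ≤ nn (((5 * ((u : ℤ) - v) : ℤ) : ℝ) * α) := by
        apply h.lower_int
        · omega
        · omega
        · have h3 : (5 * ((u : ℤ) - v)).natAbs ≤ 5 * L := by omega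
          exact_mod_cast h3
      have h2 := nn_le_add (((5 * ((u : ℤ) - v) : ℤ) : ℝ) * α)
        (5 * ((u : ℝ) - v) * α - 5 * ((j : ℝ) - j') * η)
      have h3 : ((5 * ((u : ℤ) - v) : ℤ) : ℝ) * α - (5 * ((u : ℝ) - v) * α - 5 * ((j : ℝ) - j') * η)
          = 5 * ((j : ℝ) - j') * η := by push_cast; ring
      rw [h3] at h2
      have h4 := (nn_le_abs (5 * ((j : ℝ) - j') * η)).trans hsmall
      linarith
    have hsep : SepOn ((range L).erase v)
        (fun u : ℕ => 5 * ((u : ℝ) - v) * α - 5 * ((j : ℝ) - j') * η) (κ / (5 * L)) := by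
      intro a ha b hb hab
      rw [mem_erase, mem_range] at ha hb
      have e : (5 * ((a : ℝ) - v) * α - 5 * ((j : ℝ) - j') * η)
          - (5 * ((b : ℝ) - v) * α - 5 * ((j : ℝ) - j') * η) = ((5 * ((a : ℤ) - b) : ℤ) : ℝ) * α := by
        push_cast; ring
      simp only
      rw [e]
      apply h.lower_int
      · omega
      · omega
      · have h3 : (5 * ((a : ℤ) - b)).natAbs ≤ 5 * L := by omega
        exact_mod_cast h3
    have hpos : 0 < κ / (10 * L) := by positivity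
    calc _ ≤ ∑ u ∈ (range L).erase v,
          1 / (4 * (nn (5 * ((u : ℝ) - v) * α - 5 * ((j : ℝ) - j') * η)) ^ 2) := by
          apply Finset.sum_le_sum
          intro u hu
          exact norm_Dir_sq_le' (hpos.trans_le (hlow u hu)) _
      _ = (1 / 4) * ∑ u ∈ (range L).erase v,
          1 / (nn (5 * ((u : ℝ) - v) * α - 5 * ((j : ℝ) - j') * η)) ^ 2 := by
          rw [Finset.mul_sum]
          apply Finset.sum_congr rfl
          intro u _
          rw [one_div_mul_one_div]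
      _ ≤ (1 / 4) * (2 / (κ / (10 * L)) ^ 2 + 4 / (κ / (5 * L)) ^ 2) := by
          apply mul_le_mul_of_nonneg_left _ (by norm_num)
          exact hsep.sum_inv_sq (by positivity) hpos hlow
      _ = 75 * L ^ 2 / κ ^ 2 := by field_simp; norm_num

/-- the mean square bound -/
lemma l2_bound (h : Good α p q κ) {L : ℕ} (hL : 0 < L) (hLq : 5 * L ≤ q) {r : ℕ} (hr : 0 < r)
    {P : ℤ} (hη : κ / r ≤ |(r : ℝ) * α - P|) {H : ℕ}
    (hHη : 5 * H * |(r : ℝ) * α - P| ≤ κ / (10 * L)) {i₀ i₁ m₀ : ℤ} (hi : i₁ < i₀ + q)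
    {T : Finset ℤ} (hT : T ⊆ Icc i₀ i₁)
    (hTL : ∀ i ∈ T, (L : ℝ) * nn (((m₀ + 5 * i : ℤ) : ℝ) * α) ≤ 1 / 2) (θ : ℝ) :
    ∑ i ∈ T, ‖∑ j ∈ range H, ee (cph α θ (i + j * r))‖ ^ 2
      ≤ 4 * H / (L * q) * (4 * q ^ 2 + H * r ^ 2 / (100 * κ ^ 2) + 75 * H * L ^ 2 / κ ^ 2) := by
  set η := (r : ℝ) * α - P with hηdef
  have hκ := h.κpos
  have hL' : (1 : ℝ) ≤ L := by exact_mod_cast hL
  have hq' : (0 : ℝ) < q := by exact_mod_cast h.qpos
  set S := range L ×ˢ range H with hS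
  set φ : ℕ × ℕ → ℤ → ℝ := fun a i => a.1 * (((m₀ + 5 * i : ℤ) : ℝ) * α) + cph α θ (i + a.2 * r)
    with hφ
  set γ : ℕ × ℕ → ℕ × ℕ → ℝ := fun a b => 5 * ((a.1 : ℝ) - b.1) * α - 5 * ((a.2 : ℝ) - b.2) * η
    with hγ
  have hfac : ∀ i : ℤ, ∑ a ∈ S, ee (φ a i)
      = Dir (((m₀ + 5 * i : ℤ) : ℝ) * α) L * ∑ j ∈ range H, ee (cph α θ (i + j * r)) := by
    intro i
    rw [hS, Finset.sum_product, Dir, Finset.sum_mul_sum]
    apply Finset.sum_congr rfl
    intro u _
    apply Finset.sum_congr rfl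
    intro j _
    rw [← ee_add]
  have hexp : ∀ a ∈ S, ∀ b ∈ S, ∃ k : ℝ, ∀ i : ℤ, ee (φ a i - φ b i) = ee (k + i * γ a b) := by
    intro a _ b _
    refine ⟨((a.1 : ℝ) - b.1) * m₀ * α - (5 / 2) * α * r ^ 2 * ((a.2 : ℝ) ^ 2 - (b.2 : ℝ) ^ 2)
      + θ * r * ((a.2 : ℝ) - b.2), fun i => ?_⟩
    have e : φ a i - φ b i = (((a.1 : ℝ) - b.1) * m₀ * α
        - (5 / 2) * α * r ^ 2 * ((a.2 : ℝ) ^ 2 - (b.2 : ℝ) ^ 2)
        + θ * r * ((a.2 : ℝ) - b.2) + i * γ a b) + ((-(5 * i * ((a.2 : ℤ) - b.2) * P) : ℤ) : ℝ) := by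
      simp only [hφ, hγ, hηdef, cph]
      push_cast
      ring
    rw [e, ee_add_int]
  have hmain := avg_expand S φ γ hexp i₀ (2 * q)
  have havg := sum_le_avg (fun i => ‖∑ a ∈ S, ee (φ a i)‖ ^ 2) (fun i => by positivity) h.qpos hi
  have hstep : ∑ i ∈ T, ‖∑ j ∈ range H, ee (cph α θ (i + j * r))‖ ^ 2
      ≤ (4 / (L : ℝ) ^ 2) * ∑ i ∈ Icc i₀ i₁, ‖∑ a ∈ S, ee (φ a i)‖ ^ 2 := by
    calc _ ≤ ∑ i ∈ T, (4 / (L : ℝ) ^ 2) * ‖∑ a ∈ S, ee (φ a i)‖ ^ 2 := by
          apply Finset.sum_le_sum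
          intro i hi'
          rw [hfac, norm_mul, mul_pow]
          have h1 := half_le_norm_Dir (hTL i hi')
          have h2 : ((L : ℝ) / 2) ^ 2 ≤ ‖Dir (((m₀ + 5 * i : ℤ) : ℝ) * α) L‖ ^ 2 :=
            pow_le_pow_left₀ (by positivity) h1 2
          set Y := ‖∑ j ∈ range H, ee (cph α θ (i + j * r))‖ ^ 2
          have hY : 0 ≤ Y := by positivity
          calc Y = 4 / (L : ℝ) ^ 2 * (((L : ℝ) / 2) ^ 2 * Y) := by field_simp; norm_num
            _ ≤ _ := by gcongr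
      _ = (4 / (L : ℝ) ^ 2) * ∑ i ∈ T, ‖∑ a ∈ S, ee (φ a i)‖ ^ 2 := by rw [Finset.mul_sum]
      _ ≤ _ := by
          apply mul_le_mul_of_nonneg_left _ (by positivity)
          apply Finset.sum_le_sum_of_subset_of_nonneg hT
          intro i _ _; positivity
  have hsum : ∑ a ∈ S, ∑ b ∈ S, ‖Dir (γ a b) (2 * q)‖ ^ 2
      ≤ L * H * (4 * q ^ 2 + H * r ^ 2 / (100 * κ ^ 2) + 75 * H * L ^ 2 / κ ^ 2) := by
    rw [Finset.sum_comm]
    have h1 : ∀ b ∈ S, ∑ a ∈ S, ‖Dir (γ a b) (2 * q)‖ ^ 2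
        ≤ 4 * q ^ 2 + H * r ^ 2 / (100 * κ ^ 2) + 75 * H * L ^ 2 / κ ^ 2 := by
      intro b hb
      rw [hS, mem_product, mem_range, mem_range] at hb
      rw [hS, Finset.sum_product_right]
      calc _ ≤ ∑ j ∈ range H, ((if j = b.2 then ((2 * q : ℕ) : ℝ) ^ 2
            else (r : ℝ) ^ 2 / (100 * κ ^ 2)) + 75 * L ^ 2 / κ ^ 2) := by
            apply Finset.sum_le_sum
            intro j hj
            rw [mem_range] at hj
            exact l2_inner h hL hLq hr hη hHη (2 * q) hb.1 hj hb.2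
        _ ≤ ∑ j ∈ range H, ((if j = b.2 then ((2 * q : ℕ) : ℝ) ^ 2 else 0)
            + (r : ℝ) ^ 2 / (100 * κ ^ 2) + 75 * L ^ 2 / κ ^ 2) := by
            apply Finset.sum_le_sum
            intro j _
            have : 0 ≤ (r : ℝ) ^ 2 / (100 * κ ^ 2) := by positivity
            split_ifs <;> linarith
        _ = _ := by
            rw [Finset.sum_add_distrib, Finset.sum_add_distrib, Finset.sum_ite_eq' (range H) b.2]
            rw [if_pos (mem_range.2 hb.2)]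
            simp only [Finset.sum_const, card_range, nsmul_eq_mul]
            push_cast
            ring
    calc _ ≤ ∑ b ∈ S, (4 * (q : ℝ) ^ 2 + H * r ^ 2 / (100 * κ ^ 2) + 75 * H * L ^ 2 / κ ^ 2) :=
          Finset.sum_le_sum h1
      _ = _ := by
          rw [Finset.sum_const, hS, card_product, card_range, card_range, nsmul_eq_mul]
          push_cast; ring
  calc _ ≤ _ := hstep
    _ ≤ (4 / (L : ℝ) ^ 2) * ((1 / (q : ℝ)) * (L * H * (4 * q ^ 2 + H * r ^ 2 / (100 * κ ^ 2)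
        + 75 * H * L ^ 2 / κ ^ 2))) := by
        apply mul_le_mul_of_nonneg_left _ (by positivity)
        refine havg.trans ?_
        apply mul_le_mul_of_nonneg_left _ (by positivity)
        exact hmain.trans hsum
    _ = _ := by field_simp

end Pool.Agent.Lib.MP_1cdd17_nt
end

section
set_option autoImplicit false

/-! The shift inequality of van der Corput type, in abstract form. -/

namespace Pool.Agent.Lib.MP_1cdd17_nt

open Finset

lemma sum_shift (Φ : ℤ → ℂ) {i₀ i₁ a b : ℤ} (ha : 0 ≤ a) (hab : a ≤ b)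
    (hΦ : ∀ i, i ∉ Icc i₀ i₁ → Φ i = 0) :
    ∑ i ∈ Icc (i₀ - b) i₁, Φ (i + a) = ∑ i ∈ Icc i₀ i₁, Φ i := by
  have h1 : ∑ i ∈ Icc (i₀ - b) i₁, Φ (i + a)
      = ∑ i ∈ (Icc (i₀ - b) i₁).image (fun i => i + a), Φ i := by
    rw [Finset.sum_image]
    intro x _ y _ hxy
    simpa using hxy
  rw [h1]
  symm
  apply Finset.sum_subset
  · intro i hi
    rw [mem_Icc] at hi
    rw [mem_image]
    exact ⟨i - a, by rw [mem_Icc]; omega, by ring⟩
  · intro i _ hi
    exact hΦ i hi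

lemma shift_ineq (c : ℤ → ℂ) (hc : ∀ i, ‖c i‖ ≤ 1) (F : ℤ → ℝ) {i₀ i₁ : ℤ}
    (hF : ∀ i, i ∉ Icc i₀ i₁ → F i = 0) {H r : ℕ} (hH : 0 < H) {E : ℝ}
    (hE : ∀ j : ℕ, j < H → ∑ i ∈ Icc (i₀ - H * r) i₁, |F (i + j * r) - F i| ≤ E) :
    ‖∑ i ∈ Icc i₀ i₁, c i * F i‖
      ≤ (1 / (H : ℝ)) * ∑ i ∈ Icc i₀ i₁, |F i| * ‖∑ j ∈ range H, c (i + j * r)‖ + E := by
  have hH' : (0 : ℝ) < H := by exact_mod_cast hH
  set W := Icc (i₀ - H * r) i₁ with hW
  set S := ∑ i ∈ Icc i₀ i₁, c i * F i with hS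
  have h1 : ∀ j ∈ range H, S = ∑ i ∈ W, c (i + j * r) * F i
      + ∑ i ∈ W, c (i + j * r) * ((F (i + j * r) - F i : ℝ) : ℂ) := by
    intro j hj
    rw [mem_range] at hj
    have h2 := sum_shift (fun i => c i * F i) (i₀ := i₀) (i₁ := i₁) (a := j * r) (b := H * r)
      (by positivity) (by
        have : (j : ℤ) ≤ H := by exact_mod_cast hj.le
        exact mul_le_mul_of_nonneg_right this (by positivity)) (by
        intro i hi
        rw [hF i hi]; simp)
    rw [hS, ← h2, ← Finset.sum_add_distrib]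
    apply Finset.sum_congr rfl
    intro i _
    push_cast
    ring
  have h2 : (H : ℂ) * S = ∑ i ∈ W, (F i : ℂ) * ∑ j ∈ range H, c (i + j * r)
      + ∑ j ∈ range H, ∑ i ∈ W, c (i + j * r) * ((F (i + j * r) - F i : ℝ) : ℂ) := by
    have h3 : (H : ℂ) * S = ∑ j ∈ range H, S := by
      rw [Finset.sum_const, card_range, nsmul_eq_mul]
    rw [h3, Finset.sum_congr rfl h1, Finset.sum_add_distrib]
    congr 1
    rw [Finset.sum_comm]
    apply Finset.sum_congr rfl
    intro i _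
    rw [Finset.mul_sum]
    apply Finset.sum_congr rfl
    intro j _
    ring
  have h4 : ‖∑ i ∈ W, (F i : ℂ) * ∑ j ∈ range H, c (i + j * r)‖
      ≤ ∑ i ∈ Icc i₀ i₁, |F i| * ‖∑ j ∈ range H, c (i + j * r)‖ := by
    refine (norm_sum_le _ _).trans ?_
    have h5 : ∑ i ∈ Icc i₀ i₁, |F i| * ‖∑ j ∈ range H, c (i + j * r)‖
        = ∑ i ∈ W, |F i| * ‖∑ j ∈ range H, c (i + j * r)‖ := by
      apply Finset.sum_subset
      · intro i hi
        rw [mem_Icc] at hi
        rw [hW, mem_Icc]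
        have : (0 : ℤ) ≤ H * r := by positivity
        omega
      · intro i _ hi
        rw [hF i hi]; simp
    rw [h5]
    apply Finset.sum_le_sum
    intro i _
    rw [norm_mul, Complex.norm_real, Real.norm_eq_abs]
  have h6 : ‖∑ j ∈ range H, ∑ i ∈ W, c (i + j * r) * ((F (i + j * r) - F i : ℝ) : ℂ)‖
      ≤ H * E := by
    refine (norm_sum_le _ _).trans ?_
    calc _ ≤ ∑ j ∈ range H, E := by
          apply Finset.sum_le_sum
          intro j hj
          refine (norm_sum_le _ _).trans (le_trans ?_ (hE j (mem_range.1 hj)))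
          apply Finset.sum_le_sum
          intro i _
          rw [norm_mul, Complex.norm_real, Real.norm_eq_abs]
          calc ‖c (i + j * r)‖ * |F (i + j * r) - F i| ≤ 1 * |F (i + j * r) - F i| :=
                mul_le_mul_of_nonneg_right (hc _) (abs_nonneg _)
            _ = _ := one_mul _
      _ = H * E := by rw [Finset.sum_const, card_range, nsmul_eq_mul]
  have h7 : (H : ℝ) * ‖S‖ ≤ ∑ i ∈ Icc i₀ i₁, |F i| * ‖∑ j ∈ range H, c (i + j * r)‖ + H * E := by
    have h8 : (H : ℝ) * ‖S‖ = ‖(H : ℂ) * S‖ := by rw [norm_mul, Complex.norm_natCast]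
    rw [h8, h2]
    refine (norm_add_le _ _).trans (add_le_add h4 h6)
  calc ‖S‖ = (1 / (H : ℝ)) * (H * ‖S‖) := by field_simp
    _ ≤ (1 / (H : ℝ)) * (∑ i ∈ Icc i₀ i₁, |F i| * ‖∑ j ∈ range H, c (i + j * r)‖ + H * E) :=
        mul_le_mul_of_nonneg_left h7 (by positivity)
    _ = _ := by field_simp

lemma sum_ite_mem_le (W S : Finset ℤ) {M : ℝ} (hM : 0 ≤ M) :
    ∑ i ∈ W, (if i ∈ S then M else 0) ≤ M * S.card := by
  classical
  rw [← Finset.sum_filter, Finset.sum_const, nsmul_eq_mul, mul_comm]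
  apply mul_le_mul_of_nonneg_left _ hM
  have : (W.filter (fun i => i ∈ S)).card ≤ S.card :=
    Finset.card_le_card (fun i hi => (mem_filter.1 hi).2)
  exact_mod_cast this

lemma E_abstract {T : Finset ℤ} {G F : ℤ → ℝ} (hFT : ∀ i ∈ T, F i = G i)
    (hF0 : ∀ i, i ∉ T → F i = 0) (a : ℤ) (W : Finset ℤ) {M V : ℝ} (hM0 : 0 ≤ M) (hV0 : 0 ≤ V)
    (hM : ∀ i ∈ T, |G i| ≤ M) (B : Finset ℤ)
    (hV : ∀ i ∈ T, i + a ∈ T → i ∉ B → |G (i + a) - G i| ≤ V) :
    ∑ i ∈ W, |F (i + a) - F i| ≤ M * (T.filter (fun i => i + a ∉ T)).card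
      + M * (T.filter (fun i => i + (-a) ∉ T)).card + V * T.card + 2 * M * B.card := by
  classical
  set S1 := T.filter (fun i => i + a ∉ T) with hS1
  set S2 := (T.filter (fun i => i + (-a) ∉ T)).image (fun i => i - a) with hS2
  have hpt : ∀ i ∈ W, |F (i + a) - F i| ≤ (if i ∈ S1 then M else 0) + (if i ∈ S2 then M else 0)
      + (if i ∈ T then V else 0) + (if i ∈ B then 2 * M else 0) := by
    intro i _
    have p1 : (0 : ℝ) ≤ (if i ∈ S1 then M else 0) := by split_ifs <;> linarith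
    have p2 : (0 : ℝ) ≤ (if i ∈ S2 then M else 0) := by split_ifs <;> linarith
    have p3 : (0 : ℝ) ≤ (if i ∈ T then V else 0) := by split_ifs <;> linarith
    have p4 : (0 : ℝ) ≤ (if i ∈ B then 2 * M else 0) := by split_ifs <;> linarith
    by_cases h1 : i ∈ T
    · by_cases h2 : i + a ∈ T
      · rw [hFT i h1, hFT _ h2]
        by_cases h3 : i ∈ B
        · rw [if_pos h3]
          have := abs_sub (G (i + a)) (G i)
          have h4 := hM i h1
          have h5 := hM _ h2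
          linarith
        · have h4 := hV i h1 h2 h3
          rw [if_pos h1]
          linarith
      · have h3 : i ∈ S1 := mem_filter.2 ⟨h1, h2⟩
        rw [hF0 _ h2, hFT i h1, zero_sub, abs_neg, if_pos h3]
        have := hM i h1
        linarith
    · by_cases h2 : i + a ∈ T
      · have h3 : i ∈ S2 := by
          rw [hS2, mem_image]
          exact ⟨i + a, mem_filter.2 ⟨h2, by simpa using h1⟩, by ring⟩
        rw [hF0 _ h1, hFT _ h2, sub_zero, if_pos h3]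
        have := hM _ h2
        linarith
      · rw [hF0 _ h1, hF0 _ h2, sub_zero, abs_zero]
        positivity
  have hS2card : (S2.card : ℝ) ≤ (T.filter (fun i => i + (-a) ∉ T)).card := by
    exact_mod_cast Finset.card_image_le
  calc _ ≤ _ := Finset.sum_le_sum hpt
    _ = ∑ i ∈ W, (if i ∈ S1 then M else 0) + ∑ i ∈ W, (if i ∈ S2 then M else 0)
      + ∑ i ∈ W, (if i ∈ T then V else 0) + ∑ i ∈ W, (if i ∈ B then 2 * M else 0) := by
        rw [Finset.sum_add_distrib, Finset.sum_add_distrib, Finset.sum_add_distrib]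
    _ ≤ M * S1.card + M * S2.card + V * T.card + 2 * M * B.card := by
        have h1 := sum_ite_mem_le W S1 hM0
        have h2 := sum_ite_mem_le W S2 hM0
        have h3 := sum_ite_mem_le W T hV0
        have h4 := sum_ite_mem_le W B (M := 2 * M) (by positivity)
        linarith
    _ ≤ _ := by
        have := mul_le_mul_of_nonneg_left hS2card hM0
        linarith

end Pool.Agent.Lib.MP_1cdd17_nt
end

section
set_option autoImplicit false

/-! Counting in one dyadic shell and the variation of the amplitude. -/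

namespace Pool.Agent.Lib.MP_1cdd17_nt

open Real Finset

noncomputable def xx (α : ℝ) (m₀ i : ℤ) : ℝ := ((m₀ + 5 * i : ℤ) : ℝ) * α

noncomputable def GG (α ε : ℝ) (m₀ i : ℤ) : ℝ :=
  sin (π * ε) * ct (xx α m₀ i) * hh α ε (m₀ + 5 * i).toNat

noncomputable def TT (α : ℝ) (m₀ i₀ i₁ : ℤ) (A B : ℝ) : Finset ℤ :=
  (Icc i₀ i₁).filter (fun i => A ≤ nn (xx α m₀ i) ∧ nn (xx α m₀ i) < B)

/-- The range condition. -/
def InRange (q : ℕ) (m₀ i₀ i₁ : ℤ) : Prop :=
  ∀ i ∈ Icc i₀ i₁, 1 ≤ m₀ + 5 * i ∧ m₀ + 5 * i ≤ (q : ℤ) - 1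

lemma xx_sub (α : ℝ) (m₀ a b : ℤ) : xx α m₀ a - xx α m₀ b = ((5 * (a - b) : ℤ) : ℝ) * α := by
  unfold xx; push_cast; ring

variable {α : ℝ} {p : ℤ} {q : ℕ} {κ : ℝ}

lemma sep_global (h : Good α p q κ) {m₀ i₀ i₁ : ℤ} (hR : InRange q m₀ i₀ i₁) :
    SepOn (Icc i₀ i₁) (xx α m₀) (1 / (2 * (q : ℝ))) := by
  intro a ha b hb hab
  rw [xx_sub]
  have h1 := hR a ha
  have h2 := hR b hb
  apply h.half_le_int
  · omega
  · omega

lemma sep_local (h : Good α p q κ) (m₀ : ℤ) {S : Finset ℤ} {n : ℕ} (hn : 5 * n < q)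
    (hS : ∀ a ∈ S, ∀ b ∈ S, (a - b).natAbs ≤ n) :
    SepOn S (xx α m₀) (κ / (5 * n)) := by
  intro a ha b hb hab
  rw [xx_sub]
  have h1 := hS a ha b hb
  apply h.lower_int
  · omega
  · omega
  · have : (5 * (a - b)).natAbs ≤ 5 * n := by omega
    exact_mod_cast this

/-- number of points of a shell in a short window -/
lemma card_window (h : Good α p q κ) (m₀ : ℤ) {S : Finset ℤ} {n : ℕ} (hn0 : 0 < n)
    (hn : 5 * n < q) (hS : ∀ a ∈ S, ∀ b ∈ S, (a - b).natAbs ≤ n) {B : ℝ} (hB : 0 ≤ B)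
    (hSB : ∀ a ∈ S, nn (xx α m₀ a) ≤ B) : (S.card : ℝ) ≤ 10 * B * n / κ + 1 := by
  have hκ := h.κpos
  have hn' : (0 : ℝ) < n := by exact_mod_cast hn0
  have := (sep_local h m₀ hn hS).card_nn_le (by positivity) hB hSB
  calc (S.card : ℝ) ≤ 2 * B / (κ / (5 * n)) + 1 := this
    _ = _ := by field_simp; ring

lemma card_global (h : Good α p q κ) {m₀ i₀ i₁ : ℤ} (hR : InRange q m₀ i₀ i₁) {A B : ℝ}
    (hB : 0 ≤ B) : ((TT α m₀ i₀ i₁ A B).card : ℝ) ≤ 4 * B * q + 1 := by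
  have hq' : (0 : ℝ) < q := by exact_mod_cast h.qpos
  have h1 := ((sep_global h hR).mono (T := TT α m₀ i₀ i₁ A B) (filter_subset _ _)).card_nn_le
    (by positivity) hB (fun a ha => (mem_filter.1 ha).2.2.le)
  calc _ ≤ 2 * B / (1 / (2 * (q : ℝ))) + 1 := h1
    _ = _ := by field_simp; ring

lemma nn_shift_le (α : ℝ) (m₀ i j : ℤ) (r H : ℕ) (P : ℤ) (hj : j.natAbs ≤ H) :
    nn (xx α m₀ (i + j * r) - xx α m₀ i) ≤ 5 * H * |(r : ℝ) * α - P| := by
  have e : xx α m₀ (i + j * r) - xx α m₀ i = 5 * j * ((r : ℝ) * α - P) + ((5 * j * P : ℤ) : ℝ) := by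
    unfold xx; push_cast; ring
  rw [e, nn_add_int]
  refine (nn_le_abs _).trans ?_
  rw [abs_mul, abs_mul, abs_of_pos (by norm_num : (0 : ℝ) < 5)]
  have : |(j : ℝ)| ≤ H := by
    rw [← Int.cast_abs, ← Nat.cast_natAbs]
    exact_mod_cast hj
  gcongr

/-- number of points that leave the shell under a shift -/
lemma card_leave (h : Good α p q κ) {m₀ i₀ i₁ : ℤ} (hR : InRange q m₀ i₀ i₁) {A B : ℝ}
    (hB : 0 ≤ B) {r H : ℕ} (hr : 0 < r) (hH : 0 < H) (hHr : 5 * (H * r) < q) {P : ℤ}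
    {j : ℤ} (hj : j.natAbs ≤ H) :
    (((TT α m₀ i₀ i₁ A B).filter (fun i => i + j * r ∉ TT α m₀ i₀ i₁ A B)).card : ℝ)
      ≤ 10 * B * (H * r) / κ + 1 + 4 * (2 * q * (5 * H * |(r : ℝ) * α - P|) + 1) := by
  classical
  have hκ := h.κpos
  have hq' : (0 : ℝ) < q := by exact_mod_cast h.qpos
  set T := TT α m₀ i₀ i₁ A B with hT
  set lam := 5 * H * |(r : ℝ) * α - P| with hlam
  have hlam0 : 0 ≤ lam := by positivity
  have hTI : T ⊆ Icc i₀ i₁ := filter_subset _ _
  set S1 := T.filter (fun i => i + j * r ∉ Icc i₀ i₁) with hS1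
  set S2 := T.filter (fun i => A ≤ nn (xx α m₀ i) ∧ nn (xx α m₀ i) ≤ A + lam) with hS2
  set S3 := T.filter (fun i => B - lam ≤ nn (xx α m₀ i) ∧ nn (xx α m₀ i) ≤ B) with hS3
  have hcover : T.filter (fun i => i + j * r ∉ T) ⊆ S1 ∪ (S2 ∪ S3) := by
    intro i hi
    rw [mem_filter] at hi
    obtain ⟨hiT, hi2⟩ := hi
    rw [mem_union, mem_union]
    by_cases h1 : i + j * r ∈ Icc i₀ i₁
    · right
      have h2 : ¬ (A ≤ nn (xx α m₀ (i + j * r)) ∧ nn (xx α m₀ (i + j * r)) < B) := by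
        intro h3
        exact hi2 (mem_filter.2 ⟨h1, h3⟩)
      have h3 := (abs_nn_sub_le (xx α m₀ (i + j * r)) (xx α m₀ i)).trans
        (nn_shift_le α m₀ i j r H P hj)
      rw [← hlam, abs_le] at h3
      have h4 := (mem_filter.1 hiT).2
      rw [not_and_or, not_le, not_lt] at h2
      rcases h2 with h2 | h2
      · left
        refine mem_filter.2 ⟨hiT, h4.1, ?_⟩
        linarith [h3.1]
      · right
        refine mem_filter.2 ⟨hiT, ?_, h4.2.le⟩
        linarith [h3.2]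
    · left
      exact mem_filter.2 ⟨hiT, h1⟩
  have hjr : (j * r).natAbs ≤ H * r := by
    rw [Int.natAbs_mul, Int.natAbs_natCast]
    exact Nat.mul_le_mul_right r hj
  have hc1 : (S1.card : ℝ) ≤ 10 * B * (H * r : ℕ) / κ + 1 := by
    apply card_window h m₀ (Nat.mul_pos hH hr) hHr _ hB
    · intro a ha
      exact (mem_filter.1 (mem_filter.1 ha).1).2.2.le
    · intro a ha b hb
      rw [hS1, mem_filter] at ha hb
      have ha1 := mem_Icc.1 (hTI ha.1)
      have hb1 := mem_Icc.1 (hTI hb.1)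
      have ha2 := ha.2
      have hb2 := hb.2
      rw [mem_Icc] at ha2 hb2
      generalize j * (r : ℤ) = z at *
      generalize H * r = n at *
      omega
  have hc2 : (S2.card : ℝ) ≤ 2 * (lam / (1 / (2 * (q : ℝ))) + 1) := by
    have h1 := ((sep_global h hR).mono (T := S2) ((filter_subset _ _).trans hTI)).card_band
      (by positivity) (A := A) (B := A + lam) (by linarith)
      (fun a ha => (mem_filter.1 ha).2.1) (fun a ha => (mem_filter.1 ha).2.2)
    rwa [add_sub_cancel_left] at h1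
  have hc3 : (S3.card : ℝ) ≤ 2 * (lam / (1 / (2 * (q : ℝ))) + 1) := by
    have h1 := ((sep_global h hR).mono (T := S3) ((filter_subset _ _).trans hTI)).card_band
      (by positivity) (A := B - lam) (B := B) (by linarith)
      (fun a ha => (mem_filter.1 ha).2.1) (fun a ha => (mem_filter.1 ha).2.2)
    rwa [sub_sub_cancel] at h1
  have hc : ((T.filter (fun i => i + j * r ∉ T)).card : ℝ) ≤ S1.card + (S2.card + S3.card) := by
    have h1 := Finset.card_le_card hcover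
    have h2 := Finset.card_union_le S1 (S2 ∪ S3)
    have h3 := Finset.card_union_le S2 S3
    exact_mod_cast (h1.trans (h2.trans (Nat.add_le_add_left h3 _)))
  have e : lam / (1 / (2 * (q : ℝ))) = 2 * q * lam := by field_simp
  rw [e] at hc2 hc3
  push_cast at hc1
  linarith

open Classical in
/-- the set of starting points whose window meets a resonance -/
noncomputable def Bad (α : ℝ) (m₀ i₀ i₁ : ℤ) (A B δ : ℝ) (r j : ℕ) : Finset ℤ :=
  (TT α m₀ i₀ i₁ A B).filter (fun i => i + j * r ∈ TT α m₀ i₀ i₁ A B ∧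
    ∃ l ∈ Ico (m₀ + 5 * i).toNat ((m₀ + 5 * i).toNat + 5 * j * r), nn ((l : ℝ) * α) < δ)

lemma mem_Bad {α : ℝ} {m₀ i₀ i₁ : ℤ} {A B δ : ℝ} {r j : ℕ} {i : ℤ} :
    i ∈ Bad α m₀ i₀ i₁ A B δ r j ↔ i ∈ TT α m₀ i₀ i₁ A B ∧ i + j * r ∈ TT α m₀ i₀ i₁ A B ∧
    ∃ l ∈ Ico (m₀ + 5 * i).toNat ((m₀ + 5 * i).toNat + 5 * j * r), nn ((l : ℝ) * α) < δ := by
  simp only [Bad, Finset.mem_filter]

lemma card_Bad (h : Good α p q κ) {m₀ i₀ i₁ : ℤ} (hR : InRange q m₀ i₀ i₁) {A B δ : ℝ}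
    (hB : 0 ≤ B) (hδ : 0 ≤ δ) {r H : ℕ} (hr : 0 < r) (hH : 0 < H) (hHr : 5 * (H * r) < q)
    {j : ℕ} (hj : j < H) :
    ((Bad α m₀ i₀ i₁ A B δ r j).card : ℝ)
      ≤ (4 * δ * q + 1) * (10 * B * (H * r) / κ + 1) := by
  classical
  have hκ := h.κpos
  have hq' : (0 : ℝ) < q := by exact_mod_cast h.qpos
  set T := TT α m₀ i₀ i₁ A B with hT
  have hTI : T ⊆ Icc i₀ i₁ := filter_subset _ _
  set Ls := (Ico 1 q).filter (fun l : ℕ => nn ((l : ℝ) * α) < δ) with hLs
  have hcover : Bad α m₀ i₀ i₁ A B δ r j ⊆ Ls.biUnion (fun l => T.filter (fun i =>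
      (m₀ + 5 * i).toNat ≤ l ∧ l < (m₀ + 5 * i).toNat + 5 * j * r)) := by
    intro i hi
    rw [mem_Bad] at hi
    obtain ⟨hiT, hi2, l, hl, hlδ⟩ := hi
    rw [mem_Ico] at hl
    rw [mem_biUnion]
    refine ⟨l, ?_, mem_filter.2 ⟨hiT, hl⟩⟩
    rw [hLs, mem_filter, mem_Ico]
    have h1 := hR i (hTI hiT)
    have h2 := hR _ (hTI hi2)
    refine ⟨⟨by omega, ?_⟩, hlδ⟩
    have h3 : m₀ + 5 * (i + j * r) = m₀ + 5 * i + 5 * j * r := by ring
    rw [h3] at h2
    have h4 : ((5 * j * r : ℕ) : ℤ) = 5 * (j : ℤ) * r := by push_cast; ring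
    have h5 := hl.2
    generalize 5 * j * r = z at *
    generalize 5 * (j : ℤ) * r = z' at *
    omega
  have hLcard : (Ls.card : ℝ) ≤ 4 * δ * q + 1 := by
    have hsep : SepOn Ls (fun l : ℕ => (l : ℝ) * α) (1 / (2 * (q : ℝ))) := by
      intro a ha b hb hab
      rw [hLs, mem_filter, mem_Ico] at ha hb
      have e : (a : ℝ) * α - (b : ℝ) * α = (((a : ℤ) - b : ℤ) : ℝ) * α := by push_cast; ring
      simp only
      rw [e]
      apply h.half_le_int <;> omega
    have := hsep.card_nn_le (by positivity) hδ (fun a ha => (mem_filter.1 ha).2.le)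
    calc _ ≤ 2 * δ / (1 / (2 * (q : ℝ))) + 1 := this
      _ = _ := by field_simp; ring
  have hpiece : ∀ l ∈ Ls, ((T.filter (fun i => (m₀ + 5 * i).toNat ≤ l ∧
      l < (m₀ + 5 * i).toNat + 5 * j * r)).card : ℝ) ≤ 10 * B * (H * r) / κ + 1 := by
    intro l _
    have := card_window h m₀ (S := T.filter (fun i => (m₀ + 5 * i).toNat ≤ l ∧
      l < (m₀ + 5 * i).toNat + 5 * j * r)) (Nat.mul_pos hH hr) hHr (by
        intro a ha b hb
        rw [mem_filter] at ha hb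
        have ha1 := hR a (hTI ha.1)
        have hb1 := hR b (hTI hb.1)
        have hjr : j * r ≤ H * r := Nat.mul_le_mul_right r hj.le
        have ha2 := ha.2
        have hb2 := hb.2
        have e : 5 * j * r = 5 * (j * r) := by ring
        rw [e] at ha2 hb2
        generalize j * r = z at *
        generalize H * r = n at *
        omega) hB (fun a ha => (mem_filter.1 (mem_filter.1 ha).1).2.2.le)
    push_cast at this
    exact this
  have h1 : ((Bad α m₀ i₀ i₁ A B δ r j).card : ℝ) ≤ ∑ l ∈ Ls, ((T.filter (fun i =>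
      (m₀ + 5 * i).toNat ≤ l ∧ l < (m₀ + 5 * i).toNat + 5 * j * r)).card : ℝ) := by
    have := (Finset.card_le_card hcover).trans (Finset.card_biUnion_le)
    exact_mod_cast this
  calc _ ≤ _ := h1
    _ ≤ ∑ l ∈ Ls, (10 * B * (H * r) / κ + 1) := Finset.sum_le_sum hpiece
    _ = Ls.card * (10 * B * (H * r) / κ + 1) := by rw [Finset.sum_const, nsmul_eq_mul]
    _ ≤ _ := by
        apply mul_le_mul_of_nonneg_right hLcard
        positivity

lemma GG_le (h : Good α p q κ) {Ch : ℝ} (hCh : ∀ m : ℕ, 1 ≤ m → m < q → hh α (q * α - p) m ≤ Ch)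
    {m₀ i₀ i₁ : ℤ} (hR : InRange q m₀ i₀ i₁) {i : ℤ} (hi : i ∈ Icc i₀ i₁) {A : ℝ} (hA : 0 < A)
    (hiA : A ≤ nn (xx α m₀ i)) :
    |GG α (q * α - p) m₀ i| ≤ π * |q * α - p| * (1 / (2 * A)) * Ch := by
  have h1 := hR i hi
  have hm1 : 1 ≤ (m₀ + 5 * i).toNat := by omega
  have hm2 : (m₀ + 5 * i).toNat < q := by omega
  have h2 := hCh _ hm1 hm2
  have h3 : 0 < hh α (q * α - p) (m₀ + 5 * i).toNat :=
    hh_pos (fun l hl1 hl2 => h.best l hl1 (by omega))
  unfold GG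
  rw [abs_mul, abs_mul, abs_of_pos h3]
  have h4 := abs_sin_pi_le (q * α - p)
  have h5 : |ct (xx α m₀ i)| ≤ 1 / (2 * A) :=
    (abs_ct_le (hA.trans_le hiA)).trans (one_div_le_one_div_of_le (by positivity) (by linarith))
  gcongr

lemma GG_var (h : Good α p q κ) {Ch : ℝ} (hCh : ∀ m : ℕ, 1 ≤ m → m < q → hh α (q * α - p) m ≤ Ch)
    {m₀ i₀ i₁ : ℤ} (hR : InRange q m₀ i₀ i₁) {A B δ : ℝ} (hA : 0 < A) (hδ : 0 < δ)
    (hεδ : |q * α - p| ≤ δ / 2)
    {r H j : ℕ} (hr : 0 < r) (hj : j < H) {P : ℤ} (hP : IsCoprime P (r : ℤ))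
    (hη : |(r : ℝ) * α - P| ≤ 1 / r) {i : ℤ} (hi : i ∈ TT α m₀ i₀ i₁ A B)
    (hi' : i + j * r ∈ TT α m₀ i₀ i₁ A B) (hbad : i ∉ Bad α m₀ i₀ i₁ A B δ r j) :
    |GG α (q * α - p) m₀ (i + j * r) - GG α (q * α - p) m₀ i|
      ≤ π * |q * α - p| * (5 * H * |(r : ℝ) * α - P| / (A * A) * Ch
        + 1 / (2 * A) * (Ch * (2 * (π * |q * α - p| * (5 * H * (36 * r + 42 / δ)))))) := by
  have hq' : (0 : ℝ) < q := by exact_mod_cast h.qpos
  have hiI := (mem_filter.1 hi).1
  have hi'I := (mem_filter.1 hi').1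
  have hiA := (mem_filter.1 hi).2.1
  have hi'A := (mem_filter.1 hi').2.1
  have h1 := hR i hiI
  have h2 := hR _ hi'I
  set ε := (q : ℝ) * α - p with hε
  set m := (m₀ + 5 * i).toNat with hm
  have hmj : (m₀ + 5 * (i + j * r)).toNat = m + 5 * j * r := by
    have h3 : m₀ + 5 * (i + j * r) = m₀ + 5 * i + 5 * j * r := by ring
    have h4 : ((5 * j * r : ℕ) : ℤ) = 5 * (j : ℤ) * r := by push_cast; ring
    rw [h3]
    rw [← h4]
    generalize 5 * j * r = z at *
    omega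
  have hm1 : 1 ≤ m := by omega
  have hm2 : m < q := by omega
  have hm3 : m + 5 * j * r < q := by
    rw [← hmj]; omega
  have hc1 := hCh m hm1 hm2
  have hc2 := hCh (m + 5 * j * r) (by omega) hm3
  have hpos1 : 0 < hh α ε m := hh_pos (fun l hl1 hl2 => h.best l hl1 (by omega))
  have hpos2 : 0 < hh α ε (m + 5 * j * r) := hh_pos (fun l hl1 hl2 => h.best l hl1 (by omega))
  have hCh0 : 0 < Ch := hpos1.trans_le hc1
  have hvar : |hh α ε (m + 5 * j * r) - hh α ε m|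
      ≤ Ch * (2 * (π * |ε| * (5 * H * (36 * r + 42 / δ)))) := by
    have h3 := hh_variation hr hP (α := α) (ε := ε) hη hδ hεδ (m := m) (b := 5 * j) hm1
      (fun l hl1 hl2 => h.best l hl1 (by omega))
      (fun l hl1 hl2 => by
        by_contra h4
        rw [not_le] at h4
        exact hbad (mem_Bad.2 ⟨hi, hi', l, mem_Ico.2 ⟨hl1, hl2⟩, h4⟩)) hc1 hc2
    refine h3.trans ?_
    push_cast
    have : (j : ℝ) ≤ H := by exact_mod_cast hj.le
    gcongr
  have hct : |ct (xx α m₀ (i + j * r)) - ct (xx α m₀ i)|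
      ≤ 5 * H * |(r : ℝ) * α - P| / (A * A) := by
    refine (abs_ct_sub_le (hA.trans_le hi'A) (hA.trans_le hiA)).trans ?_
    have h3 : nn (xx α m₀ (i + (j : ℤ) * r) - xx α m₀ i) ≤ 5 * H * |(r : ℝ) * α - P| :=
      nn_shift_le α m₀ i (j : ℤ) r H P (by simpa using hj.le)
    apply div_le_div₀ (by positivity) h3 (by positivity)
    exact mul_le_mul hi'A hiA hA.le (nn_nonneg _)
  have hct2 : |ct (xx α m₀ i)| ≤ 1 / (2 * A) :=
    (abs_ct_le (hA.trans_le hiA)).trans (one_div_le_one_div_of_le (by positivity) (by linarith))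
  have e : GG α ε m₀ (i + j * r) - GG α ε m₀ i = sin (π * ε) *
      ((ct (xx α m₀ (i + j * r)) - ct (xx α m₀ i)) * hh α ε (m + 5 * j * r)
        + ct (xx α m₀ i) * (hh α ε (m + 5 * j * r) - hh α ε m)) := by
    unfold GG
    rw [hmj]
    ring
  rw [e, abs_mul]
  apply mul_le_mul (abs_sin_pi_le ε) _ (abs_nonneg _) (by positivity)
  refine (abs_add_le _ _).trans ?_
  rw [abs_mul, abs_mul, abs_of_pos hpos2]
  gcongr

end Pool.Agent.Lib.MP_1cdd17_nt
end

section
set_option autoImplicit false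

/-! The bound for one dyadic shell. -/

namespace Pool.Agent.Lib.MP_1cdd17_nt

open Real Finset

variable {α : ℝ} {p : ℤ} {q : ℕ} {κ : ℝ}

lemma exists_dirichlet (h : Good α p q κ) {y : ℝ} (hy1 : 1 < y) (hyq : y ≤ q) :
    ∃ (r : ℕ) (P : ℤ), 0 < r ∧ r < q ∧ IsCoprime P (r : ℤ) ∧ |(r : ℝ) * α - P| ≤ y / q ∧
      |(r : ℝ) * α - P| ≤ 1 / r ∧ (r : ℝ) ≤ q / y ∧ κ / r ≤ |(r : ℝ) * α - P| := by
  have hq' : (0 : ℝ) < q := by exact_mod_cast h.qpos
  have hy0 : 0 < y := by linarith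
  set n := ⌊(q : ℝ) / y⌋₊ with hn
  have hn1 : 0 < n := by
    rw [hn, Nat.floor_pos, le_div_iff₀ hy0]
    linarith
  have hnle : (n : ℝ) ≤ q / y := Nat.floor_le (by positivity)
  have hnlt : (q : ℝ) / y < n + 1 := Nat.lt_floor_add_one _
  obtain ⟨Q, hQ1, hQ2⟩ := Real.exists_rat_abs_sub_le_and_den_le α hn1
  have hr0 : (0 : ℝ) < Q.den := by exact_mod_cast Q.den_pos
  have hden : (Q.den : ℝ) ≤ n := by exact_mod_cast hQ2
  have e : ((Q.den : ℝ)) * α - Q.num = Q.den * (α - Q) := by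
    have : (Q : ℝ) = Q.num / Q.den := by exact_mod_cast (Rat.num_div_den Q).symm
    rw [this]; field_simp
  have h1 : |(Q.den : ℝ) * α - Q.num| ≤ 1 / ((n : ℝ) + 1) := by
    rw [e, abs_mul, abs_of_pos hr0]
    calc (Q.den : ℝ) * |α - Q| ≤ Q.den * (1 / ((n + 1) * Q.den)) :=
          mul_le_mul_of_nonneg_left hQ1 hr0.le
      _ = _ := by field_simp
  have hrq : Q.den < q := by
    have h2 : (Q.den : ℝ) ≤ q / y := hden.trans hnle
    have h3 : (q : ℝ) / y < q := by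
      rw [div_lt_iff₀ hy0]; nlinarith
    exact_mod_cast (h2.trans_lt h3)
  refine ⟨Q.den, Q.num, Q.den_pos, hrq, ?_, ?_, ?_, hden.trans hnle, ?_⟩
  · rw [Int.isCoprime_iff_gcd_eq_one]
    simpa [Int.gcd] using Q.reduced
  · refine h1.trans ?_
    rw [div_le_div_iff₀ (by positivity) hq', one_mul]
    have := (div_lt_iff₀ hy0).1 hnlt
    linarith
  · refine h1.trans ?_
    apply one_div_le_one_div_of_le hr0
    linarith
  · rw [div_le_iff₀ hr0]
    have h2 := h.lower Q.den Q.den_pos hrq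
    have h3 := nn_le_abs_sub ((Q.den : ℝ) * α) Q.num
    calc κ ≤ Q.den * nn ((Q.den : ℝ) * α) := h2
      _ ≤ Q.den * |(Q.den : ℝ) * α - Q.num| := mul_le_mul_of_nonneg_left h3 hr0.le
      _ = _ := mul_comm _ _

lemma exists_L {J : ℝ} (hJ : 5 / 2 ≤ J) {q : ℕ} (hJq : 2 * J ≤ q) :
    ∃ L : ℕ, 0 < L ∧ 5 * L ≤ q ∧ (∀ x : ℝ, nn x < 2 * J / q → (L : ℝ) * nn x ≤ 1 / 2) ∧
      (q : ℝ) ≤ 8 * J * L ∧ (L : ℝ) * (2 * J) ≤ q := by
  have hJ0 : 0 < J := by linarith
  have hq' : (0 : ℝ) < q := by linarith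
  rcases le_or_gt (4 * J) q with h | h
  · set L := ⌊(q : ℝ) / (4 * J)⌋₊ with hL
    have hL1 : 0 < L := by
      rw [hL, Nat.floor_pos, le_div_iff₀ (by positivity)]
      linarith
    have hL1' : (1 : ℝ) ≤ L := by exact_mod_cast hL1
    have hLle : (L : ℝ) ≤ q / (4 * J) := Nat.floor_le (by positivity)
    have hLlt : (q : ℝ) / (4 * J) < L + 1 := Nat.lt_floor_add_one _
    rw [le_div_iff₀ (by positivity)] at hLle
    rw [div_lt_iff₀ (by positivity)] at hLlt
    refine ⟨L, hL1, ?_, ?_, ?_, ?_⟩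
    · have : (5 : ℝ) * L ≤ q := by nlinarith
      exact_mod_cast this
    · intro x hx
      have h0 := nn_nonneg x
      rw [lt_div_iff₀ hq'] at hx
      have h2 : (L : ℝ) * nn x * (4 * J) ≤ 2 * J := by
        calc (L : ℝ) * nn x * (4 * J) = (L * (4 * J)) * nn x := by ring
          _ ≤ q * nn x := mul_le_mul_of_nonneg_right hLle h0
          _ = nn x * q := mul_comm _ _
          _ ≤ 2 * J := hx.le
      nlinarith
    · nlinarith
    · nlinarith
  · refine ⟨1, one_pos, ?_, ?_, ?_, ?_⟩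
    · have : (5 : ℝ) * 1 ≤ q := by linarith
      exact_mod_cast this
    · intro x _
      simpa using nn_le_half x
    · push_cast; linarith
    · push_cast; linarith

/-- bound for the count of points leaving the shell -/
lemma num_N {q' κ y H r η : ℝ} (hq : 0 < q') (hκ : 0 < κ) (hκ2 : κ ≤ 1 / 2) (hy : 1000 ≤ y)
    (hH : 4 ≤ H) (hr : r ≤ q' / y) (hη : η ≤ y / q') :
    10 * (2 * y ^ 2 / q') * (H * r) / κ + 1 + 4 * (2 * q' * (5 * H * η) + 1)
      ≤ 41 * (H * y) / κ := by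
  have hy0 : 0 < y := by linarith
  have hH0 : 0 < H := by linarith
  have h1 : 10 * (2 * y ^ 2 / q') * (H * r) / κ ≤ 20 * (H * y) / κ := by
    calc 10 * (2 * y ^ 2 / q') * (H * r) / κ ≤ 10 * (2 * y ^ 2 / q') * (H * (q' / y)) / κ := by
          gcongr
      _ = _ := by field_simp; norm_num
  have h2 : 2 * q' * (5 * H * η) ≤ 10 * (H * y) := by
    calc 2 * q' * (5 * H * η) ≤ 2 * q' * (5 * H * (y / q')) := by gcongr
      _ = _ := by field_simp; norm_num
  have h3 : H * y ≤ (H * y) / κ * (1 / 2) := by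
    rw [div_mul_eq_mul_div, le_div_iff₀ hκ]
    have : 0 < H * y := by positivity
    nlinarith
  have h4 : 4000 ≤ H * y := by nlinarith
  have h5 : H * y ≤ (H * y) / κ := by
    have : 0 < (H * y) / κ := by positivity
    linarith
  have e1 : 20 * (H * y) / κ = 20 * ((H * y) / κ) := by ring
  have e2 : 41 * (H * y) / κ = 41 * ((H * y) / κ) := by ring
  rw [e1] at h1
  rw [e2]
  linarith

lemma num_Bad {q' κ y H r : ℝ} (hq : 0 < q') (hκ : 0 < κ) (hκ2 : κ ≤ 1 / 2) (hy : 1000 ≤ y)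
    (hH : 4 ≤ H) (hr0 : 0 < r) (hr : r ≤ q' / y) :
    (4 * (H ^ 2 / q') * q' + 1) * (10 * (2 * y ^ 2 / q') * (H * r) / κ + 1)
      ≤ 105 * (H ^ 3 * y) / κ := by
  have hy0 : 0 < y := by linarith
  have hH0 : 0 < H := by linarith
  have h1 : 10 * (2 * y ^ 2 / q') * (H * r) / κ ≤ 20 * ((H * y) / κ) := by
    calc 10 * (2 * y ^ 2 / q') * (H * r) / κ ≤ 10 * (2 * y ^ 2 / q') * (H * (q' / y)) / κ := by
          gcongr
      _ = _ := by field_simp; norm_num
  have h5 : 1 ≤ (H * y) / κ := by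
    rw [le_div_iff₀ hκ]
    nlinarith
  have h2 : 4 * (H ^ 2 / q') * q' + 1 ≤ 5 * H ^ 2 := by
    have e : 4 * (H ^ 2 / q') * q' = 4 * H ^ 2 := by field_simp
    rw [e]; nlinarith
  calc _ ≤ (5 * H ^ 2) * (20 * ((H * y) / κ) + (H * y) / κ) := by gcongr
    _ = _ := by field_simp; norm_num

lemma num_V {q' y H r η w Ch : ℝ} (hq : 0 < q') (hy : 1000 ≤ y)
    (hH : 4 ≤ H) (hHy : H ^ 2 ≤ y) (hr0 : 0 < r) (hr : r ≤ q' / y) (hη : η ≤ y / q')
    (hw0 : 0 ≤ w) (hw : w ≤ 1) (hCh : 0 ≤ Ch) :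
    π * (w / q') * (5 * H * η / (y ^ 2 / q' * (y ^ 2 / q')) * Ch
        + 1 / (2 * (y ^ 2 / q')) * (Ch * (2 * (π * (w / q') * (5 * H * (36 * r
          + 42 / (H ^ 2 / q')))))))
      * (9 * y ^ 2) ≤ 11100 * (π * w * Ch) / H := by
  have hy0 : 0 < y := by linarith
  have hH0 : 0 < H := by linarith
  have hπ := pi_pos
  have hπ4 : π ≤ 3.1416 := by linarith [pi_lt_d4]
  have h1 : 5 * H * η / (y ^ 2 / q' * (y ^ 2 / q')) ≤ 5 * H * q' / y ^ 3 := by
    calc 5 * H * η / (y ^ 2 / q' * (y ^ 2 / q')) ≤ 5 * H * (y / q') / (y ^ 2 / q' * (y ^ 2 / q')) := by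
          gcongr
      _ = _ := by field_simp
  have h2 : 36 * r + 42 / (H ^ 2 / q') ≤ q' * (36 / y + 42 / H ^ 2) := by
    calc 36 * r + 42 / (H ^ 2 / q') ≤ 36 * (q' / y) + 42 / (H ^ 2 / q') := by gcongr
      _ = _ := by field_simp
  have hHy' : H / y ≤ 1 / H := by
    rw [div_le_div_iff₀ hy0 hH0]; nlinarith
  have h3 : 36 / y + 42 / H ^ 2 ≤ 78 / H ^ 2 := by
    have : 36 / y ≤ 36 / H ^ 2 := by gcongr
    have e : (78 : ℝ) / H ^ 2 = 36 / H ^ 2 + 42 / H ^ 2 := by ring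
    linarith
  have h4 : 36 * r + 42 / (H ^ 2 / q') ≤ q' * (78 / H ^ 2) :=
    h2.trans (mul_le_mul_of_nonneg_left h3 hq.le)
  calc _ ≤ π * (w / q') * (5 * H * q' / y ^ 3 * Ch
        + 1 / (2 * (y ^ 2 / q')) * (Ch * (2 * (π * (1 / q') * (5 * H * (q' * (78 / H ^ 2))))))) 
        * (9 * y ^ 2) := by gcongr
    _ = π * w * Ch * (45 * (H / y) + 3510 * π / H) := by field_simp; ring
    _ ≤ π * w * Ch * (45 * (1 / H) + 3510 * 3.1416 / H) := by gcongr
    _ ≤ 11100 * (π * w * Ch) / H := by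
        have e : π * w * Ch * (45 * (1 / H) + 3510 * 3.1416 / H)
          = (45 + 3510 * 3.1416) * (π * w * Ch) / H := by ring
        rw [e]
        gcongr
        norm_num

lemma num_l2 {q' κ y H r L : ℝ} (hq : 0 < q') (hκ : 0 < κ) (hy : 1000 ≤ y)
    (hH : 0 < H) (hL : 0 < L) (hr0 : 0 < r) (hr : r ≤ q' / y) (hL1 : q' ≤ 8 * y ^ 2 * L)
    (hL2 : L * (2 * y ^ 2) ≤ q') (hHy : H ≤ κ ^ 2 * y ^ 2) :
    4 * H / (L * q') * (4 * q' ^ 2 + H * r ^ 2 / (100 * κ ^ 2) + 75 * H * L ^ 2 / κ ^ 2)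
      ≤ 129 * H * y ^ 2 := by
  have hy0 : 0 < y := by linarith
  have h1 : q' / L ≤ 8 * y ^ 2 := by rw [div_le_iff₀ hL]; exact hL1
  have h2 : L / q' ≤ 1 / (2 * y ^ 2) := by
    rw [div_le_div_iff₀ hq (by positivity)]; linarith
  have h3 : H ^ 2 / κ ^ 2 ≤ H * y ^ 2 := by
    rw [div_le_iff₀ (by positivity)]
    nlinarith
  have h4 : 150 / y ^ 2 ≤ 0.5 := by
    rw [div_le_iff₀ (by positivity)]
    nlinarith
  calc 4 * H / (L * q') * (4 * q' ^ 2 + H * r ^ 2 / (100 * κ ^ 2) + 75 * H * L ^ 2 / κ ^ 2)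
      ≤ 4 * H / (L * q') * (4 * q' ^ 2 + H * (q' / y) ^ 2 / (100 * κ ^ 2)
        + 75 * H * L ^ 2 / κ ^ 2) := by gcongr
    _ = 16 * H * (q' / L) + H ^ 2 / κ ^ 2 * (0.04 / y ^ 2 * (q' / L) + 300 * (L / q')) := by
        field_simp; ring
    _ ≤ 16 * H * (8 * y ^ 2) + H ^ 2 / κ ^ 2 * (0.04 / y ^ 2 * (8 * y ^ 2)
        + 300 * (1 / (2 * y ^ 2))) := by gcongr
    _ = 128 * H * y ^ 2 + H ^ 2 / κ ^ 2 * (0.32 + 150 / y ^ 2) := by field_simp; ring
    _ ≤ 128 * H * y ^ 2 + H ^ 2 / κ ^ 2 * (0.32 + 0.5) := by gcongr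
    _ ≤ 128 * H * y ^ 2 + (H * y ^ 2) * (0.32 + 0.5) := by gcongr
    _ ≤ _ := by
        have : 0 < H * y ^ 2 := by positivity
        linarith

lemma num_M1 {q' κ y H w Ch : ℝ} (hq : 0 < q') (hκ : 0 < κ) (hy : 0 < y)
    (hH : 0 < H) (hHy : H ^ 2 ≤ κ * y) (hw0 : 0 ≤ w) (hCh : 0 ≤ Ch) :
    π * (w / q') * (1 / (2 * (y ^ 2 / q'))) * Ch * (41 * (H * y) / κ)
      ≤ 21 * (π * w * Ch) / H := by
  have hπ := pi_pos
  have h1 : H / (κ * y) ≤ 1 / H := by
    rw [div_le_div_iff₀ (by positivity) hH]; nlinarith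
  calc _ = 20.5 * (π * w * Ch) * (H / (κ * y)) := by field_simp; ring
    _ ≤ 20.5 * (π * w * Ch) * (1 / H) := by gcongr
    _ ≤ 21 * (π * w * Ch) * (1 / H) := by gcongr; norm_num
    _ = _ := by ring

lemma num_M2 {q' κ y H w Ch : ℝ} (hq : 0 < q') (hκ : 0 < κ) (hy : 0 < y)
    (hH : 0 < H) (hHy : H ^ 4 ≤ κ * y) (hw0 : 0 ≤ w) (hCh : 0 ≤ Ch) :
    2 * (π * (w / q') * (1 / (2 * (y ^ 2 / q'))) * Ch) * (105 * (H ^ 3 * y) / κ)
      ≤ 105 * (π * w * Ch) / H := by
  have hπ := pi_pos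
  have h1 : H ^ 3 / (κ * y) ≤ 1 / H := by
    rw [div_le_div_iff₀ (by positivity) hH]; nlinarith
  calc _ = 105 * (π * w * Ch) * (H ^ 3 / (κ * y)) := by field_simp
    _ ≤ 105 * (π * w * Ch) * (1 / H) := by gcongr
    _ = _ := by ring

/-- The bound for one dyadic shell. -/
theorem shell_bound (h : Good α p q κ) (hq2 : 2 ≤ q) {Ch : ℝ}
    (hCh : ∀ m : ℕ, 1 ≤ m → m < q → hh α (q * α - p) m ≤ Ch)
    {m₀ i₀ i₁ : ℤ} (hR : InRange q m₀ i₀ i₁) (θ : ℝ) {y : ℝ} {s : ℕ} (hs : 2 ≤ s)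
    (hsy : (s : ℝ) ^ 8 ≤ κ * y) (hy : 1000 ≤ κ * y) (hyq : 2 * y ^ 2 ≤ q) (hCh0 : 0 ≤ Ch) :
    ‖∑ i ∈ TT α m₀ i₀ i₁ (y ^ 2 / q) (2 * y ^ 2 / q),
        ee (cph α θ i) * (GG α (q * α - p) m₀ i : ℂ)‖
      ≤ 11400 * (π * (q * |q * α - p|) * Ch) / s := by
  have hκ := h.κpos
  have hπ := pi_pos
  have hq' : (0 : ℝ) < q := by exact_mod_cast h.qpos
  have hs' : (2 : ℝ) ≤ s := by exact_mod_cast hs
  have hs0 : (0 : ℝ) < s := by linarith
  have hκ2 : κ ≤ 1 / 2 := h.κ_le_half hq2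
  have hy0 : 0 < y := by
    by_contra hcon
    rw [not_lt] at hcon
    nlinarith
  have hy2000 : 2000 ≤ y := by nlinarith
  have hyq1 : y ≤ q := by nlinarith
  have hi : i₁ < i₀ + q := by
    by_contra hcon
    rw [not_lt] at hcon
    have h1 := hR i₀ (mem_Icc.2 ⟨le_rfl, by omega⟩)
    have h2 := hR i₁ (mem_Icc.2 ⟨by omega, le_rfl⟩)
    omega
  obtain ⟨r, P, hr0, hrq, hP, hη1, hη2, hr, hη3⟩ := exists_dirichlet h (by linarith) hyq1
  have hr0' : (0 : ℝ) < r := by exact_mod_cast hr0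
  obtain ⟨L, hL0, hLq, hLnn, hL1, hL2⟩ := exists_L (J := y ^ 2) (by nlinarith) hyq
  have hL0' : (0 : ℝ) < L := by exact_mod_cast hL0
  set ε := (q : ℝ) * α - p with hε
  set η := (r : ℝ) * α - P with hη
  set w := (q : ℝ) * |ε| with hw
  have hw0 : 0 ≤ w := by positivity
  have hw1 : w ≤ 1 := h.w_le
  have hεw : |ε| = w / q := by rw [hw]; field_simp
  -- the number of shifts
  set H := s ^ 2 with hH
  have hHr : (H : ℝ) = (s : ℝ) ^ 2 := by rw [hH]; push_cast; rfl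
  have hH0 : 0 < H := by positivity
  have hH4 : (4 : ℝ) ≤ H := by rw [hHr]; nlinarith
  have hH4' : (H : ℝ) ^ 4 ≤ κ * y := by
    rw [hHr, ← pow_mul]; exact hsy
  have hH2' : (H : ℝ) ^ 2 ≤ κ * y := by
    refine le_trans ?_ hH4'
    exact pow_le_pow_right₀ (by linarith) (by norm_num)
  have hH1' : 64 * (H : ℝ) ≤ κ * y := by
    refine le_trans ?_ hH4'
    have h3 : (4 : ℝ) ^ 3 ≤ (H : ℝ) ^ 3 := pow_le_pow_left₀ (by norm_num) hH4 3
    calc 64 * (H : ℝ) = 4 ^ 3 * H := by norm_num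
      _ ≤ (H : ℝ) ^ 3 * H := by gcongr
      _ = _ := by ring
  have hκy : κ * y ≤ y := by nlinarith
  have hHr5 : 5 * (H * r) < q := by
    have h1 : (5 : ℝ) * (H * r) < q := by
      calc (5 : ℝ) * (H * r) ≤ 5 * (H * (q / y)) := by gcongr
        _ = (5 * H) * q / y := by ring
        _ < y * q / y := by gcongr; linarith
        _ = q := by field_simp
    exact_mod_cast h1
  have hHη : 5 * H * |η| ≤ κ / (10 * L) := by
    rw [le_div_iff₀ (by positivity)]
    calc 5 * H * |η| * (10 * L) ≤ 5 * H * (y / q) * (10 * L) := by gcongr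
      _ = 25 * H * (L * (2 * y ^ 2)) / (q * y) := by field_simp; ring
      _ ≤ 25 * H * q / (q * y) := by gcongr
      _ = 25 * H / y := by field_simp
      _ ≤ κ := by rw [div_le_iff₀ hy0]; linarith
  set A := y ^ 2 / q with hA
  set B := 2 * y ^ 2 / q with hB
  have hA0 : 0 < A := by positivity
  have hB0 : 0 < B := by positivity
  set T := TT α m₀ i₀ i₁ A B with hT
  have hTI : T ⊆ Icc i₀ i₁ := filter_subset _ _
  have hTcard : (T.card : ℝ) ≤ 9 * y ^ 2 := by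
    have h1 := card_global h hR (A := A) (B := B) hB0.le
    have h2 : 4 * B * q = 8 * y ^ 2 := by rw [hB]; field_simp; norm_num
    rw [h2] at h1
    nlinarith
  set c : ℤ → ℂ := fun i => ee (cph α θ i) with hc
  set F : ℤ → ℝ := fun i => if i ∈ T then GG α ε m₀ i else 0 with hF
  set M := π * |ε| * (1 / (2 * A)) * Ch with hM
  have hM0 : 0 ≤ M := by positivity
  have hGM : ∀ i ∈ T, |GG α ε m₀ i| ≤ M := by
    intro i hi'
    exact GG_le h hCh hR (hTI hi') hA0 (mem_filter.1 hi').2.1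
  have hsumeq : ∑ i ∈ T, ee (cph α θ i) * (GG α ε m₀ i : ℂ) = ∑ i ∈ Icc i₀ i₁, c i * F i := by
    rw [← Finset.sum_subset hTI (f := fun i => c i * (F i : ℂ))]
    · apply Finset.sum_congr rfl
      intro i hi'
      simp only [hF, if_pos hi', hc]
    · intro i _ hi'
      simp only [hF, if_neg hi']
      simp
  -- the mean square
  have hl2 : ∑ i ∈ T, ‖∑ j ∈ range H, ee (cph α θ (i + j * r))‖ ^ 2 ≤ 129 * H * y ^ 2 := by
    refine (l2_bound h hL0 hLq hr0 hη3 hHη hi hTI (m₀ := m₀) (fun i hi' => ?_) θ).trans ?_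
    · exact hLnn _ (mem_filter.1 hi').2.2
    · apply num_l2 hq' hκ (by linarith) (by positivity) hL0' hr0' hr hL1 hL2
      have h0 : 0 < κ * y := by positivity
      calc (H : ℝ) ≤ (κ * y) * 1 := by linarith
        _ ≤ (κ * y) * (κ * y) := by gcongr; linarith
        _ = _ := by ring
  have hl1 : ∑ i ∈ T, ‖∑ j ∈ range H, c (i + j * r)‖ ≤ 35 * s * y ^ 2 := by
    apply le_of_sq_le_sq _ (by positivity)
    calc (∑ i ∈ T, ‖∑ j ∈ range H, c (i + j * r)‖) ^ 2
        ≤ T.card * ∑ i ∈ T, ‖∑ j ∈ range H, c (i + j * r)‖ ^ 2 := sq_sum_le_card_mul_sum_sq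
      _ ≤ (9 * y ^ 2) * (129 * H * y ^ 2) := by
          apply mul_le_mul hTcard hl2 (Finset.sum_nonneg (fun _ _ => by positivity)) (by positivity)
      _ ≤ _ := by
          rw [hHr]
          have : 0 ≤ (s : ℝ) ^ 2 * y ^ 4 := by positivity
          nlinarith
  have hmain : (1 / (H : ℝ)) * ∑ i ∈ Icc i₀ i₁, |F i| * ‖∑ j ∈ range H, c (i + j * r)‖
      ≤ 18 * (π * w * Ch) / s := by
    have h1 : ∑ i ∈ Icc i₀ i₁, |F i| * ‖∑ j ∈ range H, c (i + j * r)‖
        ≤ M * (35 * s * y ^ 2) := by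
      calc _ = ∑ i ∈ T, |F i| * ‖∑ j ∈ range H, c (i + j * r)‖ := by
            symm
            apply Finset.sum_subset hTI
            intro i _ hi'
            simp only [hF, if_neg hi', abs_zero, zero_mul]
        _ ≤ ∑ i ∈ T, M * ‖∑ j ∈ range H, c (i + j * r)‖ := by
            apply Finset.sum_le_sum
            intro i hi'
            apply mul_le_mul_of_nonneg_right _ (norm_nonneg _)
            simp only [hF, if_pos hi']
            exact hGM i hi'
        _ = M * ∑ i ∈ T, ‖∑ j ∈ range H, c (i + j * r)‖ := by rw [Finset.mul_sum]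
        _ ≤ _ := mul_le_mul_of_nonneg_left hl1 hM0
    calc _ ≤ (1 / (H : ℝ)) * (M * (35 * s * y ^ 2)) := mul_le_mul_of_nonneg_left h1 (by positivity)
      _ = 17.5 * (π * w * Ch) / s := by
          rw [hM, hεw, hHr, hA]; field_simp; ring
      _ ≤ _ := by gcongr; norm_num
  -- the variation
  set δ := (H : ℝ) ^ 2 / q with hδ
  have hδ0 : 0 < δ := by positivity
  have hεδ : |ε| ≤ δ / 2 := by
    rw [hεw, hδ, div_div, div_le_div_iff₀ hq' (by positivity)]
    have h16 : (16 : ℝ) ≤ (H : ℝ) ^ 2 := by nlinarith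
    calc w * (q * 2) ≤ 1 * (q * 2) := by gcongr
      _ ≤ 16 * q := by linarith
      _ ≤ (H : ℝ) ^ 2 * q := by gcongr
  set V := π * |ε| * (5 * H * |η| / (A * A) * Ch
        + 1 / (2 * A) * (Ch * (2 * (π * |ε| * (5 * H * (36 * r + 42 / δ)))))) with hV
  have hV0 : 0 ≤ V := by positivity
  have hE : ∀ j : ℕ, j < H → ∑ i ∈ Icc (i₀ - H * r) i₁, |F (i + j * r) - F i|
      ≤ 11300 * (π * w * Ch) / s := by
    intro j hj
    have h1 := E_abstract (T := T) (G := GG α ε m₀) (F := F) (fun i hi' => by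
      simp only [hF, if_pos hi']) (fun i hi' => by simp only [hF, if_neg hi']) ((j : ℤ) * r)
      (Icc (i₀ - H * r) i₁) hM0 hV0 hGM (Bad α m₀ i₀ i₁ A B δ r j) (fun i h1 h2 h3 =>
        GG_var h hCh hR hA0 hδ0 hεδ hr0 hj hP hη2 h1 h2 h3)
    have hN1 := (card_leave h hR (A := A) hB0.le hr0 hH0 hHr5 (P := P) (j := (j : ℤ))
      (by simpa using hj.le)).trans (num_N hq' hκ hκ2 (by linarith) hH4 hr hη1)
    have hN2 := (card_leave h hR (A := A) hB0.le hr0 hH0 hHr5 (P := P) (j := -(j : ℤ))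
      (by simpa using hj.le)).trans (num_N hq' hκ hκ2 (by linarith) hH4 hr hη1)
    simp only [neg_mul] at hN2
    have hBad := (card_Bad h hR (A := A) hB0.le hδ0.le hr0 hH0 hHr5 hj).trans
      (num_Bad hq' hκ hκ2 (by linarith) hH4 hr0' hr)
    have e1 : M * ((T.filter (fun i => i + (j : ℤ) * r ∉ T)).card : ℝ)
        ≤ 21 * (π * w * Ch) / H := by
      refine (mul_le_mul_of_nonneg_left hN1 hM0).trans ?_
      rw [hM, hεw]
      exact num_M1 hq' hκ hy0 (by positivity) hH2' hw0 hCh0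
    have e2 : M * ((T.filter (fun i => i + -((j : ℤ) * r) ∉ T)).card : ℝ)
        ≤ 21 * (π * w * Ch) / H := by
      refine (mul_le_mul_of_nonneg_left hN2 hM0).trans ?_
      rw [hM, hεw]
      exact num_M1 hq' hκ hy0 (by positivity) hH2' hw0 hCh0
    have e3 : V * (T.card : ℝ) ≤ 11100 * (π * w * Ch) / H := by
      refine (mul_le_mul_of_nonneg_left hTcard hV0).trans ?_
      have h5 := num_V hq' (y := y) (by linarith) hH4 (hH2'.trans hκy) hr0' hr hη1 hw0 hw1 hCh0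
      rw [← hεw, ← hA, ← hδ, ← hV] at h5
      exact h5
    have e4 : 2 * M * ((Bad α m₀ i₀ i₁ A B δ r j).card : ℝ) ≤ 105 * (π * w * Ch) / H := by
      refine (mul_le_mul_of_nonneg_left hBad (by positivity)).trans ?_
      rw [hM, hεw]
      exact num_M2 hq' hκ hy0 (by positivity) hH4' hw0 hCh0
    calc _ ≤ _ := h1
      _ ≤ 21 * (π * w * Ch) / H + 21 * (π * w * Ch) / H + 11100 * (π * w * Ch) / H
          + 105 * (π * w * Ch) / H := by linarith
      _ = 11247 * (π * w * Ch) / H := by ring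
      _ ≤ 11300 * (π * w * Ch) / s := by
          have hsH : (s : ℝ) ≤ H := by rw [hHr]; nlinarith
          gcongr
          norm_num
  rw [hsumeq]
  have hfin := shift_ineq c (fun i => (norm_ee _).le) F (i₀ := i₀) (i₁ := i₁) (fun i hi' => by
    have : i ∉ T := fun hh => hi' (hTI hh)
    simp only [hF, if_neg this]) hH0 hE
  calc _ ≤ _ := hfin
    _ ≤ 18 * (π * w * Ch) / s + 11300 * (π * w * Ch) / s := by linarith
    _ = 11318 * (π * w * Ch) / s := by ring
    _ ≤ _ := by gcongr; norm_num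

end Pool.Agent.Lib.MP_1cdd17_nt
end
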