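import Pool.Agent.Lib.MP_1cdd17_nt.Defs
import Mathlib
import Pool.Agent.Lib.MP_1cdd17_nt.AnalDyadic

section
namespace Pool.Agent.MP_1cdd17_nt

open Filter Topology

lemma numA_add_two (x : ℂ) (n : ℕ) : numA x (n + 2) = numA x (n + 1) + x ^ (n + 1) * numA x n := rfl

lemma denB_add_two (x : ℂ) (n : ℕ) : denB x (n + 2) = denB x (n + 1) + x ^ (n + 1) * denB x n := rfl

/-- The Casoratian has absolute value one on the unit circle. -/
lemma norm_casoratian {x : ℂ} (hx : ‖x‖ = 1) (n : ℕ) :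
    ‖numA x (n + 1) * denB x n - numA x n * denB x (n + 1)‖ = 1 := by
  induction n with
  | zero => simp [numA, denB]
  | succ n ih =>
    have h : numA x (n + 2) * denB x (n + 1) - numA x (n + 1) * denB x (n + 2)
        = -(x ^ (n + 1)) * (numA x (n + 1) * denB x n - numA x n * denB x (n + 1)) := by
      rw [numA_add_two, denB_add_two]; ring
    rw [show n + 1 + 1 = n + 2 from rfl, h, norm_mul, ih, norm_neg, norm_pow, hx]
    simp

lemma eventually_of_succ {p : ℕ → Prop} (h : ∀ᶠ n in atTop, p (n + 1)) : ∀ᶠ n in atTop, p n := by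
  obtain ⟨N, hN⟩ := eventually_atTop.1 h
  refine eventually_atTop.2 ⟨N + 1, fun n hn => ?_⟩
  obtain ⟨m, rfl⟩ := Nat.exists_eq_add_of_le' (show 1 ≤ n by omega)
  exact hN m (by omega)

/-- If both `(A_n, B_n)` and `(A_{n-1}, B_{n-1})` stay bounded along a subsequence, then the
approximants do not converge in the Riemann sphere. -/
theorem not_converges_of_frequently_bounded {x : ℂ} (hx : ‖x‖ = 1) {C : ℝ}
    (h : ∃ᶠ n in atTop, ‖numA x n‖ ≤ C ∧ ‖denB x n‖ ≤ C ∧ ‖numA x (n + 1)‖ ≤ C ∧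
      ‖denB x (n + 1)‖ ≤ C) : ¬ Converges x := by
  rintro ⟨L, hL⟩
  have hC0 : 0 ≤ C := by
    obtain ⟨n, hn, -⟩ := h.exists
    exact (norm_nonneg _).trans hn
  rcases eq_or_ne L OnePoint.infty with rfl | hLne
  · -- the limit is infinity
    set ε : ℝ := 1 / (4 * (C ^ 2 + 1)) with hε
    have hεpos : 0 < ε := by positivity
    have hnhds : ∀ᶠ z : OnePoint ℂ in 𝓝 OnePoint.infty,
        z ∉ ((↑) : ℂ → OnePoint ℂ) '' Metric.closedBall 0 (1 / ε) := by
      have := (OnePoint.isOpen_compl_image_coe (s := Metric.closedBall (0 : ℂ) (1 / ε))).2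
        ⟨Metric.isClosed_closedBall, isCompact_closedBall 0 (1 / ε)⟩
      exact this.mem_nhds (by simp)
    have hev : ∀ᶠ n in atTop, ‖denB x (n + 1)‖ ≤ ε * ‖numA x (n + 1)‖ := by
      filter_upwards [hL.eventually hnhds] with n hn
      rcases eq_or_ne (denB x (n + 1)) 0 with hB | hB
      · rw [hB]; simp; positivity
      · rw [approximant, if_neg hB] at hn
        have h1 : ¬ ‖numA x (n + 1) / denB x (n + 1)‖ ≤ 1 / ε := by
          intro hle
          exact hn ⟨_, by simpa using hle, rfl⟩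
        rw [not_le, norm_div, div_lt_div_iff₀ hεpos (norm_pos_iff.2 hB), one_mul] at h1
        linarith [mul_comm ε ‖numA x (n + 1)‖]
    have hev' : ∀ᶠ n in atTop, ‖denB x n‖ ≤ ε * ‖numA x n‖ := eventually_of_succ hev
    obtain ⟨n, ⟨hA, hB, hA', hB'⟩, h1, h2⟩ := (h.and_eventually (hev.and hev')).exists
    have hcas := norm_casoratian hx n
    have : ‖numA x (n + 1) * denB x n - numA x n * denB x (n + 1)‖ ≤ C * (ε * C) + C * (ε * C) := by
      refine (norm_sub_le _ _).trans (add_le_add ?_ ?_)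
      · rw [norm_mul]
        exact mul_le_mul hA' (h2.trans (mul_le_mul_of_nonneg_left hA hεpos.le)) (norm_nonneg _) hC0
      · rw [norm_mul]
        exact mul_le_mul hA (h1.trans (mul_le_mul_of_nonneg_left hA' hεpos.le)) (norm_nonneg _) hC0
    rw [hcas] at this
    have h3 : C * (ε * C) + C * (ε * C) < 1 := by
      rw [hε]
      have : C * (1 / (4 * (C ^ 2 + 1)) * C) + C * (1 / (4 * (C ^ 2 + 1)) * C)
        = (2 * C ^ 2) / (4 * (C ^ 2 + 1)) := by ring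
      rw [this, div_lt_one (by positivity)]
      nlinarith [sq_nonneg C]
    linarith
  · -- finite limit
    obtain ⟨l, rfl⟩ := OnePoint.ne_infty_iff_exists.1 hLne
    set ε : ℝ := 1 / (4 * (C ^ 2 + 1)) with hε
    have hεpos : 0 < ε := by positivity
    have hnhds : ∀ᶠ z : OnePoint ℂ in 𝓝 (l : OnePoint ℂ),
        z ∈ ((↑) : ℂ → OnePoint ℂ) '' Metric.ball l ε := by
      have := OnePoint.isOpen_image_coe.2 (Metric.isOpen_ball (x := l) (ε := ε))
      exact this.mem_nhds ⟨l, Metric.mem_ball_self hεpos, rfl⟩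
    have hev : ∀ᶠ n in atTop, ‖numA x (n + 1) - l * denB x (n + 1)‖ ≤ ε * ‖denB x (n + 1)‖ := by
      filter_upwards [hL.eventually hnhds] with n hn
      obtain ⟨z, hz, hzn⟩ := hn
      by_cases hB : denB x (n + 1) = 0
      · rw [approximant, if_pos hB] at hzn
        exact absurd hzn (OnePoint.coe_ne_infty z)
      · rw [approximant, if_neg hB] at hzn
        have hz' : z = numA x (n + 1) / denB x (n + 1) := OnePoint.coe_injective hzn
        rw [hz', Metric.mem_ball, dist_eq_norm] at hz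
        have : numA x (n + 1) - l * denB x (n + 1) =
            (numA x (n + 1) / denB x (n + 1) - l) * denB x (n + 1) := by
          field_simp
        rw [this, norm_mul]
        exact mul_le_mul_of_nonneg_right hz.le (norm_nonneg _)
    have hev' : ∀ᶠ n in atTop, ‖numA x n - l * denB x n‖ ≤ ε * ‖denB x n‖ := eventually_of_succ hev
    obtain ⟨n, ⟨hA, hB, hA', hB'⟩, h1, h2⟩ := (h.and_eventually (hev.and hev')).exists
    have hcas := norm_casoratian hx n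
    have hid : numA x (n + 1) * denB x n - numA x n * denB x (n + 1) =
        (numA x (n + 1) - l * denB x (n + 1)) * denB x n -
          (numA x n - l * denB x n) * denB x (n + 1) := by ring
    have : ‖numA x (n + 1) * denB x n - numA x n * denB x (n + 1)‖ ≤ (ε * C) * C + (ε * C) * C := by
      rw [hid]
      refine (norm_sub_le _ _).trans (add_le_add ?_ ?_)
      · rw [norm_mul]
        exact mul_le_mul (h1.trans (mul_le_mul_of_nonneg_left hB' hεpos.le)) hB (norm_nonneg _)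
          (by positivity)
      · rw [norm_mul]
        exact mul_le_mul (h2.trans (mul_le_mul_of_nonneg_left hB hεpos.le)) hB' (norm_nonneg _)
          (by positivity)
    rw [hcas] at this
    have h3 : (ε * C) * C + (ε * C) * C < 1 := by
      rw [hε]
      have : (1 / (4 * (C ^ 2 + 1)) * C) * C + (1 / (4 * (C ^ 2 + 1)) * C) * C
        = (2 * C ^ 2) / (4 * (C ^ 2 + 1)) := by ring
      rw [this, div_lt_one (by positivity)]
      nlinarith [sq_nonneg C]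
    linarith

end Pool.Agent.MP_1cdd17_nt
end

section
namespace Pool.Agent.MP_1cdd17_nt

open Filter Topology

/-- Gaussian binomial coefficients `[n; k]` in `x`, for integer lower index. -/
noncomputable def gauss (x : ℂ) : ℕ → ℤ → ℂ
  | 0, k => if k = 0 then 1 else 0
  | (n + 1), k => gauss x n (k - 1) + x ^ k * gauss x n k

lemma gauss_zero (x : ℂ) (k : ℤ) : gauss x 0 k = if k = 0 then 1 else 0 := rfl

lemma gauss_succ (x : ℂ) (n : ℕ) (k : ℤ) :
    gauss x (n + 1) k = gauss x n (k - 1) + x ^ k * gauss x n k := rfl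

lemma gauss_eq_zero {x : ℂ} {n : ℕ} {k : ℤ} (h : k < 0 ∨ (n : ℤ) < k) : gauss x n k = 0 := by
  induction n generalizing k with
  | zero =>
    rw [gauss_zero, if_neg]
    rintro rfl
    simp at h
  | succ n ih =>
    rw [gauss_succ, ih, ih]
    · simp
    · push_cast at h ⊢; omega
    · push_cast at h ⊢; omega

lemma gauss_zero_right {x : ℂ} (n : ℕ) : gauss x n 0 = 1 := by
  induction n with
  | zero => simp [gauss_zero]
  | succ n ih =>
    rw [gauss_succ, ih, gauss_eq_zero (by left; norm_num)]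
    simp

lemma gauss_self {x : ℂ} (n : ℕ) : gauss x n n = 1 := by
  induction n with
  | zero => simp [gauss_zero]
  | succ n ih =>
    rw [gauss_succ, gauss_eq_zero (n := n) (k := ((n + 1 : ℕ) : ℤ)) (by right; push_cast; omega)]
    push_cast
    rw [add_sub_cancel_right, ih]
    simp

lemma gauss_succ' {x : ℂ} (hx : x ≠ 0) (n : ℕ) (k : ℤ) :
    gauss x (n + 1) k = gauss x n k + x ^ ((n : ℤ) + 1 - k) * gauss x n (k - 1) := by
  induction n generalizing k with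
  | zero =>
    rw [gauss_succ]
    simp only [gauss_zero]
    rcases eq_or_ne k 0 with rfl | h0
    · simp
    · rcases eq_or_ne k 1 with rfl | h1
      · simp
      · have : k - 1 ≠ 0 := by omega
        simp [h0, this]
  | succ n ih =>
    have h1 := gauss_succ x n k
    have h2 := ih k
    have h3 := gauss_succ x n (k - 1)
    have h4 := ih (k - 1)
    have e1 : x ^ (((n + 1 : ℕ) : ℤ) + 1 - k) = x ^ ((n : ℤ) + 1 - (k - 1)) := by
      congr 1; push_cast; ring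
    have e2 : x ^ k * x ^ ((n : ℤ) + 1 - k) = x ^ ((n : ℤ) + 1 - (k - 1)) * x ^ (k - 1) := by
      rw [← zpow_add₀ hx, ← zpow_add₀ hx]; congr 1; ring
    rw [gauss_succ x (n + 1) k, e1]
    linear_combination h4 + x ^ k * h2 - h1 - x ^ ((n : ℤ) + 1 - (k - 1)) * h3 +
      gauss x n (k - 1) * e2

lemma finite_support_gauss (x : ℂ) (n : ℕ) (c : ℤ → ℂ) (a : ℤ) :
    (Function.support fun m : ℤ => c m * gauss x n (a - 5 * m)).Finite := by
  refine (Set.finite_Icc (-(n + |a|) : ℤ) (n + |a|)).subset ?_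
  intro m hm
  have h1 : gauss x n (a - 5 * m) ≠ 0 := by
    intro h; apply hm; simp [h]
  have h2 : ¬ (a - 5 * m < 0 ∨ (n : ℤ) < a - 5 * m) := fun h => h1 (gauss_eq_zero h)
  push Not at h2
  have h3 := abs_nonneg a
  have h4 := le_abs_self a
  have h5 := neg_abs_le a
  constructor <;> omega

/-- Sum over one residue class modulo five. -/
noncomputable def S (x : ℂ) (n : ℕ) (e : ℤ → ℤ) (a : ℤ) : ℂ :=
  ∑ᶠ m : ℤ, x ^ e m * gauss x n (a - 5 * m)

lemma S_sub (x : ℂ) {n n' : ℕ} {e e' : ℤ → ℤ} {a a' : ℤ} :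
    S x n e a - S x n' e' a' =
      ∑ᶠ m : ℤ, (x ^ e m * gauss x n (a - 5 * m) - x ^ e' m * gauss x n' (a' - 5 * m)) := by
  rw [S, S, ← finsum_sub_distrib (finite_support_gauss _ _ _ _) (finite_support_gauss _ _ _ _)]

lemma S_mul (x : ℂ) (hx : x ≠ 0) {n : ℕ} {e : ℤ → ℤ} {a : ℤ} (b : ℤ) :
    x ^ b * S x n e a = S x n (fun m => b + e m) a := by
  rw [S, S, mul_finsum]
  apply finsum_congr
  intro m
  rw [zpow_add₀ hx]; ring

lemma S_add (x : ℂ) {n n' : ℕ} {e e' : ℤ → ℤ} {a a' : ℤ} :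
    S x n e a + S x n' e' a' =
      ∑ᶠ m : ℤ, (x ^ e m * gauss x n (a - 5 * m) + x ^ e' m * gauss x n' (a' - 5 * m)) := by
  rw [S, S, ← finsum_add_distrib (finite_support_gauss _ _ _ _) (finite_support_gauss _ _ _ _)]

lemma S_shift (x : ℂ) {n : ℕ} {e e' : ℤ → ℤ} {a a' : ℤ} (ha : a' = a - 5)
    (he : ∀ m, e' m = e (m + 1)) : S x n e' a' = S x n e a := by
  rw [S, S, ← finsum_comp_equiv (Equiv.addRight (1 : ℤ))
    (f := fun m : ℤ => x ^ e m * gauss x n (a - 5 * m))]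
  apply finsum_congr
  intro m
  rw [he, ha]
  simp only [Equiv.coe_addRight]
  rw [show a - 5 - 5 * m = a - 5 * (m + 1) by ring]

lemma S_congr (x : ℂ) {n : ℕ} {e e' : ℤ → ℤ} {a a' : ℤ} (ha : a' = a)
    (he : ∀ m, e' m = e m) : S x n e' a' = S x n e a := by
  rw [S, S, ha]
  exact finsum_congr fun m => by rw [he]

/-- first Pascal rule for the sums -/
lemma S_pascal₁ {x : ℂ} (hx : x ≠ 0) (n : ℕ) (e : ℤ → ℤ) (a : ℤ) :
    S x (n + 1) e a = S x n e a + S x n (fun m => e m + ((n : ℤ) + 1 - (a - 5 * m))) (a - 1) := by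
  rw [S_add, S]
  apply finsum_congr
  intro m
  rw [gauss_succ' hx, zpow_add₀ hx, show a - 5 * m - 1 = a - 1 - 5 * m by ring]
  ring

/-- second Pascal rule for the sums -/
lemma S_pascal₂ {x : ℂ} (hx : x ≠ 0) (n : ℕ) (e : ℤ → ℤ) (a : ℤ) :
    S x (n + 1) e a = S x n e (a - 1) + S x n (fun m => e m + (a - 5 * m)) a := by
  rw [S_add, S]
  apply finsum_congr
  intro m
  rw [gauss_succ, zpow_add₀ hx, show a - 5 * m - 1 = a - 1 - 5 * m by ring]
  ring

/-- exponents -/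
def e₁ (m : ℤ) : ℤ := 10 * m ^ 2 + m
def e₂ (m : ℤ) : ℤ := 10 * m ^ 2 + 11 * m + 3
def e₃ (m : ℤ) : ℤ := 10 * m ^ 2 - 3 * m
def e₄ (m : ℤ) : ℤ := 10 * m ^ 2 + 7 * m + 1

lemma S_zero_of {x : ℂ} {e : ℤ → ℤ} {n : ℕ} {a : ℤ} (h : ∀ m : ℤ, a - 5 * m < 0 ∨ (n : ℤ) < a - 5 * m) :
    S x n e a = 0 := by
  rw [S]
  apply finsum_eq_zero_of_forall_eq_zero
  intro m
  rw [gauss_eq_zero (h m), mul_zero]

lemma S_single {x : ℂ} {e : ℤ → ℤ} {n : ℕ} {a : ℤ}
    (h : ∀ m : ℤ, m ≠ 0 → a - 5 * m < 0 ∨ (n : ℤ) < a - 5 * m) :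
    S x n e a = x ^ e 0 * gauss x n a := by
  rw [S, finsum_eq_single _ 0]
  · simp
  · intro m hm
    rw [gauss_eq_zero (h m hm), mul_zero]

/-- Schur's finite identities for the numerators. -/
theorem numA_eq {x : ℂ} (hx : x ≠ 0) (v : ℕ) :
    numA x (2 * v) = S x (2 * v) e₁ v - S x (2 * v) e₂ (v - 3) ∧
    numA x (2 * v + 1) = S x (2 * v + 1) e₁ v - S x (2 * v + 1) e₂ (v - 2) := by
  induction v with
  | zero =>
    constructor
    · rw [S_single (by intro m hm; push_cast; omega), S_zero_of (by intro m; push_cast; omega)]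
      simp [numA, e₁, gauss_zero]
    · rw [S_single (by intro m hm; push_cast; omega), S_zero_of (by intro m; push_cast; omega)]
      simp [numA, e₁, gauss_zero_right]
  | succ v ih =>
    obtain ⟨ih0, ih1⟩ := ih
    have hev : numA x (2 * (v + 1)) =
        S x (2 * (v + 1)) e₁ ((v + 1 : ℕ) : ℤ) - S x (2 * (v + 1)) e₂ (((v + 1 : ℕ) : ℤ) - 3) := by
      rw [show 2 * (v + 1) = 2 * v + 2 by ring, numA_add_two, ih0, ih1]
      have E1 := S_pascal₂ hx (2 * v + 1) e₁ ((v : ℤ) + 1)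
      rw [S_pascal₁ hx (2 * v) _ ((v : ℤ) + 1)] at E1
      have E2 := S_pascal₁ hx (2 * v + 1) e₂ ((v : ℤ) + 1 - 3)
      rw [S_pascal₂ hx (2 * v) _ ((v : ℤ) + 1 - 3 - 1)] at E2
      have M1 := S_mul x hx (n := 2 * v) (e := e₁) (a := v) ((2 * v + 1 : ℕ) : ℤ)
      have M2 := S_mul x hx (n := 2 * v) (e := e₂) (a := (v : ℤ) - 3) ((2 * v + 1 : ℕ) : ℤ)
      have C1 : S x (2 * v) (fun m => e₁ m + ((v : ℤ) + 1 - 5 * m) +
          (((2 * v : ℕ) : ℤ) + 1 - ((v : ℤ) + 1 - 5 * m))) ((v : ℤ) + 1 - 1) =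
          S x (2 * v) (fun m => ((2 * v + 1 : ℕ) : ℤ) + e₁ m) v :=
        S_congr x (by ring) (fun m => by push_cast; ring)
      have C2 : S x (2 * v) (fun m => e₂ m + (((2 * v + 1 : ℕ) : ℤ) + 1 - ((v : ℤ) + 1 - 3 - 5 * m)) +
          ((v : ℤ) + 1 - 3 - 1 - 5 * m)) ((v : ℤ) + 1 - 3 - 1) =
          S x (2 * v) (fun m => ((2 * v + 1 : ℕ) : ℤ) + e₂ m) ((v : ℤ) - 3) :=
        S_congr x (by ring) (fun m => by push_cast; ring)
      have C3 : S x (2 * v) (fun m => e₂ m + (((2 * v + 1 : ℕ) : ℤ) + 1 - ((v : ℤ) + 1 - 3 - 5 * m)))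
          ((v : ℤ) + 1 - 3 - 1 - 1) = S x (2 * v) (fun m => e₁ m + ((v : ℤ) + 1 - 5 * m)) ((v : ℤ) + 1) :=
        S_shift x (by ring) (fun m => by simp only [e₁, e₂]; push_cast; ring)
      have D1 : S x (2 * v + 1) e₁ ((v : ℤ) + 1 - 1) = S x (2 * v + 1) e₁ v :=
        S_congr x (by ring) (fun _ => rfl)
      have D2 : S x (2 * v + 1) e₂ ((v : ℤ) + 1 - 3) = S x (2 * v + 1) e₂ ((v : ℤ) - 2) :=
        S_congr x (by ring) (fun _ => rfl)
      rw [D1, C1] at E1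
      rw [D2, C2, C3] at E2
      have hpow : x ^ (2 * v + 1) = x ^ ((2 * v + 1 : ℕ) : ℤ) := (zpow_natCast x _).symm
      rw [hpow]
      push_cast at *
      rw [show 2 * v + 2 = 2 * v + 1 + 1 by ring, E1, E2]
      linear_combination M1 - M2
    refine ⟨hev, ?_⟩
    rw [show 2 * (v + 1) + 1 = (2 * v + 1) + 2 by ring, numA_add_two, ih1,
      show 2 * v + 1 + 1 = 2 * (v + 1) by ring, hev]
    set w : ℤ := (v : ℤ) + 1 with hw
    have E1 := S_pascal₁ hx (2 * (v + 1)) e₁ w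
    rw [show (2 * (v + 1)) = 2 * v + 1 + 1 by ring,
      S_pascal₂ hx (2 * v + 1) (fun m => e₁ m + (((2 * v + 1 + 1 : ℕ) : ℤ) + 1 - (w - 5 * m)))
        (w - 1)] at E1
    have E2 := S_pascal₂ hx (2 * (v + 1)) e₂ (w - 2)
    rw [show (2 * (v + 1)) = 2 * v + 1 + 1 by ring,
      S_pascal₁ hx (2 * v + 1) (fun m => e₂ m + (w - 2 - 5 * m)) (w - 2)] at E2
    have M1 := S_mul x hx (n := 2 * v + 1) (e := e₁) (a := v) ((2 * v + 1 + 1 : ℕ) : ℤ)
    have M2 := S_mul x hx (n := 2 * v + 1) (e := e₂) (a := (v : ℤ) - 2) ((2 * v + 1 + 1 : ℕ) : ℤ)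
    have C1 : S x (2 * v + 1) (fun m => e₁ m + (((2 * v + 1 + 1 : ℕ) : ℤ) + 1 - (w - 5 * m)) +
        (w - 1 - 5 * m)) (w - 1) = S x (2 * v + 1) (fun m => ((2 * v + 1 + 1 : ℕ) : ℤ) + e₁ m) v :=
      S_congr x (by rw [hw]; ring) (fun m => by rw [hw]; push_cast; ring)
    have C2 : S x (2 * v + 1) (fun m => e₂ m + (w - 2 - 5 * m) +
        (((2 * v + 1 : ℕ) : ℤ) + 1 - (w - 2 - 5 * m))) (w - 2 - 1) =
        S x (2 * v + 1) (fun m => ((2 * v + 1 + 1 : ℕ) : ℤ) + e₂ m) ((v : ℤ) - 2) :=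
      S_congr x (by rw [hw]; ring) (fun m => by rw [hw]; push_cast; ring)
    have C3 : S x (2 * v + 1) (fun m => e₂ m + (w - 2 - 5 * m)) (w - 2) =
        S x (2 * v + 1) (fun m => e₁ m + (((2 * v + 1 + 1 : ℕ) : ℤ) + 1 - (w - 5 * m))) (w - 1 - 1) :=
      S_congr x (by ring) (fun m => by simp only [e₁, e₂]; rw [hw]; push_cast; ring)
    have D2 : S x (2 * v + 1 + 1) e₂ (w - 2 - 1) = S x (2 * v + 1 + 1) e₂ (w - 3) :=
      S_congr x (by ring) (fun _ => rfl)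
    rw [C1] at E1
    rw [D2, C2, C3] at E2
    have hpow : x ^ (2 * v + 1 + 1) = x ^ ((2 * v + 1 + 1 : ℕ) : ℤ) := (zpow_natCast x _).symm
    rw [show 2 * (v + 1) = 2 * v + 1 + 1 by ring, hpow]
    have hw' : (((v + 1 : ℕ)) : ℤ) = w := by rw [hw]; push_cast; ring
    rw [show 2 * v + 1 + 2 = 2 * v + 1 + 1 + 1 by ring, hw', E1, E2]
    linear_combination M1 - M2

end Pool.Agent.MP_1cdd17_nt
end

section
namespace Pool.Agent.MP_1cdd17_nt

open Filter Topology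

/-- Schur's finite identities for the denominators. -/
theorem denB_eq {x : ℂ} (hx : x ≠ 0) (v : ℕ) :
    denB x (2 * v) = S x (2 * v) e₃ (v + 1) - S x (2 * v) e₄ (v - 2) ∧
    denB x (2 * v + 1) = S x (2 * v + 1) e₃ (v + 1) - S x (2 * v + 1) e₄ (v - 1) := by
  induction v with
  | zero =>
    constructor
    · rw [S_zero_of (by intro m; push_cast; omega), S_zero_of (by intro m; push_cast; omega)]
      simp [denB]
    · rw [S_single (by intro m hm; push_cast; omega), S_zero_of (by intro m; push_cast; omega)]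
      have := gauss_self (x := x) 1
      push_cast at this
      simp [denB, e₃, this]
  | succ v ih =>
    obtain ⟨ih0, ih1⟩ := ih
    have hev : denB x (2 * (v + 1)) =
        S x (2 * (v + 1)) e₃ (((v + 1 : ℕ) : ℤ) + 1) -
          S x (2 * (v + 1)) e₄ (((v + 1 : ℕ) : ℤ) - 2) := by
      rw [show 2 * (v + 1) = 2 * v + 2 by ring, denB_add_two, ih0, ih1]
      have E1 := S_pascal₂ hx (2 * v + 1) e₃ ((v : ℤ) + 2)
      rw [S_pascal₁ hx (2 * v) _ ((v : ℤ) + 2)] at E1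
      have E2 := S_pascal₁ hx (2 * v + 1) e₄ ((v : ℤ) + 1 - 2)
      rw [S_pascal₂ hx (2 * v) _ ((v : ℤ) + 1 - 2 - 1)] at E2
      have M1 := S_mul x hx (n := 2 * v) (e := e₃) (a := (v : ℤ) + 1) ((2 * v + 1 : ℕ) : ℤ)
      have M2 := S_mul x hx (n := 2 * v) (e := e₄) (a := (v : ℤ) - 2) ((2 * v + 1 : ℕ) : ℤ)
      have C1 : S x (2 * v) (fun m => e₃ m + ((v : ℤ) + 2 - 5 * m) +
          (((2 * v : ℕ) : ℤ) + 1 - ((v : ℤ) + 2 - 5 * m))) ((v : ℤ) + 2 - 1) =
          S x (2 * v) (fun m => ((2 * v + 1 : ℕ) : ℤ) + e₃ m) ((v : ℤ) + 1) :=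
        S_congr x (by ring) (fun m => by push_cast; ring)
      have C2 : S x (2 * v) (fun m => e₄ m + (((2 * v + 1 : ℕ) : ℤ) + 1 - ((v : ℤ) + 1 - 2 - 5 * m)) +
          ((v : ℤ) + 1 - 2 - 1 - 5 * m)) ((v : ℤ) + 1 - 2 - 1) =
          S x (2 * v) (fun m => ((2 * v + 1 : ℕ) : ℤ) + e₄ m) ((v : ℤ) - 2) :=
        S_congr x (by ring) (fun m => by push_cast; ring)
      have C3 : S x (2 * v) (fun m => e₄ m + (((2 * v + 1 : ℕ) : ℤ) + 1 - ((v : ℤ) + 1 - 2 - 5 * m)))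
          ((v : ℤ) + 1 - 2 - 1 - 1) = S x (2 * v) (fun m => e₃ m + ((v : ℤ) + 2 - 5 * m)) ((v : ℤ) + 2) :=
        S_shift x (by ring) (fun m => by simp only [e₃, e₄]; push_cast; ring)
      have D1 : S x (2 * v + 1) e₃ ((v : ℤ) + 2 - 1) = S x (2 * v + 1) e₃ ((v : ℤ) + 1) :=
        S_congr x (by ring) (fun _ => rfl)
      have D2 : S x (2 * v + 1) e₄ ((v : ℤ) + 1 - 2) = S x (2 * v + 1) e₄ ((v : ℤ) - 1) :=
        S_congr x (by ring) (fun _ => rfl)
      rw [D1, C1] at E1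
      rw [D2, C2, C3] at E2
      have hpow : x ^ (2 * v + 1) = x ^ ((2 * v + 1 : ℕ) : ℤ) := (zpow_natCast x _).symm
      have D3 : S x (2 * v + 1 + 1) e₃ (((v + 1 : ℕ) : ℤ) + 1) =
          S x (2 * v + 1 + 1) e₃ ((v : ℤ) + 2) :=
        S_congr x (by push_cast; ring) (fun _ => rfl)
      have D4 : S x (2 * v + 1 + 1) e₄ (((v + 1 : ℕ) : ℤ) - 2) =
          S x (2 * v + 1 + 1) e₄ ((v : ℤ) + 1 - 2) :=
        S_congr x (by push_cast; ring) (fun _ => rfl)
      rw [hpow, show 2 * v + 2 = 2 * v + 1 + 1 by ring, D3, D4, E1, E2]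
      linear_combination M1 - M2
    refine ⟨hev, ?_⟩
    rw [show 2 * (v + 1) + 1 = (2 * v + 1) + 2 by ring, denB_add_two, ih1,
      show 2 * v + 1 + 1 = 2 * (v + 1) by ring, hev]
    set w : ℤ := (v : ℤ) + 1 with hw
    have E1 := S_pascal₁ hx (2 * (v + 1)) e₃ (w + 1)
    rw [show (2 * (v + 1)) = 2 * v + 1 + 1 by ring,
      S_pascal₂ hx (2 * v + 1) (fun m => e₃ m + (((2 * v + 1 + 1 : ℕ) : ℤ) + 1 - (w + 1 - 5 * m)))
        (w + 1 - 1)] at E1
    have E2 := S_pascal₂ hx (2 * (v + 1)) e₄ (w - 1)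
    rw [show (2 * (v + 1)) = 2 * v + 1 + 1 by ring,
      S_pascal₁ hx (2 * v + 1) (fun m => e₄ m + (w - 1 - 5 * m)) (w - 1)] at E2
    have M1 := S_mul x hx (n := 2 * v + 1) (e := e₃) (a := (v : ℤ) + 1) ((2 * v + 1 + 1 : ℕ) : ℤ)
    have M2 := S_mul x hx (n := 2 * v + 1) (e := e₄) (a := (v : ℤ) - 1) ((2 * v + 1 + 1 : ℕ) : ℤ)
    have C1 : S x (2 * v + 1) (fun m => e₃ m + (((2 * v + 1 + 1 : ℕ) : ℤ) + 1 - (w + 1 - 5 * m)) +
        (w + 1 - 1 - 5 * m)) (w + 1 - 1) =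
        S x (2 * v + 1) (fun m => ((2 * v + 1 + 1 : ℕ) : ℤ) + e₃ m) ((v : ℤ) + 1) :=
      S_congr x (by rw [hw]; ring) (fun m => by rw [hw]; push_cast; ring)
    have C2 : S x (2 * v + 1) (fun m => e₄ m + (w - 1 - 5 * m) +
        (((2 * v + 1 : ℕ) : ℤ) + 1 - (w - 1 - 5 * m))) (w - 1 - 1) =
        S x (2 * v + 1) (fun m => ((2 * v + 1 + 1 : ℕ) : ℤ) + e₄ m) ((v : ℤ) - 1) :=
      S_congr x (by rw [hw]; ring) (fun m => by rw [hw]; push_cast; ring)
    have C3 : S x (2 * v + 1) (fun m => e₄ m + (w - 1 - 5 * m)) (w - 1) =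
        S x (2 * v + 1) (fun m => e₃ m + (((2 * v + 1 + 1 : ℕ) : ℤ) + 1 - (w + 1 - 5 * m)))
          (w + 1 - 1 - 1) :=
      S_congr x (by ring) (fun m => by simp only [e₃, e₄]; rw [hw]; push_cast; ring)
    have D2 : S x (2 * v + 1 + 1) e₄ (w - 1 - 1) = S x (2 * v + 1 + 1) e₄ (w - 2) :=
      S_congr x (by ring) (fun _ => rfl)
    rw [C1] at E1
    rw [D2, C2, C3] at E2
    have hpow : x ^ (2 * v + 1 + 1) = x ^ ((2 * v + 1 + 1 : ℕ) : ℤ) := (zpow_natCast x _).symm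
    rw [show 2 * (v + 1) = 2 * v + 1 + 1 by ring, hpow]
    have hw' : (((v + 1 : ℕ)) : ℤ) = w := by rw [hw]; push_cast; ring
    rw [show 2 * v + 1 + 2 = 2 * v + 1 + 1 + 1 by ring, hw', E1, E2]
    linear_combination M1 - M2

end Pool.Agent.MP_1cdd17_nt
end

section
namespace Pool.Agent.MP_1cdd17_nt

open Filter Topology Finset

/-- The sum of the absolute values of the Gaussian binomials in row `n`. -/
noncomputable def R (x : ℂ) (n : ℕ) : ℝ := ∑ k ∈ range (n + 1), ‖gauss x n k‖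

lemma norm_S_le {x : ℂ} (hx : ‖x‖ = 1) (n : ℕ) (e : ℤ → ℤ) (a : ℤ) : ‖S x n e a‖ ≤ R x n := by
  classical
  set T : Finset ℤ := Finset.Icc (-(n + |a|) : ℤ) (n + |a|) with hT
  have hsupp : (Function.support fun m : ℤ => x ^ e m * gauss x n (a - 5 * m)) ⊆ ↑T := by
    intro m hm
    have h1 : gauss x n (a - 5 * m) ≠ 0 := by
      intro h; apply hm; simp [h]
    have h2 : ¬ (a - 5 * m < 0 ∨ (n : ℤ) < a - 5 * m) := fun h => h1 (gauss_eq_zero h)
    push Not at h2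
    have h3 := abs_nonneg a
    have h4 := le_abs_self a
    have h5 := neg_abs_le a
    rw [hT, Finset.coe_Icc]
    constructor <;> omega
  rw [S, finsum_eq_sum_of_support_subset _ hsupp]
  refine (norm_sum_le _ _).trans ?_
  have h1 : ∀ m ∈ T, ‖x ^ e m * gauss x n (a - 5 * m)‖ = ‖gauss x n (a - 5 * m)‖ := by
    intro m _
    rw [norm_mul, norm_zpow, hx, one_zpow, one_mul]
  rw [Finset.sum_congr rfl h1]
  have hinj : Set.InjOn (fun m : ℤ => a - 5 * m) (T : Set ℤ) := by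
    intro m _ m' _ h
    simp only at h
    omega
  rw [← Finset.sum_image (f := fun k => ‖gauss x n k‖) (g := fun m : ℤ => a - 5 * m) hinj]
  set U : Finset ℤ := (range (n + 1)).image (fun k : ℕ => (k : ℤ)) with hU
  have hRU : R x n = ∑ k ∈ U, ‖gauss x n k‖ := by
    rw [hU, Finset.sum_image (by intro a _ b _ h; simpa using h)]
    rfl
  rw [hRU, ← Finset.sum_filter_add_sum_filter_not (T.image fun m : ℤ => a - 5 * m) (fun k => k ∈ U)]
  have h2 : ∑ k ∈ (T.image fun m : ℤ => a - 5 * m) with ¬ k ∈ U, ‖gauss x n k‖ = 0 := by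
    apply Finset.sum_eq_zero
    intro k hk
    rw [Finset.mem_filter] at hk
    rw [gauss_eq_zero, norm_zero]
    by_contra hcon
    push Not at hcon
    apply hk.2
    rw [hU, Finset.mem_image]
    exact ⟨k.toNat, by rw [Finset.mem_range]; omega, by omega⟩
  rw [h2, add_zero]
  apply Finset.sum_le_sum_of_subset_of_nonneg
  · intro k hk
    exact (Finset.mem_filter.1 hk).2
  · intros; exact norm_nonneg _

lemma ne_zero_of_norm_one {x : ℂ} (hx : ‖x‖ = 1) : x ≠ 0 := by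
  rintro rfl; simp at hx

lemma norm_numA_le {x : ℂ} (hx : ‖x‖ = 1) (n : ℕ) : ‖numA x n‖ ≤ 2 * R x n := by
  have h0 := ne_zero_of_norm_one hx
  obtain ⟨v, rfl | rfl⟩ := Nat.even_or_odd' n
  · rw [(numA_eq h0 v).1]
    refine (norm_sub_le _ _).trans ?_
    linarith [norm_S_le hx (2 * v) e₁ v, norm_S_le hx (2 * v) e₂ (v - 3)]
  · rw [(numA_eq h0 v).2]
    refine (norm_sub_le _ _).trans ?_
    linarith [norm_S_le hx (2 * v + 1) e₁ v, norm_S_le hx (2 * v + 1) e₂ (v - 2)]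

lemma norm_denB_le {x : ℂ} (hx : ‖x‖ = 1) (n : ℕ) : ‖denB x n‖ ≤ 2 * R x n := by
  have h0 := ne_zero_of_norm_one hx
  obtain ⟨v, rfl | rfl⟩ := Nat.even_or_odd' n
  · rw [(denB_eq h0 v).1]
    refine (norm_sub_le _ _).trans ?_
    linarith [norm_S_le hx (2 * v) e₃ (v + 1), norm_S_le hx (2 * v) e₄ (v - 2)]
  · rw [(denB_eq h0 v).2]
    refine (norm_sub_le _ _).trans ?_
    linarith [norm_S_le hx (2 * v + 1) e₃ (v + 1), norm_S_le hx (2 * v + 1) e₄ (v - 1)]

lemma R_succ_le {x : ℂ} (hx : ‖x‖ = 1) (n : ℕ) : R x (n + 1) ≤ 2 * R x n := by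
  have h1 : R x (n + 1) ≤ ∑ k ∈ range (n + 2), (‖gauss x n ((k : ℤ) - 1)‖ + ‖gauss x n k‖) := by
    apply Finset.sum_le_sum
    intro k _
    rw [gauss_succ]
    refine (norm_add_le _ _).trans ?_
    rw [norm_mul, norm_zpow, hx, one_zpow, one_mul]
  rw [Finset.sum_add_distrib] at h1
  have h2 : ∑ k ∈ range (n + 2), ‖gauss x n ((k : ℤ) - 1)‖ = R x n := by
    rw [Finset.sum_range_succ', R]
    have : gauss x n (((0 : ℕ) : ℤ) - 1) = 0 := gauss_eq_zero (by left; norm_num)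
    rw [this, norm_zero, add_zero]
    apply Finset.sum_congr rfl
    intro k _
    push_cast
    rw [add_sub_cancel_right]
  have h3 : ∑ k ∈ range (n + 2), ‖gauss x n k‖ = R x n := by
    rw [Finset.sum_range_succ, R]
    have : gauss x n ((n + 1 : ℕ) : ℤ) = 0 := gauss_eq_zero (by right; push_cast; omega)
    rw [this, norm_zero, add_zero]
  rw [h2, h3] at h1
  linarith

/-- If the row sums of the absolute values of the Gaussian binomials are bounded along a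
subsequence, then the continued fraction diverges. -/
theorem not_converges_of_R {x : ℂ} (hx : ‖x‖ = 1) {C : ℝ} (h : ∃ᶠ n in atTop, R x n ≤ C) :
    ¬ Converges x := by
  apply not_converges_of_frequently_bounded hx (C := 4 * C)
  refine h.mono fun n hn => ?_
  have hR0 : 0 ≤ R x n := Finset.sum_nonneg fun _ _ => norm_nonneg _
  have h1 := norm_numA_le hx n
  have h2 := norm_denB_le hx n
  have h3 := norm_numA_le hx (n + 1)
  have h4 := norm_denB_le hx (n + 1)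
  have h5 := R_succ_le hx n
  refine ⟨?_, ?_, ?_, ?_⟩ <;> linarith

lemma one_sub_mul_gauss_succ {x : ℂ} (hx : x ≠ 0) (n : ℕ) (k : ℤ) :
    (1 - x ^ k) * gauss x (n + 1) k = (1 - x ^ ((n : ℤ) + 1)) * gauss x n (k - 1) := by
  have h1 := gauss_succ x n k
  have h2 := gauss_succ' hx n k
  have h3 : x ^ k * x ^ ((n : ℤ) + 1 - k) = x ^ ((n : ℤ) + 1) := by
    rw [← zpow_add₀ hx]; congr 1; ring
  linear_combination h1 - x ^ k * h2 - gauss x n (k - 1) * h3

lemma one_sub_mul_gauss {x : ℂ} (hx : x ≠ 0) (n : ℕ) (k : ℤ) :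
    (1 - x ^ k) * gauss x n k = (1 - x ^ ((n : ℤ) + 1 - k)) * gauss x n (k - 1) := by
  have h1 := gauss_succ x n k
  have h2 := gauss_succ' hx n k
  linear_combination h1 - h2

/-- The quantity `‖1 - x^d‖ ∑_{0<i<d} 1/‖1 - x^i‖`. -/
noncomputable def smallSum (x : ℂ) (d : ℕ) : ℝ :=
  ∑ i ∈ Ico 1 d, ‖1 - x ^ d‖ / ‖1 - x ^ i‖

lemma norm_gauss_pred_le {x : ℂ} (hx : ‖x‖ = 1) (d : ℕ) (hroot : ∀ i, 0 < i → x ^ i ≠ 1)
    (k : ℕ) (hk : k ≤ d) :
    ‖gauss x d k‖ ≤ ∏ i ∈ Ico 1 (k + 1), (1 + ‖1 - x ^ (d + 1)‖ / ‖1 - x ^ i‖) := by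
  have h0 := ne_zero_of_norm_one hx
  induction k with
  | zero => simp [gauss_zero_right]
  | succ k ih =>
    have ih' := ih (by omega)
    have hne : 0 < ‖1 - x ^ (k + 1)‖ := by
      rw [norm_pos_iff, sub_ne_zero]
      exact (hroot (k + 1) (by omega)).symm
    have h1 := one_sub_mul_gauss h0 d ((k + 1 : ℕ) : ℤ)
    have h2 : ((k + 1 : ℕ) : ℤ) - 1 = k := by push_cast; ring
    rw [h2, zpow_natCast] at h1
    have h3 : ‖gauss x d ((k + 1 : ℕ) : ℤ)‖ =
        ‖1 - x ^ ((d : ℤ) + 1 - ((k + 1 : ℕ) : ℤ))‖ / ‖1 - x ^ (k + 1)‖ * ‖gauss x d k‖ := by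
      have := congrArg norm h1
      rw [norm_mul, norm_mul] at this
      field_simp
      linarith
    have h4 : ‖1 - x ^ ((d : ℤ) + 1 - ((k + 1 : ℕ) : ℤ))‖ ≤ ‖1 - x ^ (k + 1)‖ + ‖1 - x ^ (d + 1)‖ := by
      have e : x ^ ((d : ℤ) + 1 - ((k + 1 : ℕ) : ℤ)) * x ^ (k + 1) = x ^ (d + 1) := by
        rw [← zpow_natCast x (k + 1), ← zpow_add₀ h0, ← zpow_natCast x (d + 1)]
        congr 1; push_cast; ring
      have e2 : (1 - x ^ ((d : ℤ) + 1 - ((k + 1 : ℕ) : ℤ))) * x ^ (k + 1) =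
          (1 - x ^ (d + 1)) - (1 - x ^ (k + 1)) := by
        rw [sub_mul, e]; ring
      have e3 : ‖1 - x ^ ((d : ℤ) + 1 - ((k + 1 : ℕ) : ℤ))‖ =
          ‖(1 - x ^ (d + 1)) - (1 - x ^ (k + 1))‖ := by
        rw [← e2, norm_mul, norm_pow, hx, one_pow, mul_one]
      rw [e3]
      linarith [norm_sub_le (1 - x ^ (d + 1)) (1 - x ^ (k + 1))]
    rw [Finset.prod_Ico_succ_top (by omega : 1 ≤ k + 1), h3, mul_comm]
    apply mul_le_mul ih' _ (by positivity) (Finset.prod_nonneg fun _ _ => by positivity)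
    rw [div_le_iff₀ hne, add_mul, div_mul_cancel₀ _ hne.ne']
    linarith

lemma R_le {x : ℂ} (hx : ‖x‖ = 1) (hroot : ∀ i, 0 < i → x ^ i ≠ 1) (d : ℕ) (hd : 0 < d) :
    R x d ≤ 2 + smallSum x d * Real.exp (smallSum x d) := by
  obtain ⟨d, rfl⟩ := Nat.exists_eq_succ_of_ne_zero hd.ne'
  rw [Nat.succ_eq_add_one]
  have h0 := ne_zero_of_norm_one hx
  have hterm0 : ∀ i ∈ Ico 1 (d + 1), 0 ≤ ‖1 - x ^ (d + 1)‖ / ‖1 - x ^ i‖ := fun i _ => by positivity
  have hs0 : 0 ≤ smallSum x (d + 1) := Finset.sum_nonneg hterm0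
  have hprod : ∀ k ≤ d, ‖gauss x d k‖ ≤ Real.exp (smallSum x (d + 1)) := by
    intro k hk
    refine (norm_gauss_pred_le hx d hroot k hk).trans ?_
    have h1 : ∏ i ∈ Ico 1 (k + 1), (1 + ‖1 - x ^ (d + 1)‖ / ‖1 - x ^ i‖) ≤
        ∏ i ∈ Ico 1 (k + 1), Real.exp (‖1 - x ^ (d + 1)‖ / ‖1 - x ^ i‖) := by
      apply Finset.prod_le_prod
      · intro i _; positivity
      · intro i _
        linarith [Real.add_one_le_exp (‖1 - x ^ (d + 1)‖ / ‖1 - x ^ i‖)]
    refine h1.trans ?_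
    rw [← Real.exp_sum]
    apply Real.exp_le_exp.2
    apply Finset.sum_le_sum_of_subset_of_nonneg
    · apply Finset.Ico_subset_Ico_right; omega
    · intro i hi _; exact hterm0 i hi
  have hmid : ∀ k ∈ Ico 1 (d + 1), ‖gauss x (d + 1) k‖ ≤
      ‖1 - x ^ (d + 1)‖ / ‖1 - x ^ k‖ * Real.exp (smallSum x (d + 1)) := by
    intro k hk
    rw [Finset.mem_Ico] at hk
    have hne : 0 < ‖1 - x ^ k‖ := by
      rw [norm_pos_iff, sub_ne_zero]
      exact (hroot k (by omega)).symm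
    have h1 := one_sub_mul_gauss_succ h0 d (k : ℤ)
    obtain ⟨j, rfl⟩ : ∃ j, k = j + 1 := ⟨k - 1, by omega⟩
    have h2 : (((j + 1 : ℕ)) : ℤ) - 1 = j := by push_cast; ring
    rw [h2, zpow_natCast, show ((d : ℤ) + 1) = ((d + 1 : ℕ) : ℤ) by push_cast; ring,
      zpow_natCast] at h1
    have h3 : ‖gauss x (d + 1) ((j + 1 : ℕ) : ℤ)‖ =
        ‖1 - x ^ (d + 1)‖ / ‖1 - x ^ (j + 1)‖ * ‖gauss x d j‖ := by
      have := congrArg norm h1
      rw [norm_mul, norm_mul] at this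
      field_simp
      linarith
    rw [h3]
    exact mul_le_mul_of_nonneg_left (hprod j (by omega)) (by positivity)
  rw [R, Finset.sum_range_succ, Finset.sum_range_eq_add_Ico _ (by omega : 0 < d + 1)]
  have e0 : gauss x (d + 1) ((0 : ℕ) : ℤ) = 1 := by
    simpa using gauss_zero_right (x := x) (d + 1)
  have e1 : gauss x (d + 1) ((d + 1 : ℕ) : ℤ) = 1 := gauss_self (x := x) (d + 1)
  rw [e0, e1, norm_one]
  have hsum : ∑ k ∈ Ico 1 (d + 1), ‖gauss x (d + 1) k‖ ≤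
      smallSum x (d + 1) * Real.exp (smallSum x (d + 1)) := by
    refine (Finset.sum_le_sum hmid).trans ?_
    rw [smallSum, Finset.sum_mul]
  linarith

/-- If `‖1 - x^d‖ ∑_{0<i<d} 1/‖1 - x^i‖` is bounded along a subsequence, then the continued
fraction diverges at `x`. -/
theorem not_converges_of_smallSum {x : ℂ} (hx : ‖x‖ = 1) (hroot : ∀ i, 0 < i → x ^ i ≠ 1) {C : ℝ}
    (h : ∃ᶠ d in atTop, smallSum x d ≤ C) : ¬ Converges x := by
  have h' : ∃ᶠ d in atTop, R x d ≤ 2 + C * Real.exp C := by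
    refine (h.and_eventually (eventually_gt_atTop 0)).mono ?_
    rintro d ⟨h1, h2⟩
    refine (R_le hx hroot d h2).trans ?_
    have h0 : 0 ≤ smallSum x d := Finset.sum_nonneg fun _ _ => by positivity
    have : smallSum x d * Real.exp (smallSum x d) ≤ C * Real.exp C :=
      mul_le_mul h1 (Real.exp_le_exp.2 h1) (Real.exp_pos _).le (h0.trans h1)
    linarith
  exact not_converges_of_R hx h'

end Pool.Agent.MP_1cdd17_nt
end

section
namespace Pool.Agent.MP_1cdd17_nt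

open Filter Topology Finset

/-- The point `e^{2πit}` of the unit circle. -/
noncomputable def e (t : ℝ) : ℂ := Complex.exp (2 * Real.pi * t * Complex.I)

lemma norm_e (t : ℝ) : ‖e t‖ = 1 := by
  rw [e, show (2 * Real.pi * t * Complex.I : ℂ) = ((2 * Real.pi * t : ℝ) : ℂ) * Complex.I by
    push_cast; ring]
  exact Complex.norm_exp_ofReal_mul_I _

lemma e_pow (t : ℝ) (n : ℕ) : e t ^ n = e (n * t) := by
  rw [e, e, ← Complex.exp_nat_mul]
  congr 1; push_cast; ring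

lemma e_sub_int (t : ℝ) (m : ℤ) : e (t - m) = e t := by
  rw [e, e, Complex.exp_eq_exp_iff_exists_int]
  exact ⟨-m, by push_cast; ring⟩

lemma norm_one_sub_e (y : ℝ) : ‖1 - e y‖ = 2 * |Real.sin (Real.pi * y)| := by
  rw [norm_sub_rev, e, show (2 * Real.pi * y * Complex.I : ℂ) =
    Complex.I * ((2 * Real.pi * y : ℝ) : ℂ) by push_cast; ring,
    Complex.norm_exp_I_mul_ofReal_sub_one, norm_mul, Real.norm_eq_abs, Real.norm_eq_abs,
    show 2 * Real.pi * y / 2 = Real.pi * y by ring, abs_of_pos (by norm_num : (0 : ℝ) < 2)]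

lemma norm_one_sub_e_le (y : ℝ) (m : ℤ) : ‖1 - e y‖ ≤ 2 * Real.pi * |y - m| := by
  rw [← e_sub_int y m, norm_one_sub_e]
  have := Real.abs_sin_le_abs (x := Real.pi * (y - m))
  rw [abs_mul, abs_of_pos Real.pi_pos] at this
  linarith

/-- lower bound in terms of the distance to the ends of a unit interval -/
lemma le_norm_one_sub_e {y : ℝ} {a : ℝ} (m : ℤ) (h0 : m + a ≤ y) (h1 : y ≤ m + 1 - a) (ha : 0 ≤ a) :
    4 * a ≤ ‖1 - e y‖ := by
  rw [← e_sub_int y m, norm_one_sub_e]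
  set z := y - m with hz
  have hz0 : a ≤ z := by linarith
  have hz1 : z ≤ 1 - a := by linarith
  have hpi := Real.pi_pos
  rcases le_total z (1 / 2) with h | h
  · have h2 := Real.mul_le_sin (x := Real.pi * z) (by nlinarith) (by nlinarith)
    have h3 : 2 / Real.pi * (Real.pi * z) = 2 * z := by field_simp
    rw [h3] at h2
    have h4 := le_abs_self (Real.sin (Real.pi * z))
    linarith
  · have h2 := Real.mul_le_sin (x := Real.pi * (1 - z)) (by nlinarith) (by nlinarith)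
    have h3 : 2 / Real.pi * (Real.pi * (1 - z)) = 2 * (1 - z) := by field_simp
    rw [h3] at h2
    have h5 : Real.sin (Real.pi * (1 - z)) = Real.sin (Real.pi * z) := by
      rw [show Real.pi * (1 - z) = Real.pi - Real.pi * z by ring, Real.sin_pi_sub]
    have h4 := le_abs_self (Real.sin (Real.pi * z))
    linarith

lemma inv_norm_le {t : ℝ} {c d i : ℕ} (hd : 0 < d) (hcop : Nat.Coprime c d)
    (ht : |t - c / d| ≤ 1 / (2 * d ^ 2)) (hi : i ∈ Ico 1 d) :
    1 / ‖1 - e t ^ i‖ ≤ d / 2 * (1 / ((i * c % d : ℕ) : ℝ) + 1 / ((d : ℝ) - ((i * c % d : ℕ) : ℝ))) := by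
  rw [Finset.mem_Ico] at hi
  have hdR : (0 : ℝ) < d := by exact_mod_cast hd
  set r := i * c % d with hr
  have hrd : r < d := Nat.mod_lt _ hd
  have hr0 : r ≠ 0 := by
    intro h0
    have h1 : d ∣ i * c := Nat.dvd_of_mod_eq_zero h0
    have h2 : d ∣ i := Nat.Coprime.dvd_of_dvd_mul_right hcop.symm h1
    exact absurd (Nat.le_of_dvd (by omega) h2) (by omega)
  have hr1 : (1 : ℝ) ≤ r := by exact_mod_cast Nat.one_le_iff_ne_zero.2 hr0
  have hr2 : (r : ℝ) ≤ d - 1 := by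
    have : r + 1 ≤ d := hrd
    have : ((r : ℝ) + 1) ≤ d := by exact_mod_cast this
    linarith
  have hdiv : ((i * c : ℕ) : ℝ) = d * ((i * c / d : ℕ) : ℝ) + r := by
    exact_mod_cast (Nat.div_add_mod (i * c) d).symm
  set q := i * c / d with hq
  have hiR : (1 : ℝ) ≤ i := by exact_mod_cast hi.1
  have hid : (i : ℝ) ≤ d := by exact_mod_cast hi.2.le
  have habs : |i * t - (q + r / d)| ≤ 1 / (2 * d) := by
    have h1 : (i : ℝ) * t - (q + r / d) = i * (t - c / d) := by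
      have : (q : ℝ) + r / d = i * c / d := by
        field_simp
        push_cast at hdiv
        linarith
      rw [this]; ring
    rw [h1, abs_mul, abs_of_pos (by linarith : (0 : ℝ) < i)]
    calc (i : ℝ) * |t - c / d| ≤ d * (1 / (2 * d ^ 2)) :=
          mul_le_mul hid ht (abs_nonneg _) hdR.le
      _ = 1 / (2 * d) := by field_simp
  rw [abs_le] at habs
  set μ := min (r : ℝ) (d - r) with hμ
  have hμ1 : 1 ≤ μ := by rw [hμ]; apply le_min hr1; linarith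
  have key := le_norm_one_sub_e (y := i * t) (a := μ / (2 * d)) q (by
    have h1 : μ ≤ r := min_le_left _ _
    have h2 : μ / (2 * d) + 1 / (2 * d) ≤ r / d := by
      rw [← add_div, div_le_div_iff₀ (by positivity) hdR]
      nlinarith
    push_cast
    linarith [habs.1]) (by
    have h1 : μ ≤ d - r := min_le_right _ _
    have h2 : μ / (2 * d) + 1 / (2 * d) ≤ (d - r) / d := by
      rw [← add_div, div_le_div_iff₀ (by positivity) hdR]
      nlinarith
    have h3 : ((d : ℝ) - r) / d = 1 - r / d := by field_simp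
    push_cast
    linarith [habs.2]) (by positivity)
  rw [e_pow]
  have h4 : 4 * (μ / (2 * d)) = 2 * μ / d := by field_simp; norm_num
  rw [h4] at key
  have hμ0 : 0 < μ := by linarith
  calc 1 / ‖1 - e (i * t)‖ ≤ 1 / (2 * μ / d) := one_div_le_one_div_of_le (by positivity) key
    _ = d / 2 * (1 / μ) := by field_simp
    _ ≤ d / 2 * (1 / (r : ℝ) + 1 / ((d : ℝ) - r)) := by
        apply mul_le_mul_of_nonneg_left _ (by positivity)
        rcases min_choice (r : ℝ) ((d : ℝ) - r) with h | h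
        · rw [hμ, h]
          have : 0 ≤ 1 / ((d : ℝ) - r) := by
            apply div_nonneg (by norm_num); linarith
          linarith
        · rw [hμ, h]
          have : 0 ≤ 1 / (r : ℝ) := by positivity
          linarith

lemma sum_inv_norm_le {t : ℝ} {c d : ℕ} (hd : 0 < d) (hcop : Nat.Coprime c d)
    (ht : |t - c / d| ≤ 1 / (2 * d ^ 2)) :
    ∑ i ∈ Ico 1 d, 1 / ‖1 - e t ^ i‖ ≤ d * (1 + Real.log d) := by
  have h1 := Finset.sum_le_sum fun i hi => inv_norm_le hd hcop ht hi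
  refine h1.trans ?_
  have hbij : ∑ i ∈ Ico 1 d, ((d : ℝ) / 2 * (1 / ((i * c % d : ℕ) : ℝ) +
      1 / ((d : ℝ) - ((i * c % d : ℕ) : ℝ)))) =
      ∑ r ∈ Ico 1 d, ((d : ℝ) / 2 * (1 / (r : ℝ) + 1 / ((d : ℝ) - (r : ℝ)))) := by
    have hmaps : ∀ i ∈ Ico 1 d, i * c % d ∈ Ico 1 d := by
      intro i hi
      rw [Finset.mem_Ico] at hi ⊢
      refine ⟨?_, Nat.mod_lt _ hd⟩
      rw [Nat.one_le_iff_ne_zero]
      intro h0
      have h1 : d ∣ i * c := Nat.dvd_of_mod_eq_zero h0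
      have h2 : d ∣ i := Nat.Coprime.dvd_of_dvd_mul_right hcop.symm h1
      exact absurd (Nat.le_of_dvd (by omega) h2) (by omega)
    have hinj : Set.InjOn (fun i => i * c % d) (Ico 1 d : Finset ℕ) := by
      intro i hi j hj hij
      have hi' := Finset.mem_Ico.1 (Finset.mem_coe.1 hi)
      have hj' := Finset.mem_Ico.1 (Finset.mem_coe.1 hj)
      have h : i * c ≡ j * c [MOD d] := hij
      have h2 := Nat.ModEq.cancel_right_of_coprime (by rwa [Nat.coprime_comm] at hcop) h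
      have := Nat.ModEq.eq_of_lt_of_lt h2 hi'.2 hj'.2
      exact this
    apply Finset.sum_nbij (fun i => i * c % d) hmaps hinj
    · exact Finset.surjOn_of_injOn_of_card_le _ hmaps hinj le_rfl
    · intro i _; rfl
  rw [hbij, ← Finset.mul_sum, Finset.sum_add_distrib]
  have hrefl : ∑ r ∈ Ico 1 d, 1 / ((d : ℝ) - (r : ℝ)) = ∑ r ∈ Ico 1 d, 1 / (r : ℝ) := by
    have := Finset.sum_Ico_reflect (fun r : ℕ => 1 / (r : ℝ)) 1 (m := d) (n := d) (by omega)
    rw [show d + 1 - d = 1 by omega, show d + 1 - 1 = d by omega] at this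
    rw [← this]
    apply Finset.sum_congr rfl
    intro r hr
    rw [Finset.mem_Ico] at hr
    rw [Nat.cast_sub hr.2.le]
  rw [hrefl]
  have hharm : ∑ r ∈ Ico 1 d, 1 / (r : ℝ) ≤ 1 + Real.log d := by
    have h2 := harmonic_le_one_add_log d
    have h3 : ∑ r ∈ Ico 1 d, 1 / (r : ℝ) ≤ (harmonic d : ℝ) := by
      rw [harmonic_eq_sum_Icc]
      push_cast
      simp only [one_div]
      apply Finset.sum_le_sum_of_subset_of_nonneg
      · intro r hr
        rw [Finset.mem_Ico] at hr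
        rw [Finset.mem_Icc]; omega
      · intros; positivity
    linarith
  have hdR : (0 : ℝ) < d := by exact_mod_cast hd
  nlinarith

lemma smallSum_le {t : ℝ} {c d : ℕ} (hd : 0 < d) (hcop : Nat.Coprime c d)
    (ht : |t - c / d| ≤ 1 / (2 * d ^ 2)) :
    smallSum (e t) d ≤ 2 * Real.pi * |t - c / d| * d ^ 2 * (1 + Real.log d) := by
  have h1 : smallSum (e t) d = ‖1 - e t ^ d‖ * ∑ i ∈ Ico 1 d, 1 / ‖1 - e t ^ i‖ := by
    rw [smallSum, Finset.mul_sum]
    apply Finset.sum_congr rfl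
    intro i _; ring
  have hdR : (0 : ℝ) < d := by exact_mod_cast hd
  have h2 : ‖1 - e t ^ d‖ ≤ 2 * Real.pi * (d * |t - c / d|) := by
    rw [e_pow]
    refine (norm_one_sub_e_le (d * t) c).trans ?_
    have : (d : ℝ) * t - ((c : ℤ) : ℝ) = d * (t - c / d) := by push_cast; field_simp
    rw [this, abs_mul, abs_of_pos hdR]
  rw [h1]
  calc ‖1 - e t ^ d‖ * ∑ i ∈ Ico 1 d, 1 / ‖1 - e t ^ i‖
      ≤ 2 * Real.pi * (d * |t - c / d|) * (d * (1 + Real.log d)) := by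
        apply mul_le_mul h2 (sum_inv_norm_le hd hcop ht)
          (Finset.sum_nonneg fun _ _ => by positivity) (by have := Real.pi_pos; positivity)
    _ = _ := by ring

lemma e_pow_ne_one {t : ℝ} (ht : Irrational t) (i : ℕ) (hi : 0 < i) : e t ^ i ≠ 1 := by
  rw [e_pow]
  intro h
  rw [e, Complex.exp_eq_one_iff] at h
  obtain ⟨m, hm⟩ := h
  have h2 : (2 * Real.pi * Complex.I : ℂ) ≠ 0 := by
    simp [Real.pi_ne_zero, Complex.I_ne_zero]
  have h3 : ((i * t : ℝ) : ℂ) = (m : ℝ) := by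
    have : (2 * Real.pi * Complex.I : ℂ) * ((i * t : ℝ) : ℂ) =
        (2 * Real.pi * Complex.I : ℂ) * (m : ℝ) := by
      push_cast at hm ⊢
      linear_combination hm
    exact mul_left_cancel₀ h2 this
  have h4 : (i : ℝ) * t = m := by exact_mod_cast h3
  have h5 : Irrational ((i : ℝ) * t) := ht.natCast_mul hi.ne'
  exact h5 ⟨m, by rw [h4]; push_cast; rfl⟩

/-- If `t` is irrational and `|t - c/d| ≤ C / (d^2 (1 + log d))` has infinitely many coprime
solutions, then the continued fraction diverges at `e^{2πit}`. -/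
theorem not_converges_of_approx {t : ℝ} (ht : Irrational t) {C : ℝ}
    (h : ∃ᶠ d : ℕ in atTop, ∃ c : ℕ, Nat.Coprime c d ∧
      |t - c / d| ≤ 1 / (2 * d ^ 2) ∧ |t - c / d| * (d ^ 2 * (1 + Real.log d)) ≤ C) :
    ¬ Converges (e t) := by
  apply not_converges_of_smallSum (norm_e t) (e_pow_ne_one ht) (C := 2 * Real.pi * C)
  refine (h.and_eventually (eventually_gt_atTop 0)).mono ?_
  rintro d ⟨⟨c, hcop, h1, h2⟩, hd⟩
  refine (smallSum_le hd hcop h1).trans ?_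
  have := Real.pi_pos
  calc 2 * Real.pi * |t - c / d| * d ^ 2 * (1 + Real.log d)
      = 2 * Real.pi * (|t - c / d| * (d ^ 2 * (1 + Real.log d))) := by ring
    _ ≤ 2 * Real.pi * C := mul_le_mul_of_nonneg_left h2 (by positivity)

end Pool.Agent.MP_1cdd17_nt
end

section
namespace Pool.Agent.MP_1cdd17_nt

open Finset

/-- The symmetric Gaussian binomial `{q; m}` at `x = e^{2πiα}`. -/
noncomputable def sinBinom (α : ℝ) (q m : ℕ) : ℝ :=
  ∏ l ∈ Icc 1 m, Real.sin (Real.pi * ((q : ℝ) - m + l) * α) / Real.sin (Real.pi * l * α)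

/-- The analytic statement needed for the divergence at every irrational point. -/
def MainLemma : Prop :=
  ∀ c : ℝ, 0 < c → ∃ C : ℝ, ∀ (α : ℝ) (p : ℤ) (q : ℕ) (κ : ℝ), Irrational α → 1 ≤ q → 0 < κ →
    (q : ℝ) * |q * α - p| ≤ 1 →
    (∀ m : ℕ, 1 ≤ m → m < q → |q * α - p| < |m * α - round ((m : ℝ) * α)|) →
    c * ((q : ℝ) * |q * α - p|) ≤ κ →
    (∀ m : ℕ, 1 ≤ m → m < q → κ ≤ m * |m * α - round ((m : ℝ) * α)|) →
    ∀ (θ : ℝ) (m₀ i₀ i₁ : ℤ),
      (∀ i ∈ Icc i₀ i₁, 1 ≤ m₀ + 5 * i ∧ m₀ + 5 * i ≤ (q : ℤ) - 1) →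
      ‖∑ i ∈ Icc i₀ i₁, e (-(5 / 2) * α * (i : ℝ) ^ 2 + θ * i) *
        (sinBinom α q (m₀ + 5 * i).toNat : ℂ)‖ ≤ C

end Pool.Agent.MP_1cdd17_nt
end

section
set_option autoImplicit false

/-! The main lemma. -/

namespace Pool.Agent.Lib.MP_1cdd17_nt

open Real Finset

variable {α : ℝ} {p : ℤ} {q : ℕ} {κ : ℝ}

/-- The uniform constant bounding `hh`. -/
lemma hh_uniform (h : Good α p q κ) (hq2 : 2 ≤ q) (m : ℕ) (hm : m < q) :
    hh α (q * α - p) m ≤ exp (636 * π * ((q * |q * α - p|) * (1 + log (1 / κ)))) := by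
  have hκ := h.κpos
  have hκ2 : κ ≤ 1 / 2 := h.κ_le_half hq2
  have hq' : (0 : ℝ) < q := by exact_mod_cast h.qpos
  have hΛ : 0 ≤ log (1 / κ) := Real.log_nonneg (by rw [le_div_iff₀ hκ]; linarith)
  have h1 := hh_le (α := α) (ε := q * α - p) (m := m) (fun l h1 h2 => h.best l h1 (by omega))
  have h2 := cot_sum_bound h.irr hκ (by linarith) h.lower m hm.le (1 / (2 * (q : ℝ)))
    (by positivity) (fun l h1 h2 => h.half_le h1 (by omega))
  have hm' : (m : ℝ) ≤ q := by exact_mod_cast hm.le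
  refine h1.trans (exp_le_exp.2 ?_)
  calc π * |(q : ℝ) * α - p| * |∑ l ∈ Ico 1 m, ct ((l : ℝ) * α)|
      ≤ π * |(q : ℝ) * α - p| * (106 * (1 + log (1 / κ)) * (1 / (1 / (2 * (q : ℝ))) + 4 * q)) := by
        apply mul_le_mul_of_nonneg_left _ (by positivity)
        refine h2.trans ?_
        gcongr
    _ = _ := by rw [one_div_one_div]; ring

/-- dyadic decomposition -/
lemma dyadic_decomp (f : ℤ → ℂ) (α : ℝ) (m₀ i₀ i₁ : ℤ) (A : ℝ) (hA : 0 ≤ A) (N : ℕ) :
    ∑ i ∈ (Icc i₀ i₁).filter (fun i => nn (xx α m₀ i) < A * 2 ^ N), f i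
      = ∑ i ∈ (Icc i₀ i₁).filter (fun i => nn (xx α m₀ i) < A), f i
        + ∑ k ∈ range N, ∑ i ∈ TT α m₀ i₀ i₁ (A * 2 ^ k) (A * 2 ^ (k + 1)), f i := by
  induction N with
  | zero => simp
  | succ N ih =>
    rw [Finset.sum_range_succ, ← add_assoc, ← ih]
    have hle : A * 2 ^ N ≤ A * 2 ^ (N + 1) := by
      apply mul_le_mul_of_nonneg_left _ hA
      exact pow_le_pow_right₀ (by norm_num) (Nat.le_succ N)
    rw [← Finset.sum_union]
    · apply Finset.sum_congr _ (fun _ _ => rfl)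
      ext i
      simp only [mem_union, mem_filter, TT]
      constructor
      · rintro ⟨h1, h2⟩
        rcases lt_or_ge (nn (xx α m₀ i)) (A * 2 ^ N) with h3 | h3
        · exact Or.inl ⟨h1, h3⟩
        · exact Or.inr ⟨h1, h3, h2⟩
      · rintro (⟨h1, h2⟩ | ⟨h1, h2, h3⟩)
        · exact ⟨h1, h2.trans_le hle⟩
        · exact ⟨h1, h3⟩
    · rw [Finset.disjoint_left]
      intro i h1 h2
      simp only [mem_filter, TT] at h1 h2
      exact absurd h1.2 (not_lt.2 h2.2.1)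

lemma sum_half_pow (N : ℕ) : ∑ k ∈ range N, (1 / 2 : ℝ) ^ (k / 16 + 1) ≤ 16 := by
  have h1 : ∀ M : ℕ, ∑ k ∈ range (16 * M), (1 / 2 : ℝ) ^ (k / 16 + 1) = 16 - 16 * (1 / 2) ^ M := by
    intro M
    induction M with
    | zero => simp
    | succ M ih =>
      rw [show 16 * (M + 1) = 16 * M + 16 by ring, Finset.sum_range_add, ih]
      have h2 : ∑ x ∈ range 16, (1 / 2 : ℝ) ^ ((16 * M + x) / 16 + 1)
          = ∑ x ∈ range 16, (1 / 2 : ℝ) ^ (M + 1) := by
        apply Finset.sum_congr rfl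
        intro x hx
        rw [mem_range] at hx
        congr 2
        omega
      rw [h2, Finset.sum_const, card_range, nsmul_eq_mul, pow_succ]
      push_cast
      ring
  have h2 : ∑ k ∈ range N, (1 / 2 : ℝ) ^ (k / 16 + 1)
      ≤ ∑ k ∈ range (16 * N), (1 / 2 : ℝ) ^ (k / 16 + 1) := by
    apply Finset.sum_le_sum_of_subset_of_nonneg
    · apply Finset.range_subset_range.2; omega
    · intro i _ _; positivity
  rw [h1 N] at h2
  have : (0 : ℝ) ≤ 16 * (1 / 2) ^ N := by positivity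
  linarith

/-- one shell, in final form -/
lemma shell_bound' (h : Good α p q κ) (hq2 : 2 ≤ q) {Ch : ℝ}
    (hCh : ∀ m : ℕ, 1 ≤ m → m < q → hh α (q * α - p) m ≤ Ch)
    {m₀ i₀ i₁ : ℤ} (hR : InRange q m₀ i₀ i₁) (θ : ℝ) (hCh0 : 0 ≤ Ch) (k : ℕ) :
    ‖∑ i ∈ TT α m₀ i₀ i₁ (10 ^ 6 / κ ^ 2 / q * 2 ^ k) (10 ^ 6 / κ ^ 2 / q * 2 ^ (k + 1)),
        ee (cph α θ i) * (GG α (q * α - p) m₀ i : ℂ)‖
      ≤ 11400 * (π * (q * |q * α - p|) * Ch) * (1 / 2) ^ (k / 16 + 1) := by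
  have hκ := h.κpos
  have hq' : (0 : ℝ) < q := by exact_mod_cast h.qpos
  have hπ := pi_pos
  set y := Real.sqrt (10 ^ 6 / κ ^ 2 * 2 ^ k) with hy
  have hy2 : y ^ 2 = 10 ^ 6 / κ ^ 2 * 2 ^ k := Real.sq_sqrt (by positivity)
  have hy0 : 0 ≤ y := Real.sqrt_nonneg _
  have e1 : (10 : ℝ) ^ 6 / κ ^ 2 / q * 2 ^ k = y ^ 2 / q := by rw [hy2]; ring
  have e2 : (10 : ℝ) ^ 6 / κ ^ 2 / q * 2 ^ (k + 1) = 2 * y ^ 2 / q := by rw [hy2]; ring
  rw [e1, e2]
  have hκy : (κ * y) ^ 2 = 10 ^ 6 * 2 ^ k := by rw [mul_pow, hy2]; field_simp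
  rcases le_or_gt (2 * y ^ 2) (q : ℝ) with hyq | hyq
  · have h1 := shell_bound h hq2 hCh hR θ (y := y) (s := 2 ^ (k / 16 + 1)) (by
      have : 2 ^ 1 ≤ 2 ^ (k / 16 + 1) := Nat.pow_le_pow_right (by norm_num) (by omega)
      simpa using this) (by
        apply le_of_sq_le_sq _ (by positivity)
        rw [hκy]
        push_cast
        calc (((2 : ℝ) ^ (k / 16 + 1)) ^ 8) ^ 2 = 2 ^ (16 * (k / 16) + 16) := by
              rw [← pow_mul, ← pow_mul]; congr 1; ring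
          _ ≤ 2 ^ (k + 16) := pow_le_pow_right₀ (by norm_num) (by omega)
          _ = 65536 * 2 ^ k := by rw [pow_add]; norm_num; ring
          _ ≤ 10 ^ 6 * 2 ^ k := by gcongr; norm_num) (by
        apply le_of_sq_le_sq _ (by positivity)
        rw [hκy]
        calc (1000 : ℝ) ^ 2 = 10 ^ 6 * 1 := by norm_num
          _ ≤ 10 ^ 6 * 2 ^ k := by
            gcongr
            exact one_le_pow₀ (by norm_num)) hyq hCh0
    refine h1.trans (le_of_eq ?_)
    push_cast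
    rw [one_div_pow, mul_one_div]
  · have hempty : TT α m₀ i₀ i₁ (y ^ 2 / q) (2 * y ^ 2 / q) = ∅ := by
      rw [Finset.eq_empty_iff_forall_notMem]
      intro i hi
      have h1 := (mem_filter.1 hi).2.1
      have h2 := nn_le_half (xx α m₀ i)
      have h3 : (1 : ℝ) / 2 < y ^ 2 / q := by
        rw [div_lt_div_iff₀ (by norm_num) hq']; linarith
      linarith
    rw [hempty]
    simp only [Finset.sum_empty, norm_zero]
    positivity

/-- the points near zero -/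
lemma small_part (h : Good α p q κ) {Ch : ℝ}
    (hCh : ∀ m : ℕ, 1 ≤ m → m < q → hh α (q * α - p) m ≤ Ch)
    {m₀ i₀ i₁ : ℤ} (hR : InRange q m₀ i₀ i₁) (θ : ℝ) (hCh0 : 0 ≤ Ch) {J : ℝ} (hJ : 0 ≤ J) :
    ‖∑ i ∈ (Icc i₀ i₁).filter (fun i => nn (xx α m₀ i) < J / q),
        ee (cph α θ i) * (GG α (q * α - p) m₀ i : ℂ)‖
      ≤ (π * (q * |q * α - p|) * Ch) * (4 + 2 * log (4 * J + 1)) := by
  have hq' : (0 : ℝ) < q := by exact_mod_cast h.qpos
  have hπ := pi_pos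
  set ε := (q : ℝ) * α - p with hε
  set S := (Icc i₀ i₁).filter (fun i => nn (xx α m₀ i) < J / q) with hS
  have hSI : S ⊆ Icc i₀ i₁ := filter_subset _ _
  have hsep := (sep_global h hR).mono (T := S) hSI
  have hcard : (S.card : ℝ) ≤ 4 * J + 1 := by
    have h1 := hsep.card_nn_le (by positivity) (δ := J / q) (by positivity)
      (fun a ha => (mem_filter.1 ha).2.le)
    calc _ ≤ 2 * (J / q) / (1 / (2 * (q : ℝ))) + 1 := h1
      _ = _ := by field_simp; ring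
  have hlow : ∀ i ∈ S, 1 / (2 * (q : ℝ)) ≤ nn (xx α m₀ i) := by
    intro i hi
    have h1 := hR i (hSI hi)
    unfold xx
    apply h.half_le_int <;> omega
  have hpt : ∀ i ∈ S, ‖ee (cph α θ i) * (GG α ε m₀ i : ℂ)‖
      ≤ π * |ε| * Ch / 2 * (1 / nn (xx α m₀ i)) := by
    intro i hi
    have h0 : 0 < nn (xx α m₀ i) := lt_of_lt_of_le (by positivity) (hlow i hi)
    rw [norm_mul, norm_ee, one_mul, Complex.norm_real, Real.norm_eq_abs]
    refine (GG_le h hCh hR (hSI hi) h0 le_rfl).trans (le_of_eq ?_)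
    rw [← hε]
    field_simp
  have hsum := hsep.sum_inv (σ := 1 / (2 * (q : ℝ))) (δ := 1 / (2 * (q : ℝ))) (by positivity)
    (by positivity) hlow S.card le_rfl
  have hlog : log (S.card : ℝ) ≤ log (4 * J + 1) := by
    rcases Nat.eq_zero_or_pos S.card with h0 | h0
    · rw [h0]
      simp only [Nat.cast_zero, Real.log_zero]
      exact Real.log_nonneg (by linarith)
    · exact Real.log_le_log (by exact_mod_cast h0) hcard
  calc _ ≤ ∑ i ∈ S, ‖ee (cph α θ i) * (GG α ε m₀ i : ℂ)‖ := norm_sum_le _ _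
    _ ≤ ∑ i ∈ S, π * |ε| * Ch / 2 * (1 / nn (xx α m₀ i)) := Finset.sum_le_sum hpt
    _ = π * |ε| * Ch / 2 * ∑ i ∈ S, 1 / nn (xx α m₀ i) := by rw [Finset.mul_sum]
    _ ≤ π * |ε| * Ch / 2 * (2 / (1 / (2 * (q : ℝ)))
        + 2 * (1 + log (4 * J + 1)) / (1 / (2 * (q : ℝ)))) := by
        apply mul_le_mul_of_nonneg_left _ (by positivity)
        refine hsum.trans ?_
        gcongr
    _ = _ := by field_simp; ring

/-- The total sum with the cotangent weight. -/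
lemma total_bound (h : Good α p q κ) (hq2 : 2 ≤ q) {Ch : ℝ}
    (hCh : ∀ m : ℕ, 1 ≤ m → m < q → hh α (q * α - p) m ≤ Ch)
    {m₀ i₀ i₁ : ℤ} (hR : InRange q m₀ i₀ i₁) (θ : ℝ) (hCh0 : 0 ≤ Ch) :
    ‖∑ i ∈ Icc i₀ i₁, ee (cph α θ i) * (GG α (q * α - p) m₀ i : ℂ)‖
      ≤ (π * (q * |q * α - p|) * Ch) * (182404 + 2 * log (4 * (10 ^ 6 / κ ^ 2) + 1)) := by
  have hκ := h.κpos
  have hq' : (0 : ℝ) < q := by exact_mod_cast h.qpos
  have hπ := pi_pos
  set A := (10 : ℝ) ^ 6 / κ ^ 2 / q with hA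
  have hA0 : 0 < A := by positivity
  obtain ⟨N, hN⟩ := pow_unbounded_of_one_lt (1 / A) (by norm_num : (1 : ℝ) < 2)
  have hAN : 1 < A * 2 ^ N := by
    rw [div_lt_iff₀ hA0] at hN
    linarith
  have hfull : (Icc i₀ i₁).filter (fun i => nn (xx α m₀ i) < A * 2 ^ N) = Icc i₀ i₁ := by
    apply Finset.filter_true_of_mem
    intro i _
    have := nn_le_half (xx α m₀ i)
    linarith
  have hdec := dyadic_decomp (fun i => ee (cph α θ i) * (GG α (q * α - p) m₀ i : ℂ)) α m₀ i₀ i₁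
    A hA0.le N
  rw [hfull] at hdec
  rw [hdec]
  have h1 := small_part h hCh hR θ hCh0 (J := 10 ^ 6 / κ ^ 2) (by positivity)
  rw [← hA] at h1
  have h2 : ‖∑ k ∈ range N, ∑ i ∈ TT α m₀ i₀ i₁ (A * 2 ^ k) (A * 2 ^ (k + 1)),
      ee (cph α θ i) * (GG α (q * α - p) m₀ i : ℂ)‖
      ≤ 11400 * (π * (q * |q * α - p|) * Ch) * 16 := by
    calc _ ≤ ∑ k ∈ range N, 11400 * (π * (q * |q * α - p|) * Ch) * (1 / 2) ^ (k / 16 + 1) := by
          refine (norm_sum_le _ _).trans (Finset.sum_le_sum fun k _ => ?_)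
          exact shell_bound' h hq2 hCh hR θ hCh0 k
      _ = 11400 * (π * (q * |q * α - p|) * Ch) * ∑ k ∈ range N, (1 / 2 : ℝ) ^ (k / 16 + 1) := by
          rw [Finset.mul_sum]
      _ ≤ _ := by
          apply mul_le_mul_of_nonneg_left (sum_half_pow N) (by positivity)
  refine (norm_add_le _ _).trans ((add_le_add h1 h2).trans (le_of_eq ?_))
  ring

/-- reformulation of the Gaussian binomial -/
lemma sinBinom_eq {m : ℕ} (hm : 1 ≤ m)
    (hpos : ∀ l : ℕ, 1 ≤ l → l ≤ m → 0 < nn ((l : ℝ) * α)) :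
    Pool.Agent.MP_1cdd17_nt.sinBinom α q m
      = (-(-1 : ℝ) ^ p) ^ m * (-(sin (π * (q * α - p))) / sin (π * (m * α)) * hh α (q * α - p) m) := by
  unfold Pool.Agent.MP_1cdd17_nt.sinBinom
  set ε := (q : ℝ) * α - p with hε
  have hfac : ∀ l ∈ Icc 1 m, sin (π * ((q : ℝ) - m + l) * α) / sin (π * l * α)
      = (-(-1 : ℝ) ^ p) * (sin (π * (((m - l : ℕ) : ℝ) * α - ε)) / sin (π * (l * α))) := by
    intro l hl
    rw [mem_Icc] at hl
    have e1 : π * ((q : ℝ) - m + l) * α = -(π * (((m - l : ℕ) : ℝ) * α - ε)) + p * π := by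
      rw [Nat.cast_sub hl.2, hε]; ring
    rw [e1, Real.sin_add_int_mul_pi, sin_neg, mul_assoc π]
    ring
  rw [Finset.prod_congr rfl hfac, Finset.prod_mul_distrib, Finset.prod_const, Nat.card_Icc,
    Nat.add_sub_cancel, Finset.prod_div_distrib]
  congr 1
  have h1 : ∏ l ∈ Icc 1 m, sin (π * (((m - l : ℕ) : ℝ) * α - ε))
      = -(sin (π * ε)) * ∏ l ∈ Ico 1 m, sin (π * ((l : ℝ) * α - ε)) := by
    have h2 : ∏ l ∈ Icc 1 m, sin (π * (((m - l : ℕ) : ℝ) * α - ε))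
        = ∏ l ∈ range m, sin (π * ((l : ℝ) * α - ε)) := by
      have h3 : Icc 1 m = Ico 1 (m + 1) := by ext; simp
      rw [h3]
      have h4 := Finset.prod_Ico_reflect (fun l : ℕ => sin (π * ((l : ℝ) * α - ε))) 1
        (m := m + 1) (n := m) le_rfl
      rw [h4]
      simp only [Nat.add_sub_cancel, Nat.sub_self, ← Finset.range_eq_Ico]
    rw [h2, Finset.range_eq_Ico, Finset.prod_eq_prod_Ico_succ_bot (by omega)]
    simp only [Nat.cast_zero, zero_mul, zero_sub, mul_neg, sin_neg, zero_add]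
  have h2 : ∏ l ∈ Icc 1 m, sin (π * ((l : ℝ) * α))
      = (∏ l ∈ Ico 1 m, sin (π * ((l : ℝ) * α))) * sin (π * (m * α)) := by
    have h3 : Icc 1 m = Ico 1 (m + 1) := by ext; simp
    rw [h3, Finset.prod_Ico_succ_top hm]
  rw [h1, h2]
  unfold hh
  have h4 : ∏ l ∈ Ico 1 m, rho ε ((l : ℝ) * α)
      = (∏ l ∈ Ico 1 m, sin (π * ((l : ℝ) * α - ε))) / ∏ l ∈ Ico 1 m, sin (π * ((l : ℝ) * α)) := by
    rw [← Finset.prod_div_distrib]
    apply Finset.prod_congr rfl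
    intro l hl
    rw [mem_Ico] at hl
    exact rho_eq ε (hpos l hl.1 hl.2.le)
  rw [h4]
  have h5 := sin_ne_zero_of_nn (hpos m hm le_rfl)
  have h6 : ∏ l ∈ Ico 1 m, sin (π * ((l : ℝ) * α)) ≠ 0 := by
    rw [Finset.prod_ne_zero_iff]
    intro l hl
    rw [mem_Ico] at hl
    exact sin_ne_zero_of_nn (hpos l hl.1 hl.2.le)
  generalize (∏ l ∈ Ico 1 m, sin (π * ((l : ℝ) * α - ε))) = X at *
  generalize (∏ l ∈ Ico 1 m, sin (π * ((l : ℝ) * α))) = Y at *
  generalize sin (π * ((m : ℝ) * α)) = Z at *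
  field_simp

lemma ee_half : ee (1 / 2) = -1 := by
  unfold ee
  rw [show (2 * π * ((1 / 2 : ℝ) : ℂ) * Complex.I : ℂ) = π * Complex.I by push_cast; ring]
  exact Complex.exp_pi_mul_I

lemma exists_sign (p : ℤ) : ∃ t : ℝ, ((-(-1 : ℝ) ^ p : ℝ) : ℂ) = ee t := by
  rcases Int.even_or_odd p with hp | hp
  · exact ⟨1 / 2, by rw [hp.neg_one_zpow, ee_half]; simp⟩
  · exact ⟨0, by rw [hp.neg_one_zpow, ee_zero]; simp⟩

lemma inv_sin_eq {x : ℝ} (h : 0 < nn x) :
    (1 : ℂ) / (sin (π * x) : ℝ) = ee (-(x / 2)) * ((ct x : ℝ) + Complex.I) := by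
  have h1 := sin_ne_zero_of_nn h
  have h1' : ((sin (π * x) : ℝ) : ℂ) ≠ 0 := by exact_mod_cast h1
  have h2 : ee (x / 2) = (cos (π * x) : ℝ) + (sin (π * x) : ℝ) * Complex.I := by
    unfold ee
    rw [show (2 * π * ((x / 2 : ℝ) : ℂ) * Complex.I : ℂ) = ((π * x : ℝ) : ℂ) * Complex.I by
      push_cast; ring]
    rw [Complex.exp_mul_I, Complex.ofReal_cos, Complex.ofReal_sin]
  have h3 : ee (x / 2) ≠ 0 := ee_ne_zero _
  have h4 : ((ct x : ℝ) : ℂ) = ((cos (π * x) : ℝ) : ℂ) / ((sin (π * x) : ℝ) : ℂ) := by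
    unfold ct; rw [Complex.ofReal_div]
  rw [ee_neg, h4]
  generalize ((sin (π * x) : ℝ) : ℂ) = S at *
  generalize ((cos (π * x) : ℝ) : ℂ) = C at *
  rw [eq_comm, inv_mul_eq_div, div_eq_div_iff h3 h1', one_mul, h2]
  field_simp

/-- The main lemma. -/
theorem mainLemma : Pool.Agent.MP_1cdd17_nt.MainLemma := by
  intro c hc
  set E := exp (636 * π * (1 + 1 / c)) with hE
  refine ⟨π * E * (182406 + 2 * (log (5 * 10 ^ 6) + 2 / c)), ?_⟩
  intro α p q κ hirr hq hκ hw hbest hcw hlow θ m₀ i₀ i₁ hR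
  have hπ := pi_pos
  have hE0 : 0 < E := exp_pos _
  have hlog5 : 0 ≤ log (5 * 10 ^ 6 : ℝ) := Real.log_nonneg (by norm_num)
  have hgood : Good α p q κ := ⟨hirr, hq, hκ, hw, hbest, hlow⟩
  rcases Finset.eq_empty_or_nonempty (Icc i₀ i₁) with hempty | hne
  · rw [hempty]
    simp only [Finset.sum_empty, norm_zero]
    positivity
  have hq2 : 2 ≤ q := by
    obtain ⟨i, hi⟩ := hne
    have := hR i hi
    omega
  have hq' : (0 : ℝ) < q := by exact_mod_cast hgood.qpos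
  have hκ2 : κ ≤ 1 / 2 := hgood.κ_le_half hq2
  set ε := (q : ℝ) * α - p with hε
  set w := (q : ℝ) * |ε| with hwdef
  have hw0 : 0 ≤ w := by positivity
  have hwκ : w / κ ≤ 1 / c := by
    rw [div_le_div_iff₀ hκ hc]; linarith
  have hlogκ0 : 0 ≤ log (1 / κ) := Real.log_nonneg (by rw [le_div_iff₀ hκ]; linarith)
  have hlogκ : log (1 / κ) ≤ 1 / κ := by
    have := Real.log_le_sub_one_of_pos (x := 1 / κ) (by positivity)
    linarith
  have hwlog : w * log (1 / κ) ≤ 1 / c := by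
    calc w * log (1 / κ) ≤ w * (1 / κ) := by gcongr
      _ = w / κ := by ring
      _ ≤ _ := hwκ
  have hCh : ∀ m : ℕ, 1 ≤ m → m < q → hh α ε m ≤ E := by
    intro m _ hm
    refine (hh_uniform hgood hq2 m hm).trans (exp_le_exp.2 ?_)
    apply mul_le_mul_of_nonneg_left _ (by positivity)
    rw [← hε, ← hwdef, mul_add, mul_one]
    linarith
  have hpos : ∀ m : ℕ, 1 ≤ m → m < q → 0 < hh α ε m := fun m _ hm =>
    hh_pos (fun l hl1 hl2 => hgood.best l hl1 (by omega))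
  obtain ⟨t, ht⟩ := exists_sign p
  -- the pointwise identity
  have hpt : ∀ i ∈ Icc i₀ i₁, Pool.Agent.MP_1cdd17_nt.e (-(5 / 2) * α * (i : ℝ) ^ 2 + θ * i) *
        (Pool.Agent.MP_1cdd17_nt.sinBinom α q (m₀ + 5 * i).toNat : ℂ)
      = -ee (t * m₀ - m₀ * α / 2) * (ee (cph α (θ + 5 * t - 5 * α / 2) i) * (GG α ε m₀ i : ℂ)
        + ee (cph α (θ + 5 * t - 5 * α / 2) i) * ((sin (π * ε) * hh α ε (m₀ + 5 * i).toNat : ℝ) : ℂ)
          * Complex.I) := by
    intro i hi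
    have h1 := hR i hi
    set m := (m₀ + 5 * i).toNat with hm
    have hmz : ((m : ℤ)) = m₀ + 5 * i := by omega
    have hmr : (m : ℝ) = ((m₀ + 5 * i : ℤ) : ℝ) := by rw [← hmz]; simp
    have hxx : xx α m₀ i = (m : ℝ) * α := by unfold xx; rw [hmr]
    have hnn : ∀ l : ℕ, 1 ≤ l → l ≤ m → 0 < nn ((l : ℝ) * α) := fun l hl1 _ =>
      nn_pos_of_irr hirr hl1
    have hinv := inv_sin_eq (hnn m (by omega) le_rfl)
    have e0 : Pool.Agent.MP_1cdd17_nt.e (-(5 / 2) * α * (i : ℝ) ^ 2 + θ * i)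
        = ee (-(5 / 2) * α * (i : ℝ) ^ 2 + θ * i) := rfl
    rw [e0, sinBinom_eq (by omega) hnn, ← hε]
    have e1 : (((-(-1 : ℝ) ^ p) ^ m * (-(sin (π * ε)) / sin (π * (m * α)) * hh α ε m) : ℝ) : ℂ)
        = ee (m * t) * (-((sin (π * ε) : ℝ) : ℂ) * (ee (-(m * α / 2)) * ((ct (m * α) : ℝ) + Complex.I))
          * ((hh α ε m : ℝ) : ℂ)) := by
      rw [← hinv, ee_nat_mul, ← ht]
      push_cast
      ring
    rw [e1]
    have e2 : ee (-(5 / 2) * α * (i : ℝ) ^ 2 + θ * i) * (ee (m * t) * ee (-(m * α / 2)))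
        = ee (t * m₀ - m₀ * α / 2) * ee (cph α (θ + 5 * t - 5 * α / 2) i) := by
      rw [← ee_add, ← ee_add, ← ee_add]
      congr 1
      unfold cph
      rw [hmr]
      push_cast
      ring
    have e3 : ((GG α ε m₀ i : ℝ) : ℂ) = ((sin (π * ε) : ℝ) : ℂ) * ((ct (m * α) : ℝ) : ℂ)
        * ((hh α ε m : ℝ) : ℂ) := by
      unfold GG
      rw [hxx]
      push_cast
      ring
    rw [e3]
    calc _ = (ee (-(5 / 2) * α * (i : ℝ) ^ 2 + θ * i) * (ee (m * t) * ee (-(m * α / 2))))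
          * (-((sin (π * ε) : ℝ) : ℂ) * ((ct (m * α) : ℝ) + Complex.I) * ((hh α ε m : ℝ) : ℂ)) := by
          ring
      _ = _ := by
          rw [e2]
          push_cast
          ring
  rw [Finset.sum_congr rfl hpt, ← Finset.mul_sum, norm_mul, norm_neg, norm_ee, one_mul,
    Finset.sum_add_distrib, ← Finset.sum_mul]
  have h1 := total_bound hgood hq2 hCh hR (θ + 5 * t - 5 * α / 2) hE0.le
  have h2 : ‖(∑ i ∈ Icc i₀ i₁, ee (cph α (θ + 5 * t - 5 * α / 2) i)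
      * ((sin (π * ε) * hh α ε (m₀ + 5 * i).toNat : ℝ) : ℂ)) * Complex.I‖ ≤ π * w * E := by
    rw [norm_mul, Complex.norm_I, mul_one]
    have hcard : ((Icc i₀ i₁).card : ℝ) ≤ q := by
      have h3 := hR i₀ (by rw [mem_Icc]; rw [nonempty_Icc] at hne; omega)
      have h4 := hR i₁ (by rw [mem_Icc]; rw [nonempty_Icc] at hne; omega)
      rw [Int.card_Icc]
      have : (i₁ + 1 - i₀).toNat ≤ q := by omega
      exact_mod_cast this
    calc _ ≤ ∑ i ∈ Icc i₀ i₁, ‖ee (cph α (θ + 5 * t - 5 * α / 2) i)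
        * ((sin (π * ε) * hh α ε (m₀ + 5 * i).toNat : ℝ) : ℂ)‖ := norm_sum_le _ _
      _ ≤ ∑ i ∈ Icc i₀ i₁, π * |ε| * E := by
          apply Finset.sum_le_sum
          intro i hi
          have h3 := hR i hi
          have h4 := hCh (m₀ + 5 * i).toNat (by omega) (by omega)
          have h5 := hpos (m₀ + 5 * i).toNat (by omega) (by omega)
          rw [norm_mul, norm_ee, one_mul, Complex.norm_real, Real.norm_eq_abs, abs_mul,
            abs_of_pos h5]
          have := abs_sin_pi_le ε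
          gcongr
      _ = (Icc i₀ i₁).card * (π * |ε| * E) := by rw [Finset.sum_const, nsmul_eq_mul]
      _ ≤ q * (π * |ε| * E) := by gcongr
      _ = _ := by rw [hwdef]; ring
  have hlogJ : log (4 * (10 ^ 6 / κ ^ 2) + 1) ≤ log (5 * 10 ^ 6) + 2 * log (1 / κ) := by
    have e : log (5 * 10 ^ 6 : ℝ) + 2 * log (1 / κ) = log (5 * (10 ^ 6 / κ ^ 2)) := by
      have : (5 : ℝ) * (10 ^ 6 / κ ^ 2) = (5 * 10 ^ 6) * (1 / κ) ^ 2 := by ring
      have e' : log ((5 * 10 ^ 6 : ℝ) * (1 / κ) ^ 2) = log (5 * 10 ^ 6 : ℝ) + 2 * log (1 / κ) := by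
        rw [Real.log_mul (by norm_num) (by positivity), Real.log_pow]
        push_cast; rfl
      rw [this, e']
    rw [e]
    apply Real.log_le_log (by positivity)
    have : 1 ≤ (10 : ℝ) ^ 6 / κ ^ 2 := by
      rw [le_div_iff₀ (by positivity)]
      nlinarith
    linarith
  have hfin : π * w * E * (182404 + 2 * log (4 * (10 ^ 6 / κ ^ 2) + 1))
      ≤ π * E * (182404 + 2 * (log (5 * 10 ^ 6) + 2 / c)) := by
    calc π * w * E * (182404 + 2 * log (4 * (10 ^ 6 / κ ^ 2) + 1))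
        ≤ π * w * E * (182404 + 2 * (log (5 * 10 ^ 6) + 2 * log (1 / κ))) := by gcongr
      _ = π * E * (w * 182404 + 2 * (w * log (5 * 10 ^ 6) + 2 * (w * log (1 / κ)))) := by ring
      _ ≤ π * E * (1 * 182404 + 2 * (1 * log (5 * 10 ^ 6) + 2 * (1 / c))) := by gcongr
      _ = _ := by ring
  have hfin2 : π * w * E ≤ π * 1 * E := by gcongr
  refine (norm_add_le _ _).trans ((add_le_add (h1.trans hfin) (h2.trans hfin2)).trans ?_)
  have : 0 < π * E := by positivity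
  nlinarith

end Pool.Agent.Lib.MP_1cdd17_nt
end

section
namespace Pool.Agent.MP_1cdd17_nt

open Finset

/-- The distance of `mα` to the nearest integer. -/
noncomputable def dist (α : ℝ) (m : ℕ) : ℝ := |m * α - round ((m : ℝ) * α)|

lemma dist_pos {α : ℝ} (hα : Irrational α) {m : ℕ} (hm : 1 ≤ m) : 0 < dist α m := by
  rw [dist, abs_pos, sub_ne_zero]
  intro h
  have h1 : Irrational ((m : ℝ) * α) := hα.natCast_mul (by omega)
  exact h1 ⟨round ((m : ℝ) * α), by rw [h]; push_cast; simp⟩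

/-- Record indices of a positive function with infimum zero. -/
lemma exists_record {g : ℕ → ℝ} (hpos : ∀ m, 1 ≤ m → 0 < g m)
    (hinf : ∀ ε, 0 < ε → ∃ m, 1 ≤ m ∧ g m < ε) (N : ℕ) :
    ∃ q, N < q ∧ 1 ≤ q ∧ ∀ m, 1 ≤ m → m < q → g q < g m := by
  classical
  obtain ⟨μ, hμ, hμle⟩ : ∃ μ, 0 < μ ∧ ∀ m, 1 ≤ m → m ≤ N → μ ≤ g m := by
    rcases Nat.eq_zero_or_pos N with rfl | hN
    · exact ⟨1, one_pos, fun m h1 h2 => by omega⟩
    · have hne : (Icc 1 N).Nonempty := ⟨1, by simp; omega⟩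
      obtain ⟨m₀, hm₀, hmin⟩ := Finset.exists_min_image (Icc 1 N) g hne
      rw [mem_Icc] at hm₀
      exact ⟨g m₀, hpos m₀ hm₀.1, fun m h1 h2 => hmin m (mem_Icc.2 ⟨h1, h2⟩)⟩
  have hex : ∃ q, 1 ≤ q ∧ g q < μ := hinf μ hμ
  refine ⟨Nat.find hex, ?_, (Nat.find_spec hex).1, ?_⟩
  · by_contra hcon
    have := hμle _ (Nat.find_spec hex).1 (not_lt.1 hcon)
    linarith [(Nat.find_spec hex).2]
  · intro m h1 h2
    have h3 : ¬ (1 ≤ m ∧ g m < μ) := Nat.find_min hex h2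
    have h4 : μ ≤ g m := by
      by_contra h5
      exact h3 ⟨h1, not_le.1 h5⟩
    exact lt_of_lt_of_le (Nat.find_spec hex).2 h4

lemma record_le_one {α : ℝ} {q : ℕ} (hq : 1 ≤ q)
    (hrec : ∀ m, 1 ≤ m → m < q → dist α q < dist α m) : (q : ℝ) * dist α q ≤ 1 := by
  obtain ⟨k, hk0, hkq, hk⟩ := Real.exists_nat_abs_mul_sub_round_le α (n := q) hq
  have h1 : dist α q ≤ dist α k := by
    rcases Nat.lt_or_ge k q with h | h
    · exact (hrec k hk0 h).le
    · rw [le_antisymm hkq h]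
  have h2 : dist α q ≤ 1 / (q + 1) := h1.trans hk
  have hq' : (0 : ℝ) < q := by exact_mod_cast hq
  calc (q : ℝ) * dist α q ≤ q * (1 / (q + 1)) := mul_le_mul_of_nonneg_left h2 hq'.le
    _ ≤ 1 := by rw [mul_one_div, div_le_one (by positivity)]; linarith

/-- The choice of the denominators. -/
theorem select {α : ℝ} (hα : Irrational α) : ∃ c : ℝ, 0 < c ∧ ∀ N : ℕ, ∃ (q : ℕ) (p : ℤ) (κ : ℝ),
    N < q ∧ 1 ≤ q ∧ 0 < κ ∧ (q : ℝ) * |q * α - p| ≤ 1 ∧
    (∀ m : ℕ, 1 ≤ m → m < q → |q * α - p| < |m * α - round ((m : ℝ) * α)|) ∧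
    c * ((q : ℝ) * |q * α - p|) ≤ κ ∧
    (∀ m : ℕ, 1 ≤ m → m < q → κ ≤ m * |m * α - round ((m : ℝ) * α)|) := by
  by_cases h : ∃ κ : ℝ, 0 < κ ∧ ∀ m : ℕ, 1 ≤ m → κ ≤ m * dist α m
  · obtain ⟨κ, hκ, hκm⟩ := h
    refine ⟨κ, hκ, fun N => ?_⟩
    obtain ⟨q, hN, hq, hrec⟩ := exists_record (g := dist α) (fun m hm => dist_pos hα hm) (by
      intro ε hε
      obtain ⟨n, hn⟩ := exists_nat_gt (1 / ε)
      have hn0 : 0 < n := by
        rcases Nat.eq_zero_or_pos n with rfl | h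
        · exfalso
          have : 0 < 1 / ε := by positivity
          push_cast at hn
          linarith
        · exact h
      obtain ⟨k, hk0, _, hk⟩ := Real.exists_nat_abs_mul_sub_round_le α hn0
      refine ⟨k, hk0, lt_of_le_of_lt hk ?_⟩
      rw [div_lt_iff₀ (by positivity)]
      rw [div_lt_iff₀ hε] at hn
      nlinarith) N
    have h1 := record_le_one hq hrec
    refine ⟨q, round ((q : ℝ) * α), κ, hN, hq, hκ, h1, hrec, ?_, fun m hm _ => hκm m hm⟩
    calc κ * ((q : ℝ) * |q * α - round ((q : ℝ) * α)|) ≤ κ * 1 :=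
          mul_le_mul_of_nonneg_left h1 hκ.le
      _ = κ := mul_one κ
  · push Not at h
    refine ⟨1, one_pos, fun N => ?_⟩
    obtain ⟨q, hN, hq, hrec⟩ := exists_record (g := fun m => m * dist α m)
      (fun m hm => mul_pos (by exact_mod_cast hm) (dist_pos hα hm)) (fun ε hε => h ε hε) N
    have hq' : (0 : ℝ) < q := by exact_mod_cast hq
    have hrec' : ∀ m, 1 ≤ m → m < q → dist α q < dist α m := by
      intro m hm hmq
      have h1 := hrec m hm hmq
      have h2 : (m : ℝ) ≤ q := by exact_mod_cast hmq.le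
      have h3 := dist_pos hα hm
      have h4 : (q : ℝ) * dist α q < q * dist α m :=
        lt_of_lt_of_le h1 (mul_le_mul_of_nonneg_right h2 h3.le)
      exact lt_of_mul_lt_mul_left h4 hq'.le
    have h1 := record_le_one hq hrec'
    refine ⟨q, round ((q : ℝ) * α), (q : ℝ) * dist α q, hN, hq, mul_pos hq' (dist_pos hα hq), h1,
      hrec', ?_, fun m hm hmq => (hrec m hm hmq).le⟩
    rw [one_mul]
    exact le_rfl

end Pool.Agent.MP_1cdd17_nt
end

section
namespace Pool.Agent.MP_1cdd17_nt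

open Finset Filter

lemma e_add (s t : ℝ) : e (s + t) = e s * e t := by
  rw [e, e, e, ← Complex.exp_add]; congr 1; push_cast; ring

lemma e_zero : e 0 = 1 := by simp [e]

lemma e_zpow (t : ℝ) (n : ℤ) : e t ^ n = e (n * t) := by
  rw [e, e, ← Complex.exp_int_mul]; congr 1; push_cast; ring

lemma one_sub_e (y : ℝ) : 1 - e y = -2 * Complex.I * (Real.sin (Real.pi * y) : ℂ) * e (y / 2) := by
  have h1 : e y = e (y / 2) * e (y / 2) := by rw [← e_add]; congr 1; ring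
  have h2 : e (y / 2) = Complex.exp ((Real.pi * y : ℂ) * Complex.I) := by
    rw [e]; congr 1; push_cast; ring
  have h3 : (Real.sin (Real.pi * y) : ℂ) = (Complex.exp (-(Real.pi * y : ℂ) * Complex.I) -
      Complex.exp ((Real.pi * y : ℂ) * Complex.I)) * Complex.I / 2 := by
    rw [Complex.ofReal_sin, Complex.sin]; push_cast; ring
  have h4 : Complex.exp (-(Real.pi * y : ℂ) * Complex.I) *
      Complex.exp ((Real.pi * y : ℂ) * Complex.I) = 1 := by
    rw [← Complex.exp_add]; simp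
  rw [h1, h2, h3]
  linear_combination (Complex.exp (-(Real.pi * y : ℂ) * Complex.I) *
      Complex.exp ((Real.pi * y : ℂ) * Complex.I) -
        Complex.exp ((Real.pi * y : ℂ) * Complex.I) ^ 2) * Complex.I_sq - h4

lemma sin_ne_zero {α : ℝ} (hα : Irrational α) {l : ℕ} (hl : 1 ≤ l) :
    Real.sin (Real.pi * l * α) ≠ 0 := by
  intro h
  rw [Real.sin_eq_zero_iff] at h
  obtain ⟨n, hn⟩ := h
  have h1 : (n : ℝ) = l * α := by
    have hpi := Real.pi_ne_zero
    have : Real.pi * (n : ℝ) = Real.pi * (l * α) := by linarith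
    exact mul_left_cancel₀ hpi this
  have h2 : Irrational ((l : ℝ) * α) := hα.natCast_mul (by omega)
  exact h2 ⟨n, by rw [← h1]; push_cast; rfl⟩

lemma sinBinom_zero (α : ℝ) (q : ℕ) : sinBinom α q 0 = 1 := by simp [sinBinom]

lemma sinBinom_succ {α : ℝ} (hα : Irrational α) (q k : ℕ) :
    sinBinom α q (k + 1) * Real.sin (Real.pi * ((k + 1 : ℕ) : ℝ) * α) =
      sinBinom α q k * Real.sin (Real.pi * ((q : ℝ) - k) * α) := by
  have hden : ∀ m : ℕ, ∏ l ∈ Icc 1 m, Real.sin (Real.pi * l * α) ≠ 0 := by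
    intro m
    rw [Finset.prod_ne_zero_iff]
    intro l hl
    exact sin_ne_zero hα (mem_Icc.1 hl).1
  have hnum : ∏ l ∈ Icc 1 (k + 1), Real.sin (Real.pi * ((q : ℝ) - ((k + 1 : ℕ) : ℝ) + l) * α) =
      Real.sin (Real.pi * ((q : ℝ) - k) * α) *
        ∏ l ∈ Icc 1 k, Real.sin (Real.pi * ((q : ℝ) - k + l) * α) := by
    rw [show Icc 1 (k + 1) = Ico 1 (k + 1 + 1) by rfl, Finset.prod_Ico_eq_prod_range,
      show k + 1 + 1 - 1 = k + 1 by omega, Finset.prod_range_succ',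
      show Icc 1 k = Ico 1 (k + 1) by rfl, Finset.prod_Ico_eq_prod_range,
      show k + 1 - 1 = k by omega, mul_comm]
    congr 1
    · congr 3; push_cast; ring
    · apply Finset.prod_congr rfl
      intro l _
      congr 3; push_cast; ring
  have h1 := hden k
  have h2 := hden (k + 1)
  have h3 : ∏ l ∈ Icc 1 (k + 1), Real.sin (Real.pi * l * α) =
      (∏ l ∈ Icc 1 k, Real.sin (Real.pi * l * α)) * Real.sin (Real.pi * ((k + 1 : ℕ) : ℝ) * α) := by
    rw [Finset.prod_Icc_succ_top (by omega)]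
  have h4 := sin_ne_zero hα (show 1 ≤ k + 1 by omega)
  have h5 : ∀ {a s A B : ℝ}, s ≠ 0 → B ≠ 0 → (a * A / (B * s)) * s = A / B * a := by
    intro a s A B hs hB
    field_simp
  rw [sinBinom, sinBinom, Finset.prod_div_distrib, Finset.prod_div_distrib, hnum, h3]
  exact h5 h4 h1

lemma gauss_eq_sinBinom {α : ℝ} (hα : Irrational α) (q k : ℕ) (hk : k ≤ q) :
    gauss (e α) q k = e (α * (k * ((q : ℝ) - k) / 2)) * (sinBinom α q k : ℂ) := by
  have h0 := ne_zero_of_norm_one (norm_e α)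
  induction k with
  | zero =>
    have := gauss_zero_right (x := e α) q
    simp [this, sinBinom_zero, e_zero]
  | succ k ih =>
    have ih' := ih (by omega)
    have h1 := one_sub_mul_gauss h0 q ((k + 1 : ℕ) : ℤ)
    have h2 : ((k + 1 : ℕ) : ℤ) - 1 = k := by push_cast; ring
    have h3 : (q : ℤ) + 1 - ((k + 1 : ℕ) : ℤ) = (q : ℤ) - k := by push_cast; ring
    rw [h2, h3, e_zpow, e_zpow, ih', one_sub_e, one_sub_e] at h1
    have hs := sin_ne_zero hα (show 1 ≤ k + 1 by omega)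
    have hS := sinBinom_succ hα q k
    have e1 : Real.pi * ((((k + 1 : ℕ) : ℤ) : ℝ) * α) = Real.pi * ((k + 1 : ℕ) : ℝ) * α := by
      push_cast; ring
    have e2 : Real.pi * ((((q : ℤ) - (k : ℤ) : ℤ) : ℝ) * α) = Real.pi * ((q : ℝ) - k) * α := by
      push_cast; ring
    rw [e1, e2] at h1
    have hSc : (sinBinom α q (k + 1) : ℂ) * (Real.sin (Real.pi * ((k + 1 : ℕ) : ℝ) * α) : ℂ) =
      (sinBinom α q k : ℂ) * (Real.sin (Real.pi * ((q : ℝ) - k) * α) : ℂ) := by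
      exact_mod_cast hS
    have e3 : e ((((q : ℤ) - (k : ℤ) : ℤ) : ℝ) * α / 2) * e (α * (k * ((q : ℝ) - k) / 2)) =
        e ((((k + 1 : ℕ) : ℤ) : ℝ) * α / 2) *
          e (α * (((k + 1 : ℕ) : ℝ) * ((q : ℝ) - ((k + 1 : ℕ) : ℝ)) / 2)) := by
      rw [← e_add, ← e_add]; congr 1; push_cast; ring
    have hsc : (Real.sin (Real.pi * ((k + 1 : ℕ) : ℝ) * α) : ℂ) ≠ 0 := by exact_mod_cast hs
    have hene : e ((((k + 1 : ℕ) : ℤ) : ℝ) * α / 2) ≠ 0 := ne_zero_of_norm_one (norm_e _)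
    have hI : (-2 * Complex.I : ℂ) ≠ 0 := by simp
    have key : (-2 * Complex.I * (Real.sin (Real.pi * ((k + 1 : ℕ) : ℝ) * α) : ℂ) *
        e ((((k + 1 : ℕ) : ℤ) : ℝ) * α / 2)) * gauss (e α) q ((k + 1 : ℕ) : ℤ) =
        (-2 * Complex.I * (Real.sin (Real.pi * ((k + 1 : ℕ) : ℝ) * α) : ℂ) *
        e ((((k + 1 : ℕ) : ℤ) : ℝ) * α / 2)) *
          (e (α * (((k + 1 : ℕ) : ℝ) * ((q : ℝ) - ((k + 1 : ℕ) : ℝ)) / 2)) *
            (sinBinom α q (k + 1) : ℂ)) := by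
      rw [h1]
      linear_combination (-2 * Complex.I) *
        ((Real.sin (Real.pi * ((q : ℝ) - k) * α) : ℂ) * (sinBinom α q k : ℂ)) * e3 -
        (-2 * Complex.I) * e ((((k + 1 : ℕ) : ℤ) : ℝ) * α / 2) *
          e (α * (((k + 1 : ℕ) : ℝ) * ((q : ℝ) - ((k + 1 : ℕ) : ℝ)) / 2)) * hSc
    exact mul_left_cancel₀ (mul_ne_zero (mul_ne_zero hI hsc) hene) key

/-- Bound for the sums over residue classes, given the analytic bound. -/
lemma norm_S_le_of_main {α : ℝ} (hα : Irrational α) {q : ℕ} {C : ℝ}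
    (hmain : ∀ (θ : ℝ) (m₀ i₀ i₁ : ℤ),
      (∀ i ∈ Icc i₀ i₁, 1 ≤ m₀ + 5 * i ∧ m₀ + 5 * i ≤ (q : ℤ) - 1) →
      ‖∑ i ∈ Icc i₀ i₁, e (-(5 / 2) * α * (i : ℝ) ^ 2 + θ * i) *
        (sinBinom α q (m₀ + 5 * i).toNat : ℂ)‖ ≤ C)
    (β γ a : ℤ) (E : ℤ → ℤ) (hE : ∀ m, E m = 10 * m ^ 2 + β * m + γ) :
    ‖S (e α) q E a‖ ≤ C + 2 := by
  classical
  have hx := norm_e α
  have h0 := ne_zero_of_norm_one hx
  set t : ℤ → ℂ := fun i => e α ^ E (-i) * gauss (e α) q (a + 5 * i) with ht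
  have hS : S (e α) q E a = ∑ᶠ i : ℤ, t i := by
    rw [S, ← finsum_comp_equiv (Equiv.neg ℤ)]
    apply finsum_congr
    intro m
    simp only [ht, Equiv.neg_apply]
    congr 2
    ring
  set j₀ : ℤ := -(a / 5) with hj₀
  set j₁ : ℤ := ((q : ℤ) - a) / 5 with hj₁
  set i₀ : ℤ := -((a - 1) / 5) with hi₀
  set i₁ : ℤ := ((q : ℤ) - 1 - a) / 5 with hi₁
  have hsupp : Function.support t ⊆ ↑(Icc j₀ j₁) := by
    intro i hi
    have h1 : gauss (e α) q (a + 5 * i) ≠ 0 := by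
      intro h; apply hi; simp only [ht, h, mul_zero]
    have h2 : ¬ (a + 5 * i < 0 ∨ (q : ℤ) < a + 5 * i) := fun h => h1 (gauss_eq_zero h)
    push Not at h2
    rw [Finset.coe_Icc]
    constructor
    · rw [hj₀]; omega
    · rw [hj₁]; omega
  have hsub : Icc i₀ i₁ ⊆ Icc j₀ j₁ := by
    apply Finset.Icc_subset_Icc
    · rw [hj₀, hi₀]; omega
    · rw [hj₁, hi₁]; omega
  rw [hS, finsum_eq_sum_of_support_subset _ hsupp, ← Finset.sum_sdiff hsub]
  have hrange : ∀ i ∈ Icc i₀ i₁, 1 ≤ a + 5 * i ∧ a + 5 * i ≤ (q : ℤ) - 1 := by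
    intro i hi
    rw [mem_Icc] at hi
    constructor
    · have := hi.1; rw [hi₀] at this; omega
    · have := hi.2; rw [hi₁] at this; omega
  have hint : ∑ i ∈ Icc i₀ i₁, t i = e (α * (γ + a * ((q : ℝ) - a) / 2)) *
      ∑ i ∈ Icc i₀ i₁, e (-(5 / 2) * α * (i : ℝ) ^ 2 +
        (α * (-β + 5 / 2 * ((q : ℝ) - 2 * a))) * i) *
        (sinBinom α q (a + 5 * i).toNat : ℂ) := by
    rw [Finset.mul_sum]
    apply Finset.sum_congr rfl
    intro i hi
    obtain ⟨h1, h2⟩ := hrange i hi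
    obtain ⟨k, hk⟩ : ∃ k : ℕ, (k : ℤ) = a + 5 * i := ⟨(a + 5 * i).toNat, by omega⟩
    have hk' : (a + 5 * i).toNat = k := by omega
    have hkq : k ≤ q := by omega
    simp only [ht]
    rw [hk', ← hk, gauss_eq_sinBinom hα q k hkq, e_zpow, hE, ← mul_assoc, ← mul_assoc,
      ← e_add, ← e_add]
    congr 2
    have hkR : (k : ℝ) = a + 5 * i := by exact_mod_cast hk
    rw [hkR]
    push_cast
    ring
  have hbd : ‖∑ i ∈ Icc i₀ i₁, t i‖ ≤ C := by
    rw [hint, norm_mul, norm_e, one_mul]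
    exact hmain _ a i₀ i₁ hrange
  have hedge : ‖∑ i ∈ Icc j₀ j₁ \ Icc i₀ i₁, t i‖ ≤ 2 := by
    have hcard : (Icc j₀ j₁ \ Icc i₀ i₁).card ≤ 2 := by
      have : Icc j₀ j₁ \ Icc i₀ i₁ ⊆ {j₀, j₁} := by
        intro i hi
        rw [Finset.mem_sdiff, mem_Icc, mem_Icc] at hi
        rw [mem_insert, mem_singleton]
        obtain ⟨⟨h1, h2⟩, h3⟩ := hi
        by_contra hcon
        push Not at hcon
        apply h3
        constructor
        · rw [hi₀]; rw [hj₀] at h1 hcon; omega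
        · rw [hi₁]; rw [hj₁] at h2 hcon; omega
      exact (Finset.card_le_card this).trans (Finset.card_le_two)
    have hterm : ∀ i ∈ Icc j₀ j₁ \ Icc i₀ i₁, ‖t i‖ ≤ 1 := by
      intro i hi
      rw [Finset.mem_sdiff, mem_Icc, mem_Icc] at hi
      obtain ⟨⟨h1, h2⟩, h3⟩ := hi
      have h4 : a + 5 * i = 0 ∨ a + 5 * i = q := by
        by_contra hcon
        push Not at hcon
        apply h3
        rw [hj₀] at h1
        rw [hj₁] at h2
        constructor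
        · rw [hi₀]; omega
        · rw [hi₁]; omega
      simp only [ht]
      rw [norm_mul, norm_zpow, hx, one_zpow, one_mul]
      rcases h4 with h4 | h4
      · rw [h4, gauss_zero_right, norm_one]
      · rw [h4, gauss_self, norm_one]
    calc ‖∑ i ∈ Icc j₀ j₁ \ Icc i₀ i₁, t i‖ ≤ ∑ i ∈ Icc j₀ j₁ \ Icc i₀ i₁, ‖t i‖ := norm_sum_le _ _
      _ ≤ (Icc j₀ j₁ \ Icc i₀ i₁).card • (1 : ℝ) := Finset.sum_le_card_nsmul _ _ _ hterm
      _ ≤ 2 := by
          rw [nsmul_eq_mul, mul_one]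
          exact_mod_cast hcard
  refine (norm_add_le _ _).trans ?_
  linarith

lemma norm_S_succ_le_of_main {α : ℝ} (hα : Irrational α) {q : ℕ} {C : ℝ}
    (hmain : ∀ (θ : ℝ) (m₀ i₀ i₁ : ℤ),
      (∀ i ∈ Icc i₀ i₁, 1 ≤ m₀ + 5 * i ∧ m₀ + 5 * i ≤ (q : ℤ) - 1) →
      ‖∑ i ∈ Icc i₀ i₁, e (-(5 / 2) * α * (i : ℝ) ^ 2 + θ * i) *
        (sinBinom α q (m₀ + 5 * i).toNat : ℂ)‖ ≤ C)
    (β γ a : ℤ) (E : ℤ → ℤ) (hE : ∀ m, E m = 10 * m ^ 2 + β * m + γ) :
    ‖S (e α) (q + 1) E a‖ ≤ 2 * (C + 2) := by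
  have h0 := ne_zero_of_norm_one (norm_e α)
  rw [S_pascal₁ h0]
  refine (norm_add_le _ _).trans ?_
  have h1 := norm_S_le_of_main hα hmain β γ a E hE
  have h2 := norm_S_le_of_main hα hmain (β + 5) (γ + ((q : ℤ) + 1 - a)) (a - 1)
    (fun m => E m + ((q : ℤ) + 1 - (a - 5 * m))) (fun m => by rw [hE]; ring)
  linarith

lemma e₁_form (m : ℤ) : e₁ m = 10 * m ^ 2 + 1 * m + 0 := by unfold e₁; ring
lemma e₂_form (m : ℤ) : e₂ m = 10 * m ^ 2 + 11 * m + 3 := by unfold e₂; ring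
lemma e₃_form (m : ℤ) : e₃ m = 10 * m ^ 2 + (-3) * m + 0 := by unfold e₃; ring
lemma e₄_form (m : ℤ) : e₄ m = 10 * m ^ 2 + 7 * m + 1 := by unfold e₄; ring

/-- The main theorem, assuming the analytic bound. -/
theorem not_converges_of_mainLemma (hML : MainLemma) {α : ℝ} (hα : Irrational α) :
    ¬ Converges (e α) := by
  obtain ⟨c, hc, hsel⟩ := select hα
  obtain ⟨C, hC⟩ := hML c hc
  apply not_converges_of_frequently_bounded (norm_e α) (C := 4 * (|C| + 2))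
  rw [frequently_atTop]
  intro N
  obtain ⟨q, p, κ, hN, hq, hκ, h1, h2, h3, h4⟩ := hsel N
  refine ⟨q, hN.le, ?_⟩
  have hmain := hC α p q κ hα hq hκ h1 h2 h3 h4
  have h0 := ne_zero_of_norm_one (norm_e α)
  have hCabs := le_abs_self C
  have habs := abs_nonneg C
  obtain ⟨v, rfl | rfl⟩ := Nat.even_or_odd' q
  · refine ⟨?_, ?_, ?_, ?_⟩
    · rw [(numA_eq h0 v).1]
      refine (norm_sub_le _ _).trans ?_
      linarith [norm_S_le_of_main hα hmain _ _ (v : ℤ) e₁ e₁_form,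
        norm_S_le_of_main hα hmain _ _ ((v : ℤ) - 3) e₂ e₂_form]
    · rw [(denB_eq h0 v).1]
      refine (norm_sub_le _ _).trans ?_
      linarith [norm_S_le_of_main hα hmain _ _ ((v : ℤ) + 1) e₃ e₃_form,
        norm_S_le_of_main hα hmain _ _ ((v : ℤ) - 2) e₄ e₄_form]
    · rw [(numA_eq h0 v).2]
      refine (norm_sub_le _ _).trans ?_
      linarith [norm_S_succ_le_of_main hα hmain _ _ (v : ℤ) e₁ e₁_form,
        norm_S_succ_le_of_main hα hmain _ _ ((v : ℤ) - 2) e₂ e₂_form]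
    · rw [(denB_eq h0 v).2]
      refine (norm_sub_le _ _).trans ?_
      linarith [norm_S_succ_le_of_main hα hmain _ _ ((v : ℤ) + 1) e₃ e₃_form,
        norm_S_succ_le_of_main hα hmain _ _ ((v : ℤ) - 1) e₄ e₄_form]
  · refine ⟨?_, ?_, ?_, ?_⟩
    · rw [(numA_eq h0 v).2]
      refine (norm_sub_le _ _).trans ?_
      linarith [norm_S_le_of_main hα hmain _ _ (v : ℤ) e₁ e₁_form,
        norm_S_le_of_main hα hmain _ _ ((v : ℤ) - 2) e₂ e₂_form]
    · rw [(denB_eq h0 v).2]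
      refine (norm_sub_le _ _).trans ?_
      linarith [norm_S_le_of_main hα hmain _ _ ((v : ℤ) + 1) e₃ e₃_form,
        norm_S_le_of_main hα hmain _ _ ((v : ℤ) - 1) e₄ e₄_form]
    · rw [show 2 * v + 1 + 1 = 2 * (v + 1) by ring, (numA_eq h0 (v + 1)).1,
        show 2 * (v + 1) = 2 * v + 1 + 1 by ring]
      refine (norm_sub_le _ _).trans ?_
      linarith [norm_S_succ_le_of_main hα hmain _ _ ((v + 1 : ℕ) : ℤ) e₁ e₁_form,
        norm_S_succ_le_of_main hα hmain _ _ (((v + 1 : ℕ) : ℤ) - 3) e₂ e₂_form]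
    · rw [show 2 * v + 1 + 1 = 2 * (v + 1) by ring, (denB_eq h0 (v + 1)).1,
        show 2 * (v + 1) = 2 * v + 1 + 1 by ring]
      refine (norm_sub_le _ _).trans ?_
      linarith [norm_S_succ_le_of_main hα hmain _ _ (((v + 1 : ℕ) : ℤ) + 1) e₃ e₃_form,
        norm_S_succ_le_of_main hα hmain _ _ (((v + 1 : ℕ) : ℤ) - 2) e₄ e₄_form]

end Pool.Agent.MP_1cdd17_nt
end
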