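import Mathlib

namespace Pool.Agent.MP_1cdd17_nt

/-- The numerators of the approximants of the continued fraction
`K(x) = 1 + x/(1 + x^2/(1 + x^3/(1 + ...)))`, with the index shifted by one:
`numA x (n+1)` is `A_n` and `numA x 0` is `A_{-1} = 1`. The defining recurrence is
`A_n = A_{n-1} + x^n A_{n-2}` for `n ≥ 1`. -/
def numA (x : ℂ) : ℕ → ℂ
  | 0 => 1
  | 1 => 1
  | (n + 2) => numA x (n + 1) + x ^ (n + 1) * numA x n

/-- The denominators of the approximants, with the index shifted by one:
`denB x (n+1)` is `B_n` and `denB x 0` is `B_{-1} = 0`. The defining recurrence is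
`B_n = B_{n-1} + x^n B_{n-2}` for `n ≥ 1`. -/
def denB (x : ℂ) : ℕ → ℂ
  | 0 => 0
  | 1 => 1
  | (n + 2) => denB x (n + 1) + x ^ (n + 1) * denB x n

open Classical in
/-- The `n`-th approximant `K_n(x) = A_n(x) / B_n(x)` in the Riemann sphere
(the one-point compactification of `ℂ`). -/
noncomputable def approximant (x : ℂ) (n : ℕ) : OnePoint ℂ :=
  if denB x (n + 1) = 0 then OnePoint.infty else ((numA x (n + 1) / denB x (n + 1) : ℂ) : OnePoint ℂ)

/-- The continued fraction `K(x)` converges if its approximants converge in the Riemann sphere. -/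
def Converges (x : ℂ) : Prop :=
  ∃ L : OnePoint ℂ, Filter.Tendsto (approximant x) Filter.atTop (nhds L)

end Pool.Agent.MP_1cdd17_nt
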