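import Pool.Agent.Lib.MP_1cdd17_nt.Assembly

/-!
# Divergence in the general sense (Jacobsen) of `K(x)` on the unit circle

`Chord` is the chordal metric of the Riemann sphere, `modApprox x n w = S_n(w)` is the `n`-th
modified approximant `(A_n + w A_{n-1}) / (B_n + w B_{n-1})`, and `ConvergesGenerally x` says that
there are `f` and two sequences `v n`, `w n` in the sphere, eventually at chordal distance at
least a constant `δ > 0`, along which the modified approximants tend to `f`.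
-/

section
namespace Pool.Agent.MP_1cdd17_nt

open Filter Topology

/-- Homogeneous coordinates of a point of the Riemann sphere: `(z, 1)` for `z` in `ℂ` and
`(1, 0)` for infinity. -/
noncomputable def hom : OnePoint ℂ → ℂ × ℂ
  | none => (1, 0)
  | some z => (z, 1)

/-- The euclidean length of a vector of `ℂ²`. -/
noncomputable def len (p : ℂ × ℂ) : ℝ := √(‖p.1‖ ^ 2 + ‖p.2‖ ^ 2)

/-- The chordal distance of two points of the Riemann sphere: `2 |z - w| / (√(1+|z|²) √(1+|w|²))`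
for `z`, `w` in `ℂ`, and `2 / √(1+|z|²)` between `z` and infinity. -/
noncomputable def chord (u v : OnePoint ℂ) : ℝ :=
  2 * ‖(hom u).1 * (hom v).2 - (hom u).2 * (hom v).1‖ / (len (hom u) * len (hom v))

open Classical in
/-- The point `a / b` of the Riemann sphere, infinity if `b = 0`. -/
noncomputable def ratio (a b : ℂ) : OnePoint ℂ :=
  if b = 0 then OnePoint.infty else ((a / b : ℂ) : OnePoint ℂ)

/-- The modified approximant `S_n(w) = (A_n + w A_{n-1}) / (B_n + w B_{n-1})`, where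
`S_n(∞) = A_{n-1} / B_{n-1}`. -/
noncomputable def modApprox (x : ℂ) (n : ℕ) (w : OnePoint ℂ) : OnePoint ℂ :=
  ratio ((hom w).2 * numA x (n + 1) + (hom w).1 * numA x n)
    ((hom w).2 * denB x (n + 1) + (hom w).1 * denB x n)

/-- General convergence (Jacobsen): there are a point `f` and sequences `v`, `w` of points of the
sphere whose chordal distance is eventually at least some `δ > 0` and along which the modified
approximants `S_n(v n)`, `S_n(w n)` tend to `f`. -/
def ConvergesGenerally (x : ℂ) : Prop :=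
  ∃ (f : OnePoint ℂ) (v w : ℕ → OnePoint ℂ) (δ : ℝ), 0 < δ ∧
    (∀ᶠ n in atTop, δ ≤ chord (v n) (w n)) ∧
    Tendsto (fun n => modApprox x n (v n)) atTop (𝓝 f) ∧
    Tendsto (fun n => modApprox x n (w n)) atTop (𝓝 f)

lemma len_pos_of_ne {p : ℂ × ℂ} (h : p.1 ≠ 0 ∨ p.2 ≠ 0) : 0 < len p := by
  unfold len
  apply Real.sqrt_pos.2
  rcases h with h | h
  · have := norm_pos_iff.2 h
    positivity
  · have := norm_pos_iff.2 h
    positivity

lemma hom_ne (u : OnePoint ℂ) : (hom u).1 ≠ 0 ∨ (hom u).2 ≠ 0 := by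
  induction u using OnePoint.rec with
  | infty => left; exact (one_ne_zero : (1 : ℂ) ≠ 0)
  | coe z => right; exact (one_ne_zero : (1 : ℂ) ≠ 0)

lemma len_hom_pos (u : OnePoint ℂ) : 0 < len (hom u) := len_pos_of_ne (hom_ne u)

lemma len_smul (c : ℂ) (p : ℂ × ℂ) : len (c * p.1, c * p.2) = ‖c‖ * len p := by
  unfold len
  rw [show ‖((c * p.1, c * p.2) : ℂ × ℂ).1‖ ^ 2 + ‖((c * p.1, c * p.2) : ℂ × ℂ).2‖ ^ 2 =
    ‖c‖ ^ 2 * (‖p.1‖ ^ 2 + ‖p.2‖ ^ 2) by simp only [norm_mul]; ring]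
  rw [Real.sqrt_mul (by positivity), Real.sqrt_sq (norm_nonneg _)]

/-- Homogeneous coordinates of `ratio a b` are proportional to `(a, b)`. -/
lemma exists_hom_ratio {a b : ℂ} (h : a ≠ 0 ∨ b ≠ 0) :
    ∃ c : ℂ, c ≠ 0 ∧ a = c * (hom (ratio a b)).1 ∧ b = c * (hom (ratio a b)).2 := by
  by_cases hb : b = 0
  · refine ⟨a, ?_, ?_, ?_⟩
    · rcases h with h | h
      · exact h
      · exact absurd hb h
    · rw [ratio, if_pos hb]; change a = a * 1; ring
    · rw [ratio, if_pos hb]; change b = a * 0; rw [hb]; ring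
  · refine ⟨b, hb, ?_, ?_⟩
    · rw [ratio, if_neg hb]; change a = b * (a / b); field_simp
    · rw [ratio, if_neg hb]; change b = b * 1; ring

lemma chord_ratio {a b a' b' : ℂ} (h : a ≠ 0 ∨ b ≠ 0) (h' : a' ≠ 0 ∨ b' ≠ 0) :
    chord (ratio a b) (ratio a' b') = 2 * ‖a * b' - b * a'‖ / (len (a, b) * len (a', b')) := by
  obtain ⟨c, hc, h1, h2⟩ := exists_hom_ratio h
  obtain ⟨c', hc', h1', h2'⟩ := exists_hom_ratio h'
  set u := hom (ratio a b) with hu
  set u' := hom (ratio a' b') with hu'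
  have hlu : 0 < len u := len_hom_pos _
  have hlu' : 0 < len u' := len_hom_pos _
  have e1 : len (a, b) = ‖c‖ * len u := by rw [← len_smul, ← h1, ← h2]
  have e2 : len (a', b') = ‖c'‖ * len u' := by rw [← len_smul, ← h1', ← h2']
  have e3 : a * b' - b * a' = (c * c') * (u.1 * u'.2 - u.2 * u'.1) := by
    rw [h1, h2, h1', h2']; ring
  have hn : 0 < ‖c‖ := norm_pos_iff.2 hc
  have hn' : 0 < ‖c'‖ := norm_pos_iff.2 hc'
  rw [e1, e2, e3, norm_mul, norm_mul]
  unfold chord
  rw [← hu, ← hu']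
  field_simp

lemma chord_nonneg (u v : OnePoint ℂ) : 0 ≤ chord u v := by
  unfold chord
  have h1 := len_hom_pos u
  have h2 := len_hom_pos v
  positivity

lemma norm_fst_le_len (p : ℂ × ℂ) : ‖p.1‖ ≤ len p := by
  unfold len
  apply Real.le_sqrt_of_sq_le
  nlinarith [sq_nonneg ‖p.2‖]

lemma norm_snd_le_len (p : ℂ × ℂ) : ‖p.2‖ ≤ len p := by
  unfold len
  apply Real.le_sqrt_of_sq_le
  nlinarith [sq_nonneg ‖p.1‖]

lemma len_le_add (p : ℂ × ℂ) : len p ≤ ‖p.1‖ + ‖p.2‖ := by
  unfold len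
  rw [Real.sqrt_le_left (by positivity)]
  nlinarith [norm_nonneg p.1, norm_nonneg p.2]

lemma len_hom_coe (z : ℂ) : len (hom (z : OnePoint ℂ)) = √(‖z‖ ^ 2 + 1) := by
  unfold len
  change √(‖z‖ ^ 2 + ‖(1 : ℂ)‖ ^ 2) = _
  rw [norm_one, one_pow]

lemma one_le_len_hom (u : OnePoint ℂ) : 1 ≤ len (hom u) := by
  induction u using OnePoint.rec with
  | infty =>
    have h := norm_fst_le_len (hom (OnePoint.infty : OnePoint ℂ))
    rw [show (hom (OnePoint.infty : OnePoint ℂ)).1 = 1 from rfl, norm_one] at h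
    exact h
  | coe z =>
    have h := norm_snd_le_len (hom (z : OnePoint ℂ))
    rw [show (hom (z : OnePoint ℂ)).2 = 1 from rfl, norm_one] at h
    exact h

lemma chord_coe_coe_le (z w : ℂ) : chord (z : OnePoint ℂ) (w : OnePoint ℂ) ≤ 2 * ‖z - w‖ := by
  have h1 := one_le_len_hom (z : OnePoint ℂ)
  have h2 := one_le_len_hom (w : OnePoint ℂ)
  unfold chord
  rw [show (hom (z : OnePoint ℂ)).1 * (hom (w : OnePoint ℂ)).2 -
    (hom (z : OnePoint ℂ)).2 * (hom (w : OnePoint ℂ)).1 = z - w by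
      change z * 1 - 1 * w = z - w; ring]
  apply div_le_self (by positivity)
  nlinarith

/-- A bound for the chordal distance in terms of the distances to infinity. -/
lemma chord_le_add_infty (u v : OnePoint ℂ) :
    chord u v ≤ 2 * (‖(hom u).2‖ / len (hom u) + ‖(hom v).2‖ / len (hom v)) := by
  have h1 := len_hom_pos u
  have h2 := len_hom_pos v
  have h3 := norm_fst_le_len (hom u)
  have h4 := norm_fst_le_len (hom v)
  have h5 : ‖(hom u).1 * (hom v).2 - (hom u).2 * (hom v).1‖ ≤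
      len (hom u) * ‖(hom v).2‖ + ‖(hom u).2‖ * len (hom v) := by
    refine (norm_sub_le _ _).trans (add_le_add ?_ ?_)
    · rw [norm_mul]; exact mul_le_mul_of_nonneg_right h3 (norm_nonneg _)
    · rw [norm_mul]; exact mul_le_mul_of_nonneg_left h4 (norm_nonneg _)
  unfold chord
  rw [div_le_iff₀ (by positivity)]
  calc 2 * ‖(hom u).1 * (hom v).2 - (hom u).2 * (hom v).1‖
      ≤ 2 * (len (hom u) * ‖(hom v).2‖ + ‖(hom u).2‖ * len (hom v)) := by linarith
    _ = 2 * (‖(hom u).2‖ / len (hom u) + ‖(hom v).2‖ / len (hom v)) *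
        (len (hom u) * len (hom v)) := by
      field_simp
      ring

/-- Two points close to `f` are close in the chordal distance. -/
lemma exists_nhds_chord_lt (f : OnePoint ℂ) {ε : ℝ} (hε : 0 < ε) :
    ∃ U ∈ 𝓝 f, ∀ p ∈ U, ∀ q ∈ U, chord p q < ε := by
  induction f using OnePoint.rec with
  | infty =>
    have hop := (OnePoint.isOpen_compl_image_coe (s := Metric.closedBall (0 : ℂ) (8 / ε))).2
        ⟨Metric.isClosed_closedBall, isCompact_closedBall 0 (8 / ε)⟩
    refine ⟨_, hop.mem_nhds (by simp), ?_⟩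
    have key : ∀ p ∈ (((↑) : ℂ → OnePoint ℂ) '' Metric.closedBall 0 (8 / ε))ᶜ,
        ‖(hom p).2‖ / len (hom p) ≤ ε / 8 := by
      intro p hp
      induction p using OnePoint.rec with
      | infty =>
        have : (hom (OnePoint.infty : OnePoint ℂ)).2 = 0 := rfl
        rw [this, norm_zero, zero_div]
        positivity
      | coe z =>
        have h1 : 8 / ε < ‖z‖ := by
          by_contra hcon
          rw [not_lt] at hcon
          exact hp ⟨z, by simpa using hcon, rfl⟩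
        have h2 : ‖z‖ ≤ len (hom (z : OnePoint ℂ)) := norm_fst_le_len (hom (z : OnePoint ℂ))
        have h3 : (hom (z : OnePoint ℂ)).2 = 1 := rfl
        rw [h3, norm_one, div_le_iff₀ (len_hom_pos _)]
        rw [div_lt_iff₀ hε] at h1
        nlinarith
    intro p hp q hq
    have h1 := key p hp
    have h2 := key q hq
    have h3 := chord_le_add_infty p q
    linarith
  | coe a =>
    have hop := OnePoint.isOpenMap_coe (X := ℂ) _ (Metric.isOpen_ball (x := a) (ε := ε / 8))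
    refine ⟨_, hop.mem_nhds ⟨a, Metric.mem_ball_self (by positivity), rfl⟩, ?_⟩
    rintro _ ⟨z, hz, rfl⟩ _ ⟨w, hw, rfl⟩
    rw [mem_ball_iff_norm] at hz hw
    have h1 := chord_coe_coe_le z w
    have h2 : ‖z - w‖ ≤ ‖z - a‖ + ‖w - a‖ := by
      rw [show z - w = (z - a) - (w - a) by ring]; exact norm_sub_le _ _
    linarith

lemma image_ne {A A' B B' p q : ℂ} (hdet : ‖A' * B - A * B'‖ = 1) (h : p ≠ 0 ∨ q ≠ 0) :
    q * A' + p * A ≠ 0 ∨ q * B' + p * B ≠ 0 := by
  by_contra hcon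
  push Not at hcon
  obtain ⟨h1, h2⟩ := hcon
  have hd : A' * B - A * B' ≠ 0 := by
    intro h0; rw [h0, norm_zero] at hdet; exact zero_ne_one hdet
  have hq : q * (A' * B - A * B') = 0 := by linear_combination B * h1 - A * h2
  have hp : p * (A' * B - A * B') = 0 := by linear_combination A' * h2 - B' * h1
  rcases h with h | h
  · exact (mul_ne_zero h hd) hp
  · exact (mul_ne_zero h hd) hq

lemma len_image_le {A A' B B' : ℂ} {C : ℝ} (hA : ‖A‖ ≤ C) (hB : ‖B‖ ≤ C) (hA' : ‖A'‖ ≤ C)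
    (hB' : ‖B'‖ ≤ C) (p : ℂ × ℂ) :
    len (p.2 * A' + p.1 * A, p.2 * B' + p.1 * B) ≤ 4 * C * len p := by
  have hC : 0 ≤ C := (norm_nonneg _).trans hA
  have h1 := norm_fst_le_len p
  have h2 := norm_snd_le_len p
  have aux : ∀ D D' : ℂ, ‖D‖ ≤ C → ‖D'‖ ≤ C → ‖p.2 * D' + p.1 * D‖ ≤ 2 * C * len p := by
    intro D D' hD hD'
    refine (norm_add_le _ _).trans ?_
    rw [norm_mul, norm_mul]
    have h3 : ‖p.2‖ * ‖D'‖ ≤ len p * C := mul_le_mul h2 hD' (norm_nonneg _) (by
      exact (norm_nonneg _).trans h2)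
    have h4 : ‖p.1‖ * ‖D‖ ≤ len p * C := mul_le_mul h1 hD (norm_nonneg _) (by
      exact (norm_nonneg _).trans h1)
    linarith
  refine (len_le_add _).trans ?_
  have h5 := aux A A' hA hA'
  have h6 := aux B B' hB hB'
  change ‖p.2 * A' + p.1 * A‖ + ‖p.2 * B' + p.1 * B‖ ≤ _
  linarith

/-- If `A_{n-1}, B_{n-1}, A_n, B_n` are at most `C` then `S_n` contracts chordal distances at most
by the factor `16 C²`. -/
lemma chord_le_modApprox {x : ℂ} (hx : ‖x‖ = 1) {n : ℕ} {C : ℝ} (hA : ‖numA x n‖ ≤ C)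
    (hB : ‖denB x n‖ ≤ C) (hA' : ‖numA x (n + 1)‖ ≤ C) (hB' : ‖denB x (n + 1)‖ ≤ C)
    (u v : OnePoint ℂ) :
    chord u v ≤ 16 * C ^ 2 * chord (modApprox x n u) (modApprox x n v) := by
  have hdet := norm_casoratian hx n
  have hC : 0 ≤ C := (norm_nonneg _).trans hA
  have hu := image_ne hdet (hom_ne u)
  have hv := image_ne hdet (hom_ne v)
  unfold modApprox
  rw [chord_ratio hu hv]
  have hlu := len_image_le hA hB hA' hB' (hom u)
  have hlv := len_image_le hA hB hA' hB' (hom v)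
  have hpu : 0 < len ((hom u).2 * numA x (n + 1) + (hom u).1 * numA x n,
    (hom u).2 * denB x (n + 1) + (hom u).1 * denB x n) := len_pos_of_ne hu
  have hpv : 0 < len ((hom v).2 * numA x (n + 1) + (hom v).1 * numA x n,
    (hom v).2 * denB x (n + 1) + (hom v).1 * denB x n) := len_pos_of_ne hv
  set Lu := len ((hom u).2 * numA x (n + 1) + (hom u).1 * numA x n,
    (hom u).2 * denB x (n + 1) + (hom u).1 * denB x n) with hLu
  set Lv := len ((hom v).2 * numA x (n + 1) + (hom v).1 * numA x n,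
    (hom v).2 * denB x (n + 1) + (hom v).1 * denB x n) with hLv
  have hid : ((hom u).2 * numA x (n + 1) + (hom u).1 * numA x n) *
      ((hom v).2 * denB x (n + 1) + (hom v).1 * denB x n) -
      ((hom u).2 * denB x (n + 1) + (hom u).1 * denB x n) *
      ((hom v).2 * numA x (n + 1) + (hom v).1 * numA x n) =
      -((hom u).1 * (hom v).2 - (hom u).2 * (hom v).1) *
        (numA x (n + 1) * denB x n - numA x n * denB x (n + 1)) := by ring
  rw [hid, norm_mul, hdet, mul_one, norm_neg]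
  have h1 := len_hom_pos u
  have h2 := len_hom_pos v
  unfold chord
  rw [div_le_iff₀ (by positivity)]
  have h3 : Lu * Lv ≤ 4 * C * len (hom u) * (4 * C * len (hom v)) :=
    mul_le_mul hlu hlv hpv.le (by positivity)
  set W := ‖(hom u).1 * (hom v).2 - (hom u).2 * (hom v).1‖ with hW
  have hW0 : 0 ≤ W := norm_nonneg _
  rw [show 16 * C ^ 2 * (2 * W / (Lu * Lv)) * (len (hom u) * len (hom v)) =
    2 * W * ((4 * C * len (hom u) * (4 * C * len (hom v))) / (Lu * Lv)) by ring]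
  apply le_mul_of_one_le_right (by positivity)
  rw [one_le_div (by positivity)]
  exact h3

/-- Boundedness along a sequence of indices excludes general convergence. -/
theorem not_convergesGenerally_of_frequently_bounded {x : ℂ} (hx : ‖x‖ = 1) {C : ℝ}
    (h : ∃ᶠ n in atTop, ‖numA x n‖ ≤ C ∧ ‖denB x n‖ ≤ C ∧ ‖numA x (n + 1)‖ ≤ C ∧
      ‖denB x (n + 1)‖ ≤ C) : ¬ ConvergesGenerally x := by
  rintro ⟨f, v, w, δ, hδ, hvw, hv, hw⟩
  obtain ⟨U, hU, hUc⟩ := exists_nhds_chord_lt f (ε := δ / (16 * C ^ 2 + 1)) (by positivity)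
  obtain ⟨n, ⟨hA, hB, hA', hB'⟩, h1, h2, h3⟩ :=
    (h.and_eventually (hvw.and ((hv.eventually hU).and (hw.eventually hU)))).exists
  have h4 := hUc _ h2 _ h3
  have h5 := chord_le_modApprox hx hA hB hA' hB' (v n) (w n)
  rw [lt_div_iff₀ (by positivity)] at h4
  have h6 := chord_nonneg (modApprox x n (v n)) (modApprox x n (w n))
  nlinarith

/-- The modified approximant at `0` is the ordinary approximant. -/
lemma modApprox_zero (x : ℂ) (n : ℕ) : modApprox x n ((0 : ℂ) : OnePoint ℂ) = approximant x n := by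
  unfold modApprox
  rw [show (hom ((0 : ℂ) : OnePoint ℂ)).2 = 1 from rfl,
    show (hom ((0 : ℂ) : OnePoint ℂ)).1 = 0 from rfl]
  rw [one_mul, zero_mul, add_zero, one_mul, zero_mul, add_zero]
  rfl

/-- The modified approximant at infinity is the previous ordinary approximant. -/
lemma modApprox_infty (x : ℂ) (n : ℕ) :
    modApprox x (n + 1) OnePoint.infty = approximant x n := by
  unfold modApprox
  rw [show (hom (OnePoint.infty : OnePoint ℂ)).2 = 0 from rfl,
    show (hom (OnePoint.infty : OnePoint ℂ)).1 = 1 from rfl]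
  rw [zero_mul, one_mul, zero_add, zero_mul, one_mul, zero_add]
  rfl

/-- Ordinary convergence implies general convergence. -/
lemma Converges.convergesGenerally {x : ℂ} (h : Converges x) : ConvergesGenerally x := by
  obtain ⟨L, hL⟩ := h
  refine ⟨L, fun _ => ((0 : ℂ) : OnePoint ℂ), fun _ => OnePoint.infty, 2, two_pos,
    Eventually.of_forall fun n => ?_, ?_, ?_⟩
  · unfold chord
    have h1 : len (hom ((0 : ℂ) : OnePoint ℂ)) = 1 := by
      rw [len_hom_coe]; simp
    have h2 : len (hom (OnePoint.infty : OnePoint ℂ)) = 1 := by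
      change √(‖(1 : ℂ)‖ ^ 2 + ‖(0 : ℂ)‖ ^ 2) = 1
      simp
    rw [h1, h2]
    change 2 ≤ 2 * ‖(0 : ℂ) * 0 - 1 * 1‖ / (1 * 1)
    simp
  · simp only [modApprox_zero]
    exact hL
  · rw [← tendsto_add_atTop_iff_nat 1]
    simp only [modApprox_infty]
    exact hL

/-- `A_{n-1}, B_{n-1}, A_n, B_n` stay bounded along a sequence of indices. -/
theorem frequently_bounded_of_mainLemma (hML : MainLemma) {α : ℝ} (hα : Irrational α) :
    ∃ C : ℝ, ∃ᶠ n in atTop, ‖numA (e α) n‖ ≤ C ∧ ‖denB (e α) n‖ ≤ C ∧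
      ‖numA (e α) (n + 1)‖ ≤ C ∧ ‖denB (e α) (n + 1)‖ ≤ C := by
  obtain ⟨c, hc, hsel⟩ := select hα
  obtain ⟨C, hC⟩ := hML c hc
  refine ⟨4 * (|C| + 2), ?_⟩
  rw [frequently_atTop]
  intro N
  obtain ⟨q, p, κ, hN, hq, hκ, h1, h2, h3, h4⟩ := hsel N
  refine ⟨q, hN.le, ?_⟩
  have hmain := hC α p q κ hα hq hκ h1 h2 h3 h4
  have h0 := ne_zero_of_norm_one (norm_e α)
  have hCabs := le_abs_self C
  have habs := abs_nonneg C
  obtain ⟨v, rfl | rfl⟩ := Nat.even_or_odd' q
  · refine ⟨?_, ?_, ?_, ?_⟩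
    · rw [(numA_eq h0 v).1]
      refine (norm_sub_le _ _).trans ?_
      linarith [norm_S_le_of_main hα hmain _ _ (v : ℤ) e₁ e₁_form,
        norm_S_le_of_main hα hmain _ _ ((v : ℤ) - 3) e₂ e₂_form]
    · rw [(denB_eq h0 v).1]
      refine (norm_sub_le _ _).trans ?_
      linarith [norm_S_le_of_main hα hmain _ _ ((v : ℤ) + 1) e₃ e₃_form,
        norm_S_le_of_main hα hmain _ _ ((v : ℤ) - 2) e₄ e₄_form]
    · rw [(numA_eq h0 v).2]
      refine (norm_sub_le _ _).trans ?_
      linarith [norm_S_succ_le_of_main hα hmain _ _ (v : ℤ) e₁ e₁_form,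
        norm_S_succ_le_of_main hα hmain _ _ ((v : ℤ) - 2) e₂ e₂_form]
    · rw [(denB_eq h0 v).2]
      refine (norm_sub_le _ _).trans ?_
      linarith [norm_S_succ_le_of_main hα hmain _ _ ((v : ℤ) + 1) e₃ e₃_form,
        norm_S_succ_le_of_main hα hmain _ _ ((v : ℤ) - 1) e₄ e₄_form]
  · refine ⟨?_, ?_, ?_, ?_⟩
    · rw [(numA_eq h0 v).2]
      refine (norm_sub_le _ _).trans ?_
      linarith [norm_S_le_of_main hα hmain _ _ (v : ℤ) e₁ e₁_form,
        norm_S_le_of_main hα hmain _ _ ((v : ℤ) - 2) e₂ e₂_form]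
    · rw [(denB_eq h0 v).2]
      refine (norm_sub_le _ _).trans ?_
      linarith [norm_S_le_of_main hα hmain _ _ ((v : ℤ) + 1) e₃ e₃_form,
        norm_S_le_of_main hα hmain _ _ ((v : ℤ) - 1) e₄ e₄_form]
    · rw [show 2 * v + 1 + 1 = 2 * (v + 1) by ring, (numA_eq h0 (v + 1)).1,
        show 2 * (v + 1) = 2 * v + 1 + 1 by ring]
      refine (norm_sub_le _ _).trans ?_
      linarith [norm_S_succ_le_of_main hα hmain _ _ ((v + 1 : ℕ) : ℤ) e₁ e₁_form,
        norm_S_succ_le_of_main hα hmain _ _ (((v + 1 : ℕ) : ℤ) - 3) e₂ e₂_form]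
    · rw [show 2 * v + 1 + 1 = 2 * (v + 1) by ring, (denB_eq h0 (v + 1)).1,
        show 2 * (v + 1) = 2 * v + 1 + 1 by ring]
      refine (norm_sub_le _ _).trans ?_
      linarith [norm_S_succ_le_of_main hα hmain _ _ (((v + 1 : ℕ) : ℤ) + 1) e₃ e₃_form,
        norm_S_succ_le_of_main hα hmain _ _ (((v + 1 : ℕ) : ℤ) - 2) e₄ e₄_form]


end Pool.Agent.MP_1cdd17_nt
end
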